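import Pool.Agent.MP_47ff19_lc.H6P.Defs

namespace Pool.Agent.MP_47ff19_lc.H6P

open Relation

/-- phases of the simulation -/
inductive A2Ph where
  | main | dl | dr | dr2 | hl | hl2 | hr | zl | lr

theorem a2ph_finite : Finite A2Ph :=
  Finite.of_surjective (fun i : Fin 9 => [A2Ph.main, .dl, .dr, .dr2, .hl, .hl2, .hr, .zl, .lr].getD i
    A2Ph.main) fun p => by
    cases p
    exacts [⟨0, rfl⟩, ⟨1, rfl⟩, ⟨2, rfl⟩, ⟨3, rfl⟩, ⟨4, rfl⟩, ⟨5, rfl⟩, ⟨6, rfl⟩, ⟨7, rfl⟩, ⟨8, rfl⟩]

def a2lft : Sym Unit → Bool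
  | Sym.lft => true
  | _ => false

def a2rgt : Sym Unit → Bool
  | Sym.rgt => true
  | _ => false

def a2tmp {G : Type} : Option (Option G) → Bool
  | some none => true
  | _ => false

def a2ins {Q G : Type} : Ins Q G → (A2Ph × Q × Q) × SignType × Op (Option G)
  | Ins.dbl q => ((A2Ph.dl, q, q), 0, Op.keep)
  | Ins.half q0 q1 => ((A2Ph.hl, q0, q1), 0, Op.keep)
  | Ins.inc q => ((A2Ph.main, q, q), 1, Op.keep)
  | Ins.zero q => ((A2Ph.zl, q, q), 0, Op.keep)
  | Ins.load q => ((A2Ph.lr, q, q), 0, Op.keep)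
  | Ins.push g q => ((A2Ph.main, q, q), 0, Op.push (some g))
  | Ins.pop q => ((A2Ph.main, q, q), 0, Op.pop)
  | Ins.goto q => ((A2Ph.main, q, q), 0, Op.keep)

def a2δ {Q G : Type} (P : A2 Q G) : A2Ph × Q × Q → Sym Unit → Option (Option G) →
    (A2Ph × Q × Q) × SignType × Op (Option G)
  | (A2Ph.main, q, r), y, t =>
      if (P.out q).isSome then ((A2Ph.main, q, r), 0, Op.keep) else a2ins (P.δ q t.join (a2lft y))
  | (A2Ph.dl, q, r), y, _ =>
      if a2lft y then ((A2Ph.dr, q, r), 0, Op.keep) else ((A2Ph.dl, q, r), -1, Op.push none)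
  | (A2Ph.dr, q, r), _, t =>
      if a2tmp t then ((A2Ph.dr2, q, r), 1, Op.pop) else ((A2Ph.main, q, q), 0, Op.keep)
  | (A2Ph.dr2, q, r), _, _ => ((A2Ph.dr, q, r), 1, Op.keep)
  | (A2Ph.hl, q, r), y, _ =>
      if a2lft y then ((A2Ph.hr, q, q), 0, Op.keep) else ((A2Ph.hl2, q, r), -1, Op.keep)
  | (A2Ph.hl2, q, r), y, _ =>
      if a2lft y then ((A2Ph.hr, r, r), 0, Op.keep) else ((A2Ph.hl, q, r), -1, Op.push none)
  | (A2Ph.hr, q, r), _, t =>
      if a2tmp t then ((A2Ph.hr, q, r), 1, Op.pop) else ((A2Ph.main, q, q), 0, Op.keep)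
  | (A2Ph.zl, q, r), y, _ =>
      if a2lft y then ((A2Ph.main, q, q), 0, Op.keep) else ((A2Ph.zl, q, r), -1, Op.keep)
  | (A2Ph.lr, q, r), y, _ =>
      if a2rgt y then ((A2Ph.main, q, q), -1, Op.keep) else ((A2Ph.lr, q, r), 1, Op.keep)

def a2D {Q G : Type} (P : A2 Q G) : TwoPDA Unit (A2Ph × Q × Q) (Option G) where
  start := (A2Ph.main, P.start, P.start)
  acc := fun s => s.1 = A2Ph.main ∧ P.out s.2.1 = some true
  δ := a2δ P

/-- reachability -/
def A2R {Q G : Type} (P : A2 Q G) (N : ℕ) (c c' : (A2Ph × Q × Q) × ℕ × List (Option G)) : Prop :=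
  ∃ t : ℕ, ((a2D P).step (un N))^[t] c = c'

section
variable {Q G : Type} {P : A2 Q G} {N : ℕ}

theorem A2R.rfl' (c : (A2Ph × Q × Q) × ℕ × List (Option G)) : A2R P N c c := ⟨0, rfl⟩

theorem A2R.tr {a b c : (A2Ph × Q × Q) × ℕ × List (Option G)} (h : A2R P N a b)
    (h' : A2R P N b c) : A2R P N a c := by
  obtain ⟨s, rfl⟩ := h
  obtain ⟨t, rfl⟩ := h'
  exact ⟨t + s, Function.iterate_add_apply _ _ _ _⟩

theorem A2R.hd {a b c : (A2Ph × Q × Q) × ℕ × List (Option G)}
    (h : (a2D P).step (un N) a = b) (h' : A2R P N b c) : A2R P N a c :=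
  A2R.tr ⟨1, h⟩ h'

theorem a2lft_un (N p : ℕ) : a2lft (tape (un N) p) = decide (p = 0) := by
  rw [tape_un]
  split_ifs with h1 h2 <;> simp [a2lft, h1]

theorem a2rgt_un (N p : ℕ) : a2rgt (tape (un N) p) = decide (N < p) := by
  rw [tape_un]
  split_ifs with h1 h2
  · simp [a2rgt, h1]
  · simp [a2rgt, h2]
  · simp [a2rgt, not_le.1 h2]

theorem a2tmp_map (s : List G) : a2tmp (s.map some).head? = false := by
  cases s <;> rfl

theorem mv_zero' (n p : ℕ) : mv n p 0 = p := rfl

theorem mv_neg' (n p : ℕ) : mv n p (-1) = p - 1 := rfl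

theorem mv_pos' (n p : ℕ) : mv n p 1 = min (p + 1) (n + 1) := rfl

theorem a2_dl (q r : Q) (R : ℕ) (s : List (Option G)) :
    A2R P N ((A2Ph.dl, q, r), R, s) ((A2Ph.dr, q, r), 0, List.replicate R none ++ s) := by
  induction R generalizing s with
  | zero =>
    exact A2R.hd (by simp [TwoPDA.step, a2D, a2δ, a2lft_un, mv_zero', Op.app]) (A2R.rfl' _)
  | succ R ih =>
    refine A2R.hd (b := ((A2Ph.dl, q, r), R, none :: s))
      (by simp [TwoPDA.step, a2D, a2δ, a2lft_un, mv_neg', Op.app]) ?_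
    have := ih (none :: s)
    rwa [← List.singleton_append, ← List.append_assoc, ← List.replicate_succ'] at this

theorem a2_dr (q r : Q) (R p : ℕ) (s : List G) (h : p + 2 * R ≤ N) :
    A2R P N ((A2Ph.dr, q, r), p, List.replicate R none ++ s.map some)
      ((A2Ph.main, q, q), p + 2 * R, s.map some) := by
  induction R generalizing p with
  | zero =>
    exact A2R.hd (by simp [TwoPDA.step, a2D, a2δ, a2tmp_map, mv_zero', Op.app, -List.head?_map])
      (A2R.rfl' _)
  | succ R ih =>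
    refine A2R.hd (b := ((A2Ph.dr2, q, r), p + 1, List.replicate R none ++ s.map some))
      (by simp [TwoPDA.step, a2D, a2δ, a2tmp, mv_pos', Op.app, List.replicate_succ]; omega) ?_
    refine A2R.hd (b := ((A2Ph.dr, q, r), p + 2, List.replicate R none ++ s.map some))
      (by simp [TwoPDA.step, a2D, a2δ, mv_pos', Op.app]; omega) ?_
    have := ih (p + 2) (by omega)
    rwa [show p + 2 + 2 * R = p + 2 * (R + 1) by ring] at this

theorem a2_hl (q r : Q) (R : ℕ) (s : List (Option G)) :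
    A2R P N ((A2Ph.hl, q, r), R, s) ((A2Ph.hr, if R % 2 = 0 then q else r,
      if R % 2 = 0 then q else r), 0, List.replicate (R / 2) none ++ s) := by
  induction R using Nat.twoStepInduction generalizing s with
  | zero =>
    exact A2R.hd (by simp [TwoPDA.step, a2D, a2δ, a2lft_un, mv_zero', Op.app]) (A2R.rfl' _)
  | one =>
    refine A2R.hd (b := ((A2Ph.hl2, q, r), 0, s))
      (by simp [TwoPDA.step, a2D, a2δ, a2lft_un, mv_neg', Op.app]) ?_
    exact A2R.hd (by simp [TwoPDA.step, a2D, a2δ, a2lft_un, mv_zero', Op.app]) (A2R.rfl' _)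
  | more R ih _ =>
    refine A2R.hd (b := ((A2Ph.hl2, q, r), R + 1, s))
      (by simp [TwoPDA.step, a2D, a2δ, a2lft_un, mv_neg', Op.app]) ?_
    refine A2R.hd (b := ((A2Ph.hl, q, r), R, none :: s))
      (by simp [TwoPDA.step, a2D, a2δ, a2lft_un, mv_neg', Op.app]) ?_
    have := ih (none :: s)
    rw [← List.singleton_append, ← List.append_assoc, ← List.replicate_succ'] at this
    rwa [Nat.add_mod_right, Nat.add_div_right _ two_pos]

theorem a2_hr (q r : Q) (R p : ℕ) (s : List G) (h : p + R ≤ N) :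
    A2R P N ((A2Ph.hr, q, r), p, List.replicate R none ++ s.map some)
      ((A2Ph.main, q, q), p + R, s.map some) := by
  induction R generalizing p with
  | zero =>
    exact A2R.hd (by simp [TwoPDA.step, a2D, a2δ, a2tmp_map, mv_zero', Op.app, -List.head?_map])
      (A2R.rfl' _)
  | succ R ih =>
    refine A2R.hd (b := ((A2Ph.hr, q, r), p + 1, List.replicate R none ++ s.map some))
      (by simp [TwoPDA.step, a2D, a2δ, a2tmp, mv_pos', Op.app, List.replicate_succ]; omega) ?_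
    have := ih (p + 1) (by omega)
    rwa [show p + 1 + R = p + (R + 1) by ring] at this

theorem a2_zl (q r : Q) (R : ℕ) (s : List (Option G)) :
    A2R P N ((A2Ph.zl, q, r), R, s) ((A2Ph.main, q, q), 0, s) := by
  induction R with
  | zero =>
    exact A2R.hd (by simp [TwoPDA.step, a2D, a2δ, a2lft_un, mv_zero', Op.app]) (A2R.rfl' _)
  | succ R ih =>
    exact A2R.hd (by simp [TwoPDA.step, a2D, a2δ, a2lft_un, mv_neg', Op.app]) ih

theorem a2_lr (q r : Q) (d R : ℕ) (h : R + d = N + 1) (s : List (Option G)) :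
    A2R P N ((A2Ph.lr, q, r), R, s) ((A2Ph.main, q, q), N, s) := by
  induction d generalizing R with
  | zero =>
    obtain rfl : R = N + 1 := h
    exact A2R.hd (by simp [TwoPDA.step, a2D, a2δ, a2rgt_un, mv_neg', Op.app]) (A2R.rfl' _)
  | succ d ih =>
    have h1 : ¬ N < R := by omega
    refine A2R.hd (b := ((A2Ph.lr, q, r), R + 1, s)) ?_ (ih (R + 1) (by omega))
    simp [TwoPDA.step, a2D, a2δ, a2rgt_un, mv_pos', Op.app, h1]
    omega

theorem a2_step {c c' : Q × List G × ℕ} (h : P.Step N c c') (hR : c.2.2 ≤ N) :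
    A2R P N ((A2Ph.main, c.1, c.1), c.2.2, c.2.1.map some)
      ((A2Ph.main, c'.1, c'.1), c'.2.2, c'.2.1.map some) := by
  obtain ⟨q, s, R⟩ := c
  obtain ⟨h1, h2, h3⟩ := h
  dsimp only at h1 h2 hR ⊢
  have e : (a2D P).step (un N) ((A2Ph.main, q, q), R, s.map some) =
      ((a2ins (P.δ q s.head? (decide (R = 0)))).1,
        mv N R (a2ins (P.δ q s.head? (decide (R = 0)))).2.1,
        (a2ins (P.δ q s.head? (decide (R = 0)))).2.2.app (s.map some)) := by
    have e1 : (s.map some).head?.join = s.head? := by cases s <;> rfl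
    simp only [TwoPDA.step, a2D, a2δ, h1, a2lft_un, e1, Option.isSome_none, Bool.false_eq_true,
      if_false, List.length_replicate]
  refine A2R.hd e ?_
  generalize P.δ q s.head? (decide (R = 0)) = I at h2 ⊢
  subst h2
  cases I with
  | dbl q' =>
    have := a2_dr (P := P) q' q' R 0 s (by simpa [Ins.app] using h3)
    rw [zero_add] at this
    exact (a2_dl q' q' R _).tr this
  | half q0 q1 =>
    have := a2_hr (P := P) (N := N) (if R % 2 = 0 then q0 else q1) (if R % 2 = 0 then q0 else q1)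
      (R / 2) 0 s (by omega)
    rw [zero_add] at this
    exact (a2_hl q0 q1 R _).tr this
  | inc q' =>
    have e1 : mv N R 1 = R + 1 := by rw [mv_pos']; omega
    simp only [a2ins, Ins.app, Op.app, e1]
    exact A2R.rfl' _
  | zero q' => exact a2_zl q' q' R _
  | load q' => exact a2_lr q' q' (N + 1 - R) R (by omega) _
  | push g q' => exact A2R.rfl' _
  | pop q' =>
    simp only [a2ins, Ins.app, Op.app, mv_zero', List.map_tail]
    exact A2R.rfl' _
  | goto q' => exact A2R.rfl' _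

theorem a2_run {c : Q × List G × ℕ} (h : ReflTransGen (P.Step N) (P.start, [], 0) c) :
    c.2.2 ≤ N ∧ A2R P N ((a2D P).start, 0, []) ((A2Ph.main, c.1, c.1), c.2.2, c.2.1.map some) := by
  induction h with
  | refl => exact ⟨Nat.zero_le _, A2R.rfl' _⟩
  | tail _ h ih => exact ⟨h.2.2, ih.2.tr (a2_step h ih.1)⟩

theorem a2_abs {c : (A2Ph × Q × Q) × ℕ × List (Option G)} {b : Bool} (h1 : c.1.1 = A2Ph.main)
    (h2 : P.out c.1.2.1 = some b) (t : ℕ) : ((a2D P).step (un N))^[t] c = c := by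
  obtain ⟨⟨p, q, r⟩, R, s⟩ := c
  dsimp only at h1 h2
  subst h1
  exact Function.iterate_fixed (by simp [TwoPDA.step, a2D, a2δ, h2, mv_zero', Op.app]) t

end

/-- ROW A2C (paper section 1): a 2DPDA simulates an A2 machine (halting states absorbing). -/
theorem a2_compile (Q G : Type) [Finite Q] [Finite G] (P : A2 Q G) :
    ∃ (Q' G' : Type) (_ : Finite Q') (_ : Finite G') (D : TwoPDA Unit Q' G'),
      ∀ N b, P.Halts N b → Answers D N b := by
  have := a2ph_finite
  refine ⟨A2Ph × Q × Q, Option G, inferInstance, inferInstance, a2D P, fun N b h => ?_⟩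
  obtain ⟨c, hc, hb⟩ := h
  obtain ⟨t0, h0⟩ := (a2_run hc).2
  constructor
  · rintro ⟨t, h1, h2⟩
    have e1 := a2_abs (N := N) h1 h2 t0
    rw [← Function.iterate_add_apply, add_comm, Function.iterate_add_apply, h0,
      a2_abs (b := b) rfl hb] at e1
    rw [← e1] at h2
    exact Option.some.inj (hb.symm.trans h2)
  · rintro rfl
    exact ⟨t0, by rw [h0]; exact ⟨rfl, hb⟩⟩

end Pool.Agent.MP_47ff19_lc.H6P
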