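import Pool.Agent.MP_47ff19_lc.H6P.InterpA

namespace Pool.Agent.MP_47ff19_lc.H6P

open Relation

namespace Itp

open Ph Cx

variable {K G : Type} {p : Par K G} {N : ℕ}

def ones : ℕ → ℕ → ℕ
  | 0, x => 2 * x
  | e + 1, x => 2 * ones e x + 1

theorem le_ones (e x : ℕ) : x ≤ ones e x := by
  induction e with
  | zero => unfold ones; omega
  | succ e ih => unfold ones; omega

theorem ex_code (B n : ℕ) : ∀ f : ℕ → ℕ, ∃ V : ℕ → ℕ, B ≤ V 0 ∧ (∀ i, i ≤ n → V i ≤ V 0) ∧
    ∀ i, i < n → V i = ones (f i) (V (i + 1)) := by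
  induction n with
  | zero =>
    intro f
    exact ⟨fun _ => B, le_rfl, fun _ _ => le_rfl, fun i h => absurd h (by omega)⟩
  | succ n ih =>
    intro f
    obtain ⟨V, h1, h2, h3⟩ := ih fun i => f (i + 1)
    refine ⟨fun i => Nat.casesOn i (ones (f 0) (V 0)) V, h1.trans (le_ones _ _), ?_, ?_⟩
    · rintro (_ | i) h
      · exact le_rfl
      · exact (h2 i (by omega)).trans (le_ones _ _)
    · rintro (_ | i) h
      · rfl
      · exact h3 i (by omega)

theorem cn_val {c : ℕ} (h : c ≤ p.W) : (cn p c).val = c := Nat.mod_eq_of_lt (Nat.lt_succ_of_le h)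

theorem skip1 (κ : Inp K G) (fl : Bool) (s : List (Gm G)) {c : ℕ} (hc : c + 1 ≤ p.W) (x e : ℕ) :
    ones e x ≤ N →
      Rch p N ((e7, sk κ fl (cn p (c + 1))), s, ones e x) ((e7, sk κ fl (cn p c)), s, x) := by
  induction e with
  | zero =>
    intro h
    refine stp (R' := x) rfl ?_ ((le_ones 0 x).trans h) ReflTransGen.refl
    simp only [dl, f7, cn_val hc, Nat.succ_ne_zero, if_false, Nat.add_sub_cancel]
    exact half0 _ _ _ _
  | succ e ih =>
    intro h
    have h' : ones e x ≤ N := by unfold ones at h; omega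
    refine stp (R' := ones e x) rfl ?_ h' (ih h')
    simp only [dl, f7, cn_val hc, Nat.succ_ne_zero, if_false, Nat.add_sub_cancel]
    exact half1 _ _ _ _

theorem readO (s : List (Gm G)) (x e : ℕ) : ∀ c : ℕ, c + e ≤ p.W → ones e x ≤ N →
    Rch p N ((e7, rd (cn p c)), s, ones e x) ((e7, dec (p.dc (c + e))), s, x) := by
  induction e with
  | zero =>
    intro c hc h
    refine stp (R' := x) rfl ?_ ((le_ones 0 x).trans h) ReflTransGen.refl
    simp only [dl, f7, cn_val (show c ≤ p.W from hc)]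
    exact half0 _ _ _ _
  | succ e ih =>
    intro c hc h
    have h' : ones e x ≤ N := by unfold ones at h; omega
    have e1 : c + (e + 1) = c + 1 + e := by ring
    rw [e1]
    refine stp (R' := ones e x) rfl ?_ h' (ih _ (by omega) h')
    simp only [dl, f7, cn_val (show c ≤ p.W by omega)]
    exact half1 _ _ _ _

theorem readS (a : Act K G) (x e : ℕ) : ∀ s : List (Gm G), ones e x ≤ N →
    Rch p N ((e7, rs a), s, ones e x) ((a1, bk a false), List.replicate e uu ++ s, 0) := by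
  induction e with
  | zero =>
    intro s h
    exact stp rfl (half0 _ _ _ _) ((le_ones 0 x).trans h)
      (stp (R' := 0) rfl rfl (Nat.zero_le _) ReflTransGen.refl)
  | succ e ih =>
    intro s h
    have h' : ones e x ≤ N := by unfold ones at h; omega
    rw [List.replicate_succ', List.append_assoc]
    exact stp rfl (half1 _ _ _ _) h' (stp rfl rfl h' (ih _ h'))

section
variable {f V : ℕ → ℕ} {n : ℕ} (hV : ∀ i, i < n → V i = ones (f i) (V (i + 1)))
  (hb : ∀ i, i ≤ n → V i ≤ N)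
include hV hb

theorem skipN (κ : Inp K G) (fl : Bool) (s : List (Gm G)) (c : ℕ) : ∀ i : ℕ, c ≤ p.W → i + c ≤ n →
    Rch p N ((e7, sk κ fl (cn p c)), s, V i) ((e7, sk κ fl (cn p 0)), s, V (i + c)) := by
  induction c with
  | zero => intro i _ _; exact ReflTransGen.refl
  | succ c ih =>
    intro i hc hi
    have e1 : i + (c + 1) = i + 1 + c := by ring
    have h := hb i (by omega)
    rw [e1]
    rw [hV i (by omega)] at h ⊢
    exact (skip1 κ fl s hc _ _ h).trans (ih _ (by omega) (by omega))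

theorem skipU (hM : 2 * p.M ≤ p.W) (κ : Inp K G) (s : List (Gm G)) (σ : ℕ) :
    ∀ i : ℕ, i + 2 * p.M * σ ≤ n →
      Rch p N ((e7, sk κ true (cn p 0)), List.replicate σ uu ++ s, V i)
        ((e7, sk κ true (cn p 0)), s, V (i + 2 * p.M * σ)) := by
  induction σ with
  | zero => intro i _; exact ReflTransGen.refl
  | succ σ ih =>
    intro i hi
    have e1 : i + 2 * p.M * (σ + 1) = i + 2 * p.M + 2 * p.M * σ := by ring
    rw [e1] at hi ⊢
    exact stp rfl rfl (hb i (by omega))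
      ((skipN hV hb κ true _ _ i hM (by omega)).trans (ih _ hi))

theorem lookup (hM : 2 * p.M ≤ p.W) (κ : Inp K G) (hκ : p.ix κ < p.M) (s : List (Gm G))
    (hs : isU s.head? = false) (hs' : isV s.head? = false) (k σ : ℕ) (hσ : 2 * p.M * (σ + 1) ≤ n)
    (hf : f (2 * p.M * σ + 2 * p.ix κ) ≤ p.W) (hN : N = (2 * k + 1) * 2 ^ V 0) :
    Rch p N ((e0, lk κ), List.replicate σ uu ++ s, 0)
      ((e7, dec (p.dc (f (2 * p.M * σ + 2 * p.ix κ)))), s, V (2 * p.M * σ + 2 * p.ix κ + 1)) := by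
  rw [mul_add, mul_one] at hσ
  have r1 := getS (p := p) κ (List.replicate σ uu ++ s) (by cases σ; exacts [hs', rfl]) k (V 0) 0 hN
  have r2 := skipU hV hb hM κ s σ 0 (by omega)
  rw [zero_add] at r2
  have r3 := skipN (p := p) hV hb κ false s (2 * p.ix κ) (2 * p.M * σ) (by omega) (by omega)
  have h := hb (2 * p.M * σ + 2 * p.ix κ) (by omega)
  have h0 := h
  rw [hV _ (by omega)] at h
  have r4 := readO (p := p) s _ _ 0 (by omega) h
  rw [← hV _ (by omega), zero_add] at r4
  exact r1.trans (r2.trans (stp (R' := V (2 * p.M * σ)) rfl (by simp only [dl, f7, hs]; rfl)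
    (hb _ (by omega)) (r3.trans (stp rfl rfl h0 r4))))

end

theorem hd_facts (r : List (Option G)) (h : r.head? ≠ some none) :
    isU (r.map (Sum.inl : Option G → Gm G)).head? = false ∧
    isV (r.map (Sum.inl : Option G → Gm G)).head? = false ∧
    isT (r.map (Sum.inl : Option G → Gm G)).head? = none ∧
    topG (r.map (Sum.inl : Option G → Gm G)).head? = r.head?.join := by
  rcases r with _ | ⟨_ | g, r⟩
  · exact ⟨rfl, rfl, rfl, rfl⟩
  · exact absurd rfl h
  · exact ⟨rfl, rfl, rfl, rfl⟩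

theorem front (μ : K) (σ R : ℕ) (r : List (Option G)) (hr : r.head? ≠ some none)
    (h : (2 * R + 1) * 2 ^ σ ≤ N) : ∃ l : List Bool, back l 0 = R ∧ l ≠ [] ∧
      Rch p N ((a1, pk μ none), List.replicate σ uu ++ r.map Sum.inl, R)
        ((e0, lk (μ, decide (R % 2 = 1), decide (R / 2 = 0), r.head?.join)),
          List.replicate σ uu ++ (l.map tmp ++ r.map Sum.inl), 0) := by
  obtain ⟨u1, -, -, u4⟩ := hd_facts r hr
  obtain ⟨R1, d, rfl⟩ : ∃ (R1 : ℕ) (d : Bool), R = 2 * R1 + d.toNat := by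
    rcases Nat.even_or_odd' R with ⟨R1, e | e⟩
    · exact ⟨R1, false, e⟩
    · exact ⟨R1, true, e⟩
  have e1 : decide ((2 * R1 + d.toNat) % 2 = 1) = d := by cases d <;> simp
  have e2 : (2 * R1 + d.toNat) / 2 = R1 := by
    cases d
    · simp
    · simp only [Bool.toNat_true]; omega
  rw [e1, e2]
  have h1 := room_le h (show R1 ≤ _ by omega)
  obtain ⟨l, hl, l0, r2⟩ := carryOut (p := p) (μ, d, decide (R1 = 0), r.head?.join) σ R1 d _ u1 h1
  refine ⟨l, hl, l0, (absorb _ _ h).trans (stp (q' := (e5, pk μ r.head?.join)) rfl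
    (by simp only [dl, u1, act, u4]; rfl) h ((extract (pk μ r.head?.join) σ _ h).trans
      (stp (q' := (e8, co (μ, d, false, r.head?.join) d)) (R' := R1)
        (s' := List.replicate σ uu ++ r.map Sum.inl) rfl ?_ (by have := room_N h1; omega)
        (stp rfl rfl (by have := room_N h1; omega) r2))))⟩
  simp only [dl, f7]
  rw [half_app]
  cases d <;> rfl

theorem finish (μ : K) (mo : MOp G) (ro : ROp) (σ R : ℕ) (r : List (Option G))
    (hr : r.head? ≠ some none) (h : (2 * R + 1) * 2 ^ σ ≤ N) :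
    Rch p N ((a1, bk (μ, mo, ro) false), List.replicate σ uu ++ r.map Sum.inl, R)
      ((a1, pk μ none), (mo.app σ r).map Sum.inl, ro.app R) := by
  obtain ⟨u1, -, u3, -⟩ := hd_facts r hr
  have h2 := room_N h
  have reg : ∀ s : List (Gm G), Rch p N ((e8, fin (μ, mo, ro)), s, R)
      ((a1, pk μ none), s, ro.app R) := fun s => by
    rcases ro with _ | _ | b
    · exact stp (R' := R) rfl rfl (by omega) ReflTransGen.refl
    · exact stp (R' := R / 2) rfl (by simp [dl, f8, regI, Ins.app]) (by omega) ReflTransGen.refl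
    · cases b
      · exact stp (R' := 2 * R) rfl rfl (by omega)
          (stp (R' := 2 * R) rfl rfl (by omega) ReflTransGen.refl)
      · exact stp (R' := 2 * R) rfl rfl (by omega)
          (stp (R' := 2 * R + 1) rfl rfl (by omega) ReflTransGen.refl)
  refine (absorb _ _ h).trans ?_
  rcases mo with _ | _ | g | g
  · refine stp rfl (by simp only [dl, u1, act, u3]; rfl) h ((extract _ σ _ h).trans
      (stp (R' := R) rfl rfl (by omega) ?_))
    simpa [MOp.app, sym, uu] using reg _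
  · refine stp rfl (by simp only [dl, u1, act, u3]; rfl) h ((extract _ σ _ h).trans
      (stp (R' := R) rfl rfl (by omega) ?_))
    simpa [MOp.app, sym, uu] using reg _
  · refine stp rfl (by simp only [dl, u1, act, u3]; rfl) h ((extract _ σ _ h).trans
      (stp (R' := R) rfl rfl (by omega) ?_))
    simpa [MOp.app, sym, uu] using reg _
  · refine stp rfl (by simp only [dl, u1, act, u3]; rfl) h ((extract _ σ _ h).trans
      (stp (R' := R) rfl rfl (by omega) ?_))
    simpa [MOp.app, sym, uu] using reg _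

theorem fin_M [Finite G] : Finite (MOp G) :=
  Finite.of_surjective (fun x : Bool ⊕ G ⊕ G => x.elim (fun b => if b then MOp.keep else MOp.pop)
    fun y => y.elim MOp.push MOp.frz) fun m => by
      rcases m with _ | _ | g | g
      exacts [⟨Sum.inl true, rfl⟩, ⟨Sum.inl false, rfl⟩, ⟨Sum.inr (Sum.inl g), rfl⟩,
        ⟨Sum.inr (Sum.inr g), rfl⟩]

theorem fin_R : Finite ROp :=
  Finite.of_surjective (fun x : Bool ⊕ Bool => x.elim (fun b => if b then ROp.keep else ROp.pop)
    ROp.push) fun m => by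
      rcases m with _ | _ | g
      exacts [⟨Sum.inl true, rfl⟩, ⟨Sum.inl false, rfl⟩, ⟨Sum.inr g, rfl⟩]

@[reducible] def ftPh : Fintype Ph := derive_fintype% _

@[reducible] def ftCx (W : ℕ) [Fintype K] [Fintype G] [Fintype (MOp G)] [Fintype ROp] :
    Fintype (Cx K G W) := derive_fintype% _

theorem fin_St [Finite K] [Finite G] (p : Par K G) : Finite (St p) := by
  have := fin_M (G := G)
  have := fin_R
  have := Fintype.ofFinite K
  have := Fintype.ofFinite G
  have := Fintype.ofFinite (MOp G)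
  have := Fintype.ofFinite ROp
  have := ftPh
  have := ftCx (K := K) (G := G) p.W
  infer_instance

theorem fin_Out [Finite K] [Finite G] : Finite (Act K G ⊕ Bool) := by
  have := fin_M (G := G)
  have := fin_R
  infer_instance

def oPart : (K × ℕ × MOp G × ROp) ⊕ Bool → Act K G ⊕ Bool
  | Sum.inl x => Sum.inl (x.1, x.2.2)
  | Sum.inr b => Sum.inr b

def sPart : (K × ℕ × MOp G × ROp) ⊕ Bool → ℕ
  | Sum.inl x => x.2.1
  | Sum.inr _ => 0

theorem ex_inj (α : Type) [Finite α] [Nonempty α] : ∃ (M : ℕ) (ix : α → ℕ) (dc : ℕ → α),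
    ∀ a, ix a < M ∧ dc (ix a) = a := by
  refine ⟨Nat.card α, fun a => (Finite.equivFin α a).val, Function.invFun fun a =>
    (Finite.equivFin α a).val, fun a => ⟨Fin.is_lt _, ?_⟩⟩
  exact Function.leftInverse_invFun (Fin.val_injective.comp (Finite.equivFin α).injective) a

end Itp

open Itp Itp.Ph Itp.Cx in
/-- ROW INT (paper section 1): a fixed A2 machine interprets every table, read from `v_2(N)`. -/
theorem interp (K G : Type) [Finite K] [Finite G] (k0 : K) (z : G) :
    ∃ (Q Γ : Type) (_ : Finite Q) (_ : Finite Γ) (P : A2 Q Γ),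
      ∀ (T : Table K G) (smax B : ℕ), ∃ S : ℕ, B ≤ S ∧ ∀ (k : ℕ) (b : Bool),
        BHalts T smax ((2 * k + 1) * 2 ^ S) (k0, List.replicate S (some z), 0) b →
          P.Halts ((2 * k + 1) * 2 ^ S) b := by
  have : Nonempty K := ⟨k0⟩
  have := fin_Out (K := K) (G := G)
  obtain ⟨M, ix, ixi, hix⟩ := ex_inj (Inp K G)
  obtain ⟨M', enc, dc, henc⟩ := ex_inj (Act K G ⊕ Bool)
  obtain ⟨p, hp⟩ : ∃ p : Par K G, p = ⟨k0, z, M, 2 * M + M', ix, dc⟩ := ⟨_, rfl⟩
  have p1 : p.M = M := by rw [hp]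
  have p2 : p.W = 2 * M + M' := by rw [hp]
  have p3 : p.ix = ix := by rw [hp]
  have p4 : p.dc = dc := by rw [hp]
  have p5 : p.k0 = k0 := by rw [hp]
  have p6 : p.z = z := by rw [hp]
  refine ⟨St p, Gm G, fin_St p, inferInstance, mach p, fun T smax B => ?_⟩
  obtain ⟨f, hf⟩ : ∃ f : ℕ → ℕ, ∀ (σ : ℕ) (κ : Inp K G),
      f (2 * M * σ + 2 * ix κ) = enc (oPart (T κ.1 σ κ.2.1 κ.2.2.1 κ.2.2.2)) ∧
      f (2 * M * σ + 2 * ix κ + 1) = sPart (T κ.1 σ κ.2.1 κ.2.2.1 κ.2.2.2) := by
    refine ⟨fun i => (fun o => if i % 2 = 0 then enc (oPart o) else sPart o)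
      ((fun κ : Inp K G => T κ.1 (i / 2 / M) κ.2.1 κ.2.2.1 κ.2.2.2) (ixi (i / 2 % M))),
      fun σ κ => ?_⟩
    obtain ⟨a1, a2⟩ := hix κ
    have b0 : 2 * M * σ = 2 * (M * σ) := by ring
    have b1 : (2 * M * σ + 2 * ix κ) / 2 = M * σ + ix κ := by omega
    have b2 : (2 * M * σ + 2 * ix κ + 1) / 2 = M * σ + ix κ := by omega
    have b3 : (2 * M * σ + 2 * ix κ) % 2 = 0 := by omega
    have b4 : ¬ (2 * M * σ + 2 * ix κ + 1) % 2 = 0 := by omega
    have b5 : (M * σ + ix κ) / M = σ := by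
      rw [Nat.mul_add_div (by omega), Nat.div_eq_of_lt a1, add_zero]
    have b6 : (M * σ + ix κ) % M = ix κ := by rw [Nat.mul_add_mod, Nat.mod_eq_of_lt a1]
    simp only [b1, b2, b3, b4, b5, b6, a2, if_true, if_false, and_self]
  obtain ⟨V, v1, v2, hV⟩ := ex_code B (2 * M * smax) f
  refine ⟨V 0, v1, fun k b hb => ?_⟩
  generalize hN : (2 * k + 1) * 2 ^ V 0 = N at hb ⊢
  have hS : V 0 ≤ N := by
    rw [← hN]
    exact le_trans Nat.lt_two_pow_self.le (Nat.le_mul_of_pos_left _ (by omega))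
  have hbd : ∀ i, i ≤ 2 * M * smax → V i ≤ N := fun i hi => (v2 i hi).trans hS
  have look : ∀ (μ : K) (σ R : ℕ) (r : List (Option G)), r.head? ≠ some none → σ < smax →
      (2 * R + 1) * 2 ^ σ ≤ N → ∃ (l : List Bool) (x : ℕ), back l 0 = R ∧
        ones (sPart (T.at μ σ r R)) x ≤ N ∧
        Rch p N ((a1, pk μ none), (List.replicate σ none ++ r).map Sum.inl, R)
          ((e7, dec (oPart (T.at μ σ r R))), l.map tmp ++ r.map Sum.inl,
            ones (sPart (T.at μ σ r R)) x) := fun μ σ R r hr hσ h => by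
    obtain ⟨l, hl, l0, r1⟩ := front (p := p) μ σ R r hr h
    obtain ⟨d, l, rfl⟩ := List.exists_cons_of_ne_nil l0
    obtain ⟨κ, hκ⟩ : ∃ κ : Inp K G, κ = (μ, decide (R % 2 = 1), decide (R / 2 = 0), r.head?.join) :=
      ⟨_, rfl⟩
    have e0 : T κ.1 σ κ.2.1 κ.2.2.1 κ.2.2.2 = T.at μ σ r R := by rw [hκ]; rfl
    obtain ⟨f1, f2⟩ := hf σ κ
    rw [e0] at f1 f2
    rw [← hκ] at r1
    have a1 := (hix κ).1
    have m1 : 2 * M * (σ + 1) ≤ 2 * M * smax := Nat.mul_le_mul_left _ hσ
    have r2 := lookup (p := p) hV hbd (by omega) κ (by rw [p1, p3]; exact a1)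
      ((d :: l).map tmp ++ r.map Sum.inl) rfl rfl k σ (by rw [p1]; exact m1)
      (by rw [p1, p2, p3, f1]; have := (henc (oPart (T.at μ σ r R))).1; omega) hN.symm
    rw [p1, p3, p4, f1, (henc _).2] at r2
    rw [mul_add, mul_one] at m1
    have b1 := hbd (2 * M * σ + 2 * ix κ + 1) (by omega)
    rw [hV (2 * M * σ + 2 * ix κ + 1) (by omega), f2] at b1 r2
    refine ⟨d :: l, _, hl, b1, ?_⟩
    rw [List.map_append, List.map_replicate]
    exact r1.trans r2
  have sim : ∀ c c' : K × List (Option G) × ℕ, ReflTransGen (BStep T smax N) c c' →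
      Rch p N ((a1, pk c.1 none), c.2.1.map Sum.inl, c.2.2)
        ((a1, pk c'.1 none), c'.2.1.map Sum.inl, c'.2.2) := fun c c' h => by
    induction h with
    | refl => exact ReflTransGen.refl
    | tail _ h ih =>
      obtain ⟨σ, r, μ', σ', mo, ro, h1, h2, h3, h4, h5, h6, rfl⟩ := h
      obtain ⟨l, x, hl, b1, r1⟩ := look _ σ _ r h2 h3 h4
      rw [h6] at b1 r1
      rw [← h1] at r1
      have r2 := carryBack (p := p) (N := N) (μ', mo, ro) σ' (r.map Sum.inl) l 0 (by rw [hl]; exact h5)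
      rw [hl] at r2
      exact ih.trans (r1.trans (stp rfl rfl b1 ((readS _ _ _ _ b1).trans
        (r2.trans (finish μ' mo ro σ' _ r h2 h5)))))
  obtain ⟨μ, σ, r, R, h1, h2, h3, h4, h5⟩ := hb
  obtain ⟨l, x, -, -, r1⟩ := look μ σ R r h2 h3 h4
  rw [h5] at r1
  have r0 := extract (p := p) (N := N) ini (R := k) (V 0) [] hN.le
  rw [hN] at r0
  have r2 := sim _ _ h1
  refine ⟨_, stp (R' := N) rfl rfl le_rfl (r0.trans (stp (R' := 0) rfl rfl (Nat.zero_le _)
    (ReflTransGen.trans ?_ r1))), rfl⟩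
  simpa [sym, p5, p6] using r2

end Pool.Agent.MP_47ff19_lc.H6P
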