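import Pool.Agent.MP_47ff19_lc.H6P.PBc

namespace Pool.Agent.MP_47ff19_lc.H6P

open Relation

namespace Pha

/-! ### forms -/

def con (c : ℚ) : Aff := (0, 0, c)

theorem ev_con (c N X : ℚ) : ev (con c) N X = c := by simp [ev, con]

theorem ev_add (τ τ' : Aff) (N X : ℚ) : ev (τ + τ') N X = ev τ N X + ev τ' N X := by
  simp only [ev, Prod.fst_add, Prod.snd_add]; ring

theorem ev_smul (c : ℚ) (τ : Aff) (N X : ℚ) : ev (c • τ) N X = c * ev τ N X := by
  simp only [ev, Prod.smul_fst, Prod.smul_snd, smul_eq_mul]; ring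

theorem pb_nat (τ : Aff) : PB fun N X => ∃ k : ℕ, ev τ N X = k := by
  refine ((PB.int τ).and (PB.le τ)).congr ?_
  intro N X
  constructor
  · rintro ⟨⟨z, hz⟩, h0⟩
    have hz0 : 0 ≤ z := by
      rw [hz] at h0; exact_mod_cast h0
    refine ⟨z.toNat, ?_⟩
    rw [hz]
    have : ((z.toNat : ℕ) : ℤ) = z := Int.toNat_of_nonneg hz0
    exact_mod_cast this.symm
  · rintro ⟨k, hk⟩
    exact ⟨⟨k, by rw [hk]; simp⟩, by rw [hk]; positivity⟩

theorem mp_dep {Q β : Type} {f : ℚ → Q × ℚ → β} (h : Meas f) {S : β → ℚ → ℚ → Prop}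
    (hS : ∀ b, PB (S b)) : MP fun N c => S (f N c) N c.2 := by
  obtain ⟨⟨s, hs⟩, hm⟩ := h
  intro q
  refine (PB.ex s (P := fun b N X => f N (q, X) = b ∧ S b N X)
    (fun b _ => (hm b q).and (hS b))).congr ?_
  intro N X
  constructor
  · rintro ⟨b, _, e, hb⟩
    simp only [e]; exact hb
  · intro hp
    exact ⟨_, hs N (q, X), rfl, hp⟩

/-! ### eventually linear sequences -/

def EvLin (s p : ℕ) (D : ℕ → ℤ) (A : ℤ) : Prop :=
  ∀ r k : ℕ, (k = 0 ∨ s ≤ r) → D (r + p * k) = D r + k * A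

theorem cand {s p : ℕ} (hp : 0 < p) {D : ℕ → ℤ} {A : ℤ} (hD : EvLin s p D A) (w : Aff) :
    ∃ K : Finset (ℕ × Aff), ∀ (N X : ℚ) (t : ℕ), ev w N X + D t = 0 →
      (∀ t' < t, ev w N X + D t' ≠ 0) →
      ∃ z ∈ K, ∃ k : ℕ, ev z.2 N X = k ∧ (k = 0 ∨ s ≤ z.1) ∧ t = z.1 + p * k := by
  classical
  refine ⟨(Finset.range (s + p)).image (fun r => (r, con 0)) ∪
    (Finset.range (s + p)).image (fun r => (r, (-(1 / (A : ℚ))) • (w + con (D r)))), ?_⟩
  intro N X t h0 hmin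
  by_cases ht : t < s + p
  · refine ⟨(t, con 0), ?_, 0, by simp [ev_con], Or.inl rfl, by simp⟩
    exact Finset.mem_union_left _ (Finset.mem_image.2 ⟨t, Finset.mem_range.2 ht, rfl⟩)
  · have hm : (t - s) % p < p := Nat.mod_lt _ hp
    have hd : (t - s) % p + p * ((t - s) / p) = t - s := Nat.mod_add_div _ _
    generalize (t - s) % p = m at hm hd
    generalize (t - s) / p = k at hd
    have e : t = (s + m) + p * k := by omega
    have hl := hD (s + m) k (Or.inr (by omega))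
    rw [← e] at hl
    have hA : A ≠ 0 := by
      intro hA
      apply hmin (s + m) (by omega)
      rw [hl, hA] at h0
      simpa using h0
    have hA' : (A : ℚ) ≠ 0 := by exact_mod_cast hA
    refine ⟨(s + m, (-(1 / (A : ℚ))) • (w + con (D (s + m)))), ?_, k, ?_, Or.inr (by simp), e⟩
    · exact Finset.mem_union_right _
        (Finset.mem_image.2 ⟨s + m, Finset.mem_range.2 (by omega), rfl⟩)
    · rw [hl] at h0
      push_cast at h0
      simp only [ev_smul, ev_add, ev_con]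
      field_simp
      linarith

theorem hit {s p : ℕ} (hp : 0 < p) {D : ℕ → ℤ} {A : ℤ} (hD : EvLin s p D A) (w T : Aff) :
    PB fun N X => ∃ t : ℕ, (t : ℚ) < ev T N X ∧ ev w N X + D t = 0 := by
  classical
  obtain ⟨K, hK⟩ := cand hp hD w
  refine (PB.ex K (P := fun z N X => (∃ k : ℕ, ev z.2 N X = k) ∧
      ((ev z.2 N X = ev (con 0) N X ∨ s ≤ z.1) ∧
      (ev (con z.1 + (p : ℚ) • z.2) N X < ev T N X ∧
      ev (w + con (D z.1) + (A : ℚ) • z.2) N X = ev (con 0) N X)))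
    (fun z _ => (pb_nat _).and (((PB.eq2 _ _).or (PB.const _)).and
      ((PB.lt2 _ _).and (PB.eq2 _ _))))).congr ?_
  intro N X
  simp only [ev_add, ev_smul, ev_con]
  constructor
  · rintro ⟨z, _, ⟨k, hk⟩, h1, h2, h3⟩
    rw [hk] at h1 h2 h3
    have h1' : k = 0 ∨ s ≤ z.1 := h1.imp (fun h => by exact_mod_cast h) id
    refine ⟨z.1 + p * k, by push_cast; exact h2, ?_⟩
    rw [hD _ _ h1']
    push_cast
    linarith
  · rintro ⟨t, ht, h0⟩
    have hex : ∃ t : ℕ, ev w N X + D t = 0 := ⟨t, h0⟩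
    have hle : Nat.find hex ≤ t := Nat.find_min' hex h0
    obtain ⟨z, hz, k, hk, h1, e⟩ := hK N X (Nat.find hex) (Nat.find_spec hex)
      (fun t' h' => Nat.find_min hex h')
    have hs := Nat.find_spec hex
    rw [e] at hs hle
    rw [hD _ _ h1] at hs
    push_cast at hs
    have hle' : ((z.1 + p * k : ℕ) : ℚ) ≤ t := by exact_mod_cast hle
    push_cast at hle'
    refine ⟨z, hz, ⟨k, hk⟩, ?_, ?_, ?_⟩
    · rw [hk]; exact h1.imp (fun h => by simp [h]) id
    · rw [hk]; linarith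
    · rw [hk]; linarith

/-- partial sums -/
def psum (d : ℕ → ℤ) : ℕ → ℤ
  | 0 => 0
  | t + 1 => psum d t + d t

theorem evlin_psum {s p : ℕ} {d : ℕ → ℤ} (h : ∀ t, s ≤ t → d (t + p) = d t) :
    EvLin s p (psum d) (psum d (s + p) - psum d s) := by
  have h1 : ∀ j, psum d (s + j + p) = psum d (s + j) + (psum d (s + p) - psum d s) := by
    intro j
    induction j with
    | zero => simp
    | succ j ih =>
      have e1 : s + (j + 1) + p = (s + j + p) + 1 := by omega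
      have e2 : s + (j + 1) = (s + j) + 1 := by omega
      rw [e1, e2, psum, psum, ih, h (s + j) (by omega)]
      ring
  intro r k hk
  rcases hk with rfl | hr
  · simp
  · induction k with
    | zero => simp
    | succ k ih =>
      have e : r + p * (k + 1) = s + (r - s + p * k) + p := by
        rw [Nat.mul_succ]; omega
      have e' : s + (r - s + p * k) = r + p * k := by omega
      rw [e, h1, e', ih]
      push_cast
      ring

theorem evper {Q : Type} [Finite Q] (f : Q → Q) :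
    ∃ s p : ℕ, 0 < p ∧ ∀ t, s ≤ t → f^[t + p] = f^[t] := by
  have key : ∀ a b : ℕ, a < b → f^[a] = f^[b] →
      ∃ s p : ℕ, 0 < p ∧ ∀ t, s ≤ t → f^[t + p] = f^[t] := by
    intro a b hab e
    refine ⟨a, b - a, by omega, fun t ht => ?_⟩
    have e1 : t + (b - a) = (t - a) + b := by omega
    have e2 : t = (t - a) + a := by omega
    rw [e1, Function.iterate_add, ← e, ← Function.iterate_add, ← e2]
  obtain ⟨a, b, hne, e⟩ := Finite.exists_ne_map_eq_of_infinite (fun n : ℕ => f^[n])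
  rcases Nat.lt_or_gt_of_ne hne with h | h
  · exact key a b h e
  · exact key b a h e.symm

theorem iter_per {Q : Type} {f : Q → Q} {s p : ℕ} (h : ∀ t, s ≤ t → f^[t + p] = f^[t])
    (r k : ℕ) (hk : k = 0 ∨ s ≤ r) : f^[r + p * k] = f^[r] := by
  rcases hk with rfl | hr
  · simp
  · induction k with
    | zero => simp
    | succ k ih =>
      have e : r + p * (k + 1) = (r + p * k) + p := by rw [Nat.mul_succ]; omega
      rw [e, h _ (by omega), ih]

/-! ### boundary types -/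

inductive Ty where
  | x0 : Ty
  | x1 : Ty
  | y0 : Ty
  | y1 : Ty
  | xy : Ty

theorem ty_finite : Finite Ty := by
  refine Finite.of_surjective
    (fun i : Fin 5 => ([Ty.x0, Ty.x1, Ty.y0, Ty.y1, Ty.xy].getD i Ty.x0)) ?_
  intro t
  cases t
  · exact ⟨0, rfl⟩
  · exact ⟨1, rfl⟩
  · exact ⟨2, rfl⟩
  · exact ⟨3, rfl⟩
  · exact ⟨4, rfl⟩

def ca : Ty → ℤ
  | Ty.x0 => 1
  | Ty.x1 => 1
  | Ty.y0 => 0
  | Ty.y1 => 0
  | Ty.xy => 1

def cb : Ty → ℤ
  | Ty.x0 => 0
  | Ty.x1 => 0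
  | Ty.y0 => 1
  | Ty.y1 => 1
  | Ty.xy => -1

def cc : Ty → ℤ
  | Ty.x0 => 0
  | Ty.x1 => -1
  | Ty.y0 => 0
  | Ty.y1 => -1
  | Ty.xy => 0

def bd (i : Ty) (N x y : ℚ) : ℚ := ca i * x + cb i * y + cc i * (N + 1)

def wf (i : Ty) (ξ η : Aff) : Aff :=
  (ca i : ℚ) • ξ + (cb i : ℚ) • η + (cc i : ℚ) • ((0, 1, 1) : Aff)

theorem ev_wf (i : Ty) (ξ η : Aff) (N X : ℚ) :
    ev (wf i ξ η) N X = bd i N (ev ξ N X) (ev η N X) := by
  simp only [wf, ev_add, ev_smul, bd]
  simp [ev]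

def xf : Ty → Aff
  | Ty.x0 => (0, 0, 0)
  | Ty.x1 => (0, 1, 1)
  | Ty.y0 => (1, 0, 0)
  | Ty.y1 => (1, 0, 0)
  | Ty.xy => (1, 0, 0)

def yf : Ty → Aff
  | Ty.x0 => (1, 0, 0)
  | Ty.x1 => (1, 0, 0)
  | Ty.y0 => (0, 0, 0)
  | Ty.y1 => (0, 1, 1)
  | Ty.xy => (1, 0, 0)

def co {α : Type} : Ty → α → α → α
  | Ty.x0, _, y => y
  | Ty.x1, _, y => y
  | Ty.y0, x, _ => x
  | Ty.y1, x, _ => x
  | Ty.xy, x, _ => x

theorem ev_co (i : Ty) (ξ η : Aff) (N X : ℚ) :
    ev (co i ξ η) N X = co i (ev ξ N X) (ev η N X) := by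
  cases i <;> rfl

theorem enc_co (i : Ty) (N x y : ℚ) (h : bd i N x y = 0) :
    ev (xf i) N (co i x y) = x ∧ ev (yf i) N (co i x y) = y := by
  cases i <;> simp [bd, ca, cb, cc] at h <;> simp [ev, xf, yf, co] <;> linarith

theorem coord (i : Ty) (N X : ℚ) : X = ev (xf i) N X ∨ X = ev (yf i) N X := by
  cases i <;> simp [ev, xf, yf]

/-! ### one step -/

def sy (a0 a1 : Bool) : Sym Unit := if a0 then Sym.lft else if a1 then Sym.rgt else Sym.ltr ()

def mz (a0 a1 : Bool) : SignType → ℤ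
  | SignType.neg => if a0 then 0 else -1
  | SignType.zero => 0
  | SignType.pos => if a1 then 0 else 1

theorem tape_sy (N x : ℕ) (hx : x ≤ N + 1) :
    tape (un N) x = sy (decide (x = 0)) (decide (x = N + 1)) := by
  rw [tape_un]
  by_cases h0 : x = 0
  · simp [sy, h0]
  · by_cases h1 : x = N + 1
    · simp [sy, h1]
    · have : x ≤ N := by omega
      simp [sy, h0, h1, this]

theorem mv_mz (N x : ℕ) (hx : x ≤ N + 1) (d : SignType) :
    (mv N x d : ℚ) = x + mz (decide (x = 0)) (decide (x = N + 1)) d := by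
  have : (mv N x d : ℤ) = x + mz (decide (x = 0)) (decide (x = N + 1)) d := by
    cases d
    · simp [mv, mz]
    · by_cases h0 : x = 0
      · simp [mv, mz, h0]
      · simp only [mv, mz, h0, decide_false]
        simp
        omega
    · by_cases h1 : x = N + 1
      · simp [mv, mz, h1]
      · simp only [mv, mz, h1, decide_false]
        simp
        omega
  exact_mod_cast this

theorem mv_le (N x : ℕ) (hx : x ≤ N + 1) (d : SignType) : mv N x d ≤ N + 1 := by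
  cases d <;> simp only [mv] <;> omega

variable {Q : Type} (M : TwoHead Unit Q)

/-- the move as a function of the view -/
def mov (q : Q) (v : Ty → Bool) : Q × ℤ × ℤ :=
  ((M.δ q (sy (v Ty.x0) (v Ty.x1)) (sy (v Ty.y0) (v Ty.y1)) (v Ty.xy)).1,
    mz (v Ty.x0) (v Ty.x1) (M.δ q (sy (v Ty.x0) (v Ty.x1)) (sy (v Ty.y0) (v Ty.y1)) (v Ty.xy)).2.1,
    mz (v Ty.y0) (v Ty.y1) (M.δ q (sy (v Ty.x0) (v Ty.x1)) (sy (v Ty.y0) (v Ty.y1)) (v Ty.xy)).2.2)

def vw (N x y : ℚ) : Ty → Bool := fun i => decide (bd i N x y = 0)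

def InR (N : ℕ) (c : Q × ℕ × ℕ) : Prop := c.2.1 ≤ N + 1 ∧ c.2.2 ≤ N + 1

theorem inR_step (N : ℕ) (c : Q × ℕ × ℕ) (h : InR N c) : InR N (M.step (un N) c) := by
  constructor
  · simp only [TwoHead.step, List.length_replicate]; exact mv_le _ _ h.1 _
  · simp only [TwoHead.step, List.length_replicate]; exact mv_le _ _ h.2 _

theorem inR_iter (N : ℕ) (c : Q × ℕ × ℕ) (h : InR N c) (t : ℕ) :
    InR N ((M.step (un N))^[t] c) := by
  induction t with
  | zero => exact h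
  | succ t ih => rw [Function.iterate_succ_apply']; exact inR_step M N _ ih

theorem step_mov (N : ℕ) (c : Q × ℕ × ℕ) (h : InR N c) :
    (M.step (un N) c).1 = (mov M c.1 (vw N c.2.1 c.2.2)).1 ∧
    ((M.step (un N) c).2.1 : ℚ) = c.2.1 + (mov M c.1 (vw N c.2.1 c.2.2)).2.1 ∧
    ((M.step (un N) c).2.2 : ℚ) = c.2.2 + (mov M c.1 (vw N c.2.1 c.2.2)).2.2 := by
  obtain ⟨q, x, y⟩ := c
  obtain ⟨hx, hy⟩ := h
  simp only at hx hy
  have v1 : vw N x y Ty.x0 = decide (x = 0) := by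
    simp [vw, bd, ca, cb, cc]
  have v2 : vw N x y Ty.x1 = decide (x = N + 1) := by
    refine decide_eq_decide.2 ?_
    simp only [bd, ca, cb, cc]
    push_cast
    constructor
    · intro h
      have : (x : ℚ) = ((N + 1 : ℕ) : ℚ) := by push_cast; linarith
      exact_mod_cast this
    · rintro rfl; push_cast; ring
  have v3 : vw N x y Ty.y0 = decide (y = 0) := by
    simp [vw, bd, ca, cb, cc]
  have v4 : vw N x y Ty.y1 = decide (y = N + 1) := by
    refine decide_eq_decide.2 ?_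
    simp only [bd, ca, cb, cc]
    push_cast
    constructor
    · intro h
      have : (y : ℚ) = ((N + 1 : ℕ) : ℚ) := by push_cast; linarith
      exact_mod_cast this
    · rintro rfl; push_cast; ring
  have v5 : vw N x y Ty.xy = decide (x = y) := by
    refine decide_eq_decide.2 ?_
    simp only [bd, ca, cb, cc]
    push_cast
    constructor
    · intro h
      have : (x : ℚ) = (y : ℚ) := by linarith
      exact_mod_cast this
    · rintro rfl; ring
  simp only [TwoHead.step, mov, v1, v2, v3, v4, v5, List.length_replicate, tape_sy N x hx,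
    tape_sy N y hy]
  exact ⟨trivial, mv_mz N x hx _, mv_mz N y hy _⟩

/-! ### the free run -/

def ff (q : Q) : Q := (mov M q (fun _ => false)).1

def Dx (q : Q) : ℕ → ℤ := psum fun t => (mov M ((ff M)^[t] q) (fun _ => false)).2.1

def Dy (q : Q) : ℕ → ℤ := psum fun t => (mov M ((ff M)^[t] q) (fun _ => false)).2.2

theorem free_run (N : ℕ) (c : Q × ℕ × ℕ) (h : InR N c) (t : ℕ)
    (hin : ∀ t' < t, ∀ i, bd i N (c.2.1 + Dx M c.1 t') (c.2.2 + Dy M c.1 t') ≠ 0) :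
    ((M.step (un N))^[t] c).1 = (ff M)^[t] c.1 ∧
    (((M.step (un N))^[t] c).2.1 : ℚ) = c.2.1 + Dx M c.1 t ∧
    (((M.step (un N))^[t] c).2.2 : ℚ) = c.2.2 + Dy M c.1 t := by
  induction t with
  | zero => simp [Dx, Dy, psum]
  | succ t ih =>
    obtain ⟨e1, e2, e3⟩ := ih (fun t' ht' => hin t' (by omega))
    obtain ⟨s1, s2, s3⟩ := step_mov M N _ (inR_iter M N c h t)
    have hv : vw N (((M.step (un N))^[t] c).2.1 : ℚ) (((M.step (un N))^[t] c).2.2 : ℚ)
        = fun _ => false := by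
      funext i
      rw [e2, e3]
      simp only [vw, decide_eq_false_iff_not]
      exact hin t (by omega) i
    rw [hv, e1] at s1 s2 s3
    rw [Function.iterate_succ_apply', Function.iterate_succ_apply']
    refine ⟨s1, ?_, ?_⟩
    · rw [s2, e2]; simp only [Dx, psum]; push_cast; ring
    · rw [s3, e3]; simp only [Dy, psum]; push_cast; ring

/-- the boundary functional `i` along the free run from the data `δ` -/
def B (δ : Q × Aff × Aff) (i : Ty) (t : ℕ) (N X : ℚ) : ℚ :=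
  bd i N (ev δ.2.1 N X + Dx M δ.1 t) (ev δ.2.2 N X + Dy M δ.1 t)

def Di (q : Q) (i : Ty) (t : ℕ) : ℤ := ca i * Dx M q t + cb i * Dy M q t

theorem B_eq (δ : Q × Aff × Aff) (i : Ty) (t : ℕ) (N X : ℚ) :
    B M δ i t N X = ev (wf i δ.2.1 δ.2.2) N X + Di M δ.1 i t := by
  rw [ev_wf]; simp only [B, bd, Di]; push_cast; ring

def Ax (s p : ℕ) (q : Q) : ℤ := Dx M q (s + p) - Dx M q s

def Ay (s p : ℕ) (q : Q) : ℤ := Dy M q (s + p) - Dy M q s

theorem evx {s p : ℕ} (h : ∀ t, s ≤ t → (ff M)^[t + p] = (ff M)^[t]) (q : Q) :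
    EvLin s p (Dx M q) (Ax M s p q) :=
  evlin_psum (fun t ht => by rw [h t ht])

theorem evy {s p : ℕ} (h : ∀ t, s ≤ t → (ff M)^[t + p] = (ff M)^[t]) (q : Q) :
    EvLin s p (Dy M q) (Ay M s p q) :=
  evlin_psum (fun t ht => by rw [h t ht])

theorem evi {s p : ℕ} (h : ∀ t, s ≤ t → (ff M)^[t + p] = (ff M)^[t]) (q : Q) (i : Ty) :
    EvLin s p (Di M q i) (ca i * Ax M s p q + cb i * Ay M s p q) := by
  intro r k hk
  simp only [Di]
  rw [evx M h q r k hk, evy M h q r k hk]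
  ring

/-- `b = (i, r, κ)` describes the first exit -/
def G (s p : ℕ) (δ : Q × Aff × Aff) (b : Ty × ℕ × Aff) (N X : ℚ) : Prop :=
  ∃ k : ℕ, ev b.2.2 N X = k ∧ (k = 0 ∨ s ≤ b.2.1) ∧ B M δ b.1 (b.2.1 + p * k) N X = 0 ∧
    ∀ t' < b.2.1 + p * k, ∀ i, B M δ i t' N X ≠ 0

theorem pb_G {s p : ℕ} (hp : 0 < p) (h : ∀ t, s ≤ t → (ff M)^[t + p] = (ff M)^[t])
    (δ : Q × Aff × Aff) (b : Ty × ℕ × Aff) : PB (G M s p δ b) := by
  have := ty_finite
  have := Fintype.ofFinite Ty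
  obtain ⟨i, r, κ⟩ := b
  have h4 := PB.all (Finset.univ : Finset Ty)
    (P := fun i' N X => ¬ ∃ t : ℕ, (t : ℚ) < ev (con r + (p : ℚ) • κ) N X ∧
      ev (wf i' δ.2.1 δ.2.2) N X + Di M δ.1 i' t = 0)
    (fun i' _ => (hit hp (evi M h δ.1 i') _ _).not)
  refine ((pb_nat κ).and (((PB.eq2 κ (con 0)).or (PB.const (s ≤ r))).and
    ((PB.eq2 (wf i δ.2.1 δ.2.2 + con (Di M δ.1 i r) +
      ((ca i * Ax M s p δ.1 + cb i * Ay M s p δ.1 : ℤ) : ℚ) • κ) (con 0)).and h4))).congr ?_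
  intro N X
  simp only [G, B_eq, ev_add, ev_smul, ev_con]
  constructor
  · rintro ⟨⟨k, hk⟩, h1, h2, h3⟩
    rw [hk] at h1 h2 h3
    have h1' : k = 0 ∨ s ≤ r := h1.imp (fun h => by exact_mod_cast h) id
    refine ⟨k, hk, h1', ?_, ?_⟩
    · rw [evi M h δ.1 i r k h1']
      push_cast at h2 ⊢
      linarith
    · intro t' ht' i' h0
      refine h3 i' (Finset.mem_univ _) ⟨t', ?_, h0⟩
      exact_mod_cast ht'
  · rintro ⟨k, hk, h1, h2, h3⟩
    rw [evi M h δ.1 i r k h1] at h2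
    rw [hk]
    refine ⟨⟨k, rfl⟩, h1.imp (fun h => by simp [h]) id, ?_, ?_⟩
    · push_cast at h2 ⊢
      linarith
    · rintro i' _ ⟨t', ht', h0⟩
      refine h3 t' ?_ i' h0
      exact_mod_cast ht'

theorem ex_G {s p : ℕ} (hp : 0 < p) (h : ∀ t, s ≤ t → (ff M)^[t + p] = (ff M)^[t])
    (δ : Q × Aff × Aff) : ∃ K : Finset (Ty × ℕ × Aff), ∀ N X : ℚ,
      (∃ t i, B M δ i t N X = 0) → ∃ b ∈ K, G M s p δ b N X := by
  classical
  have := ty_finite
  have := Fintype.ofFinite Ty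
  choose K hK using fun i => cand hp (evi M h δ.1 i) (wf i δ.2.1 δ.2.2)
  refine ⟨Finset.univ.biUnion fun i => (K i).image fun z => (i, z), ?_⟩
  intro N X hex
  obtain ⟨i, hi⟩ := Nat.find_spec hex
  have hmin : ∀ t' < Nat.find hex, ∀ i, B M δ i t' N X ≠ 0 :=
    fun t' ht' i' h0 => Nat.find_min hex ht' ⟨i', h0⟩
  obtain ⟨z, hz, k, hk, h1, e⟩ := hK i N X (Nat.find hex) (by rw [← B_eq]; exact hi)
    (fun t' ht' => by rw [← B_eq]; exact hmin t' ht' i)
  refine ⟨(i, z), Finset.mem_biUnion.2 ⟨i, Finset.mem_univ _,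
    Finset.mem_image.2 ⟨z, hz, rfl⟩⟩, k, hk, h1, ?_, ?_⟩
  · simp only [← e]; exact hi
  · simp only [← e]; exact hmin

/-- the label of the exit `b` -/
def L (s p : ℕ) (δ : Q × Aff × Aff) (b : Ty × ℕ × Aff) : (Q × Ty) × Aff :=
  (((ff M)^[b.2.1] δ.1, b.1),
    co b.1 (δ.2.1 + con (Dx M δ.1 b.2.1) + (Ax M s p δ.1 : ℚ) • b.2.2)
      (δ.2.2 + con (Dy M δ.1 b.2.1) + (Ay M s p δ.1 : ℚ) • b.2.2))

def Enc (N : ℕ) (c' : (Q × Ty) × ℚ) (c : Q × ℕ × ℕ) : Prop :=
  c'.1.1 = c.1 ∧ ev (xf c'.1.2) N c'.2 = c.2.1 ∧ ev (yf c'.1.2) N c'.2 = c.2.2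

theorem G_enc {s p : ℕ} (h : ∀ t, s ≤ t → (ff M)^[t + p] = (ff M)^[t])
    (δ : Q × Aff × Aff) (b : Ty × ℕ × Aff) (N : ℕ) (X : ℚ) (c : Q × ℕ × ℕ) (hc : InR N c)
    (e1 : δ.1 = c.1) (e2 : ev δ.2.1 N X = c.2.1) (e3 : ev δ.2.2 N X = c.2.2)
    (hG : G M s p δ b N X) :
    ∃ t, Enc N ((L M s p δ b).1, ev (L M s p δ b).2 N X) ((M.step (un N))^[t] c) := by
  obtain ⟨k, hk, h1, h2, h3⟩ := hG
  simp only [B, e1, e2, e3] at h2 h3
  obtain ⟨f1, f2, f3⟩ := free_run M N c hc _ h3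
  refine ⟨b.2.1 + p * k, ?_⟩
  have g2 : ev (δ.2.1 + con (Dx M δ.1 b.2.1) + (Ax M s p δ.1 : ℚ) • b.2.2) N X
      = c.2.1 + Dx M c.1 (b.2.1 + p * k) := by
    rw [evx M h c.1 _ _ h1]
    simp only [ev_add, ev_smul, ev_con, hk, e1, e2]
    push_cast; ring
  have g3 : ev (δ.2.2 + con (Dy M δ.1 b.2.1) + (Ay M s p δ.1 : ℚ) • b.2.2) N X
      = c.2.2 + Dy M c.1 (b.2.1 + p * k) := by
    rw [evy M h c.1 _ _ h1]
    simp only [ev_add, ev_smul, ev_con, hk, e1, e3]
    push_cast; ring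
  simp only [Enc, L, ev_co, g2, g3, f1, f2, f3]
  exact ⟨by rw [iter_per h _ _ h1, e1], enc_co _ _ _ _ h2⟩

/-- the data after the first step -/
def datf (z : (Q × Ty) × (Ty → Bool)) : Q × Aff × Aff :=
  ((mov M z.1.1 z.2).1, xf z.1.2 + con (mov M z.1.1 z.2).2.1,
    yf z.1.2 + con (mov M z.1.1 z.2).2.2)

def view (N : ℚ) (c : (Q × Ty) × ℚ) : Ty → Bool :=
  vw N (ev (xf c.1.2) N c.2) (ev (yf c.1.2) N c.2)

theorem meas_view : Meas (view : ℚ → (Q × Ty) × ℚ → Ty → Bool) := by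
  classical
  have := ty_finite
  have := Fintype.ofFinite Ty
  refine ⟨⟨Finset.univ, fun _ _ => Finset.mem_univ _⟩, fun v q => ?_⟩
  refine (PB.all (Finset.univ : Finset Ty)
    (P := fun i N X => (ev (wf i (xf q.2) (yf q.2)) N X = ev (con 0) N X ∧ v i = true) ∨
      (¬ ev (wf i (xf q.2) (yf q.2)) N X = ev (con 0) N X ∧ v i = false))
    (fun i _ => ((PB.eq2 _ _).and (PB.const _)).or ((PB.eq2 _ _).not.and (PB.const _)))).congr ?_
  intro N X
  simp only [ev_wf, ev_con, view, funext_iff, vw, Finset.mem_univ, true_imp_iff]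
  refine forall_congr' fun i => ?_
  by_cases h0 : bd i N (ev (xf q.2) N X) (ev (yf q.2) N X) = 0 <;> cases v i <;> simp [h0]

theorem exists_lab [Finite Q] : ∃ lab : ℚ → (Q × Ty) × ℚ → (Q × Ty) × Aff, Meas lab ∧
    ∀ (N : ℕ) (c' : (Q × Ty) × ℚ) (c : Q × ℕ × ℕ), InR N c → Enc N c' c →
      (∃ u, ((M.step (un N))^[u + 1] c).2.1 = 0) →
      ∃ u, Enc N ((lab N c').1, ev (lab N c').2 N c'.2) ((M.step (un N))^[u + 1] c) := by
  classical
  have := ty_finite
  obtain ⟨s, p, hp, h⟩ := evper (ff M)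
  have hdat : Meas fun (N : ℚ) (c : (Q × Ty) × ℚ) => datf M (c.1, view N c) :=
    (Meas.state.prod meas_view).map (datf M)
  obtain ⟨S, hS⟩ := hdat.1
  choose K hK using ex_G M hp h
  obtain ⟨f, hf, hch⟩ := Meas.choose (S.biUnion K) (Ty.x0, 0, con 0)
    (fun b N (c : (Q × Ty) × ℚ) => G M s p (datf M (c.1, view N c)) b N c.2)
    (fun b _ => mp_dep hdat (S := fun δ => G M s p δ b) (fun δ => pb_G M hp h δ b))
  refine ⟨fun N c => L M s p (datf M (c.1, view N c)) (f N c),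
    (hdat.prod hf).map (fun z => L M s p z.1 z.2), ?_⟩
  rintro N c' c hc ⟨a1, a2, a3⟩ ⟨u, hu⟩
  obtain ⟨s1, s2, s3⟩ := step_mov M N c hc
  have hc1 := inR_step M N c hc
  have hv : view N c' = vw N c.2.1 c.2.2 := by simp only [view, a2, a3]
  have e1 : (datf M (c'.1, view N c')).1 = (M.step (un N) c).1 := by
    simp only [datf, hv, a1, s1]
  have e2 : ev (datf M (c'.1, view N c')).2.1 N c'.2 = (M.step (un N) c).2.1 := by
    simp only [datf, hv, a1, s2, ev_add, ev_con, a2]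
  have e3 : ev (datf M (c'.1, view N c')).2.2 N c'.2 = (M.step (un N) c).2.2 := by
    simp only [datf, hv, a1, s3, ev_add, ev_con, a3]
  have hex : ∃ t i, B M (datf M (c'.1, view N c')) i t N c'.2 = 0 := by
    by_contra hn
    have hn' : ∀ t i, B M (datf M (c'.1, view N c')) i t N c'.2 ≠ 0 :=
      fun t i h0 => hn ⟨t, i, h0⟩
    simp only [B, e1, e2, e3] at hn'
    obtain ⟨_, f2, _⟩ := free_run M N _ hc1 u (fun t' _ i => hn' t' i)
    rw [Function.iterate_succ_apply] at hu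
    apply hn' u Ty.x0
    rw [← f2, hu]
    simp [bd, ca, cb, cc]
  obtain ⟨b, hb, hG⟩ := hK _ N c'.2 hex
  have := (hch N c' ⟨b, Finset.mem_biUnion.2 ⟨_, hS N c', hb⟩, hG⟩).2
  obtain ⟨t, ht⟩ := G_enc M h _ _ N c'.2 _ hc1 e1 e2 e3 this
  exact ⟨t, by rw [Function.iterate_succ_apply]; exact ht⟩

end Pha

open Pha in
/-- ROW PHA (paper 3b): the boundary dynamics of a halting machine is piecewise affine. -/
theorem phase (Q : Type) [Finite Q] (M : TwoHead Unit Q) (out : Q → Option Bool)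
    (habs : ∀ q b s1 s2 e, out q = some b → M.δ q s1 s2 e = (q, 0, 0)) :
    ∃ (Q' : Type) (_ : Finite Q') (P : PA Q'), ∀ (N t : ℕ) (b : Bool),
      out ((M.step (un N))^[t] (M.start, 0, 0)).1 = some b →
      ((M.step (un N))^[t] (M.start, 0, 0)).2.1 = 0 → P.Runs N b := by
  have := ty_finite
  obtain ⟨lab, hm, hlab⟩ := exists_lab M
  refine ⟨Q × Ty, inferInstance, ⟨(M.start, Ty.x0), fun q => out q.1, lab, hm⟩, ?_⟩
  intro N t b hb h0
  generalize hP : (⟨(M.start, Ty.x0), fun q => out q.1, lab, hm⟩ : PA (Q × Ty)) = P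
  have hq0 : P.q0 = (M.start, Ty.x0) := by rw [← hP]
  have hout : ∀ q, P.out q = out q.1 := by intro q; rw [← hP]
  have hφ : ∀ c, P.φ N c = ((lab N c).1, ev (lab N c).2 N c.2) := by intro c; rw [← hP]; rfl
  generalize hR : (fun u => (M.step (un N))^[u] (M.start, 0, 0)) = R
  have hRu : ∀ u, (M.step (un N))^[u] (M.start, 0, 0) = R u := fun u => congrFun hR u
  rw [hRu] at hb h0
  have hadd : ∀ u j, R (u + j) = (M.step (un N))^[j] (R u) := by
    intro u j
    rw [← hRu, ← hRu, Nat.add_comm, Function.iterate_add_apply]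
  have hin : ∀ u, InR N (R u) := fun u => by
    rw [← hRu]; exact inR_iter M N _ ⟨by simp, by simp⟩ u
  have habs' : ∀ u b', out (R u).1 = some b' → ∀ u', u ≤ u' → R u' = R u := by
    intro u b' hu u' hu'
    obtain ⟨j, rfl⟩ := Nat.exists_eq_add_of_le hu'
    rw [hadd]
    apply Function.iterate_fixed
    simp only [TwoHead.step, habs _ _ _ _ _ hu]
    rfl
  have hnext : ∀ n u, Enc N (P.orb N n) (R u) → ∃ u', u < u' ∧ Enc N (P.orb N (n + 1)) (R u') := by
    intro n u he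
    obtain ⟨j, hj⟩ := hlab N _ _ (hin u) he ⟨t, by
      rw [← hadd, habs' t b hb _ (by omega)]; exact h0⟩
    refine ⟨u + (j + 1), by omega, ?_⟩
    rw [hadd]
    simp only [PA.orb, Function.iterate_succ_apply', hφ] at hj ⊢
    exact hj
  have hmany : ∀ p n u, Enc N (P.orb N n) (R u) →
      ∃ u', u + p ≤ u' ∧ Enc N (P.orb N (n + p)) (R u') := by
    intro p n u he
    induction p with
    | zero => exact ⟨u, le_rfl, he⟩
    | succ p ih =>
      obtain ⟨u1, h1, e1⟩ := ih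
      obtain ⟨u2, h2, e2⟩ := hnext _ _ e1
      exact ⟨u2, by omega, e2⟩
  have hall : ∀ n, ∃ u, n ≤ u ∧ Enc N (P.orb N n) (R u) := by
    intro n
    have e0 : Enc N (P.orb N 0) (R 0) := by
      rw [← hRu]
      simp [Enc, PA.orb, hq0, ev, xf, yf]
    simpa using hmany n 0 0 e0
  refine ⟨?_, ?_, ?_, ?_⟩
  · intro n
    obtain ⟨u, _, _, e2, e3⟩ := hall n
    rcases coord (P.orb N n).1.2 N (P.orb N n).2 with h | h
    · exact ⟨(R u).2.1, (hin u).1, h.trans e2⟩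
    · exact ⟨(R u).2.2, (hin u).2, h.trans e3⟩
  · obtain ⟨u, hu, e1, _⟩ := hall (t + 1)
    refine ⟨t + 1, by omega, ?_⟩
    rw [hout, e1, habs' t b hb u (by omega), hb]
  · intro n b' hn
    obtain ⟨u, _, e1, _⟩ := hall n
    rw [hout, e1] at hn
    have g1 := habs' u b' hn (u + t) (by omega)
    have g2 := habs' t b hb (u + t) (by omega)
    rw [← g1, g2, hb] at hn
    exact (Option.some.inj hn).symm
  · intro n p hp hn e
    obtain ⟨u, _, he⟩ := hall n
    obtain ⟨u', hu', he'⟩ := hmany p n u he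
    rw [e] at he'
    have hRR : R u' = R u := by
      obtain ⟨a1, a2, a3⟩ := he
      obtain ⟨b1, b2, b3⟩ := he'
      refine Prod.ext (b1.symm.trans a1) (Prod.ext ?_ ?_)
      · exact_mod_cast b2.symm.trans a2
      · exact_mod_cast b3.symm.trans a3
    obtain ⟨d, rfl⟩ : ∃ d, u' = u + (d + 1) := ⟨u' - u - 1, by omega⟩
    have hper : ∀ j, R (u + (d + 1) * j) = R u := by
      intro j
      rw [hadd, Function.iterate_mul]
      apply Function.iterate_fixed
      rw [← hadd, hRR]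
    have hge : t ≤ u + (d + 1) * t := by nlinarith
    rw [hout, he.1, ← hper t, habs' t b hb _ hge, hb] at hn
    cases hn

end Pool.Agent.MP_47ff19_lc.H6P
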