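import Pool.Agent.MP_47ff19_lc.H6P.ArithC

namespace Pool.Agent.MP_47ff19_lc.H6P

open Relation

namespace Ar

variable {Q : Type} [Fintype Q]

/-- the label chosen in stage 1 is a jump of the run -/
theorem jump (P : PA Q) (K : MK Q) (hK : K.Works P) (V lam n : ℕ)
    (hG : 2 * K.m0 ≤ V * (2 ^ lam * K.m)) (hΔ : K.Δ0 ≤ 2 ^ n * (V * (2 ^ lam * K.m))) (b : Bool)
    (hR : P.Runs (K.H0 * K.β * (2 ^ n * (V * (2 ^ lam * K.m)))) b) (t : ℕ) (q : Q) (X : ℕ)
    (ho : P.orb (K.H0 * K.β * (2 ^ n * (V * (2 ^ lam * K.m)))) t = (q, (X : ℚ)))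
    (f : S1 K V) (w J : ℕ) (hrep : Rep K V lam n f.1 w J q X) :
    lab1 K f.1 (decide (J = 0)) (decide (J + 1 = 2 ^ n)) ∈ K.Tt ∧
    K.Jump P (2 ^ n * (V * (2 ^ lam * K.m))) t X
      (lab1 K f.1 (decide (J = 0)) (decide (J + 1 = 2 ^ n))) := by
  have hmG : K.m ∣ V * (2 ^ lam * K.m) := Dvd.intro_left (V * 2 ^ lam) (by ring)
  obtain ⟨hg, hs⟩ := hK _ hΔ (Dvd.dvd.mul_left hmG _) b hR t q X ho
  obtain ⟨fv, hf⟩ := f
  obtain ⟨hJ, -, hrep⟩ := hrep
  generalize V * (2 ^ lam * K.m) = G at *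
  have gen : ∀ ht : ℕ, ht * (2 ^ n * G) + K.m0 ≤ X → X + K.m0 ≤ (ht + 1) * (2 ^ n * G) →
      Gen (K.β * (2 ^ n * G)) K.m0 (ht / K.β : ℕ) X := by
    intro ht h1 h2
    have hud : ht / K.β * K.β + ht % K.β = ht := Nat.div_add_mod' _ _
    have hum : ht % K.β < K.β := Nat.mod_lt _ K.β_pos
    have a1 : ht / K.β * K.β * (2 ^ n * G) ≤ ht * (2 ^ n * G) :=
      Nat.mul_le_mul_right _ (by omega)
    have a2 : (ht + 1) * (2 ^ n * G) ≤ (ht / K.β * K.β + K.β) * (2 ^ n * G) :=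
      Nat.mul_le_mul_right _ (by omega)
    have b1 : ht / K.β * (K.β * (2 ^ n * G)) + K.m0 ≤ X := by rw [← mul_assoc]; omega
    have b2 : X + K.m0 ≤ (ht / K.β + 1) * (K.β * (2 ^ n * G)) := by
      rw [← mul_assoc, add_mul _ 1, one_mul]; omega
    exact ⟨by exact_mod_cast b1, by exact_mod_cast b2⟩
  have low : ∀ ht : ℕ, (ht * 2 ^ n + J) * G = ht * (2 ^ n * G) + J * G := fun ht => by ring
  have hi1 : (J + 1) * G ≤ 2 ^ n * G := Nat.mul_le_mul_right _ hJ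
  rw [add_mul, one_mul] at hi1
  obtain ⟨c, hc⟩ := hmG
  rcases fv with ⟨⟨q', h, l⟩, i, v⟩ | ⟨q', ht, side, o⟩
  · simp only [S1, Finset.inl_mem_disjSum, Finset.mem_product, Finset.mem_range] at hf
    obtain ⟨hq, z, hz0, hz1, hX, hzm, -⟩ := hrep
    simp only at hq hX hzm
    subst hq
    refine ⟨K.macG_mem _ _ _, ?_⟩
    have hd : (h * K.β + i) / K.β = h := by
      rw [add_comm, Nat.add_mul_div_right _ _ K.β_pos, Nat.div_eq_of_lt hf.2.1, zero_add]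
    have := hg _ (gen (h * K.β + i) (by rw [hX, low]; omega) (by rw [hX, low, add_mul _ 1]; omega))
    rw [hd] at this
    have e : X % K.m = l := by
      rw [← hzm, hX, hc, mul_comm K.m, ← mul_assoc, Nat.mul_add_mod_self_right]
    rw [e] at this
    exact this
  · simp only [S1, Finset.inr_mem_disjSum, Finset.mem_product, Finset.mem_range] at hf
    obtain ⟨-, hht, -, ho'⟩ := hf
    cases side
    · obtain ⟨hq, hX⟩ := hrep
      subst hq
      by_cases h0 : J = 0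
      · simp only [lab1, h0, decide_true, if_true]
        refine ⟨K.macS_mem _ _ _, hs ht o (by omega) (by rw [abs_le]; omega) ?_⟩
        rw [hX, h0]; push_cast; ring
      · simp only [lab1, h0, decide_false, Bool.false_eq_true, if_false]
        refine ⟨K.macG_mem _ _ _, ?_⟩
        have hJG : 1 * G ≤ J * G := Nat.mul_le_mul_right _ (by omega)
        have := hg _ (gen ht (by rw [hX, low]; omega) (by rw [hX, low, add_mul _ 1]; omega))
        have e : X % K.m = o % K.m := by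
          rw [hX, hc, mul_comm K.m, ← mul_assoc, Nat.mul_add_mod_self_right]
        rw [e] at this
        exact this
    · obtain ⟨hq, hX⟩ := hrep
      subst hq
      have hXz : (X : ℤ) = ((ht : ℤ) * 2 ^ n + J + 1) * G - (1 + o) := by
        have : ((X + (1 + o) : ℕ) : ℤ) = ((ht * 2 ^ n + J + 1) * G : ℕ) := by rw [hX]
        push_cast at this; linarith
      by_cases h0 : J + 1 = 2 ^ n
      · simp only [lab1, h0, decide_true, if_true]
        refine ⟨K.macS_mem _ _ _, hs (ht + 1) (-1 - o) (by omega) (by rw [abs_le]; omega) ?_⟩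
        have : (J : ℤ) + 1 = 2 ^ n := by exact_mod_cast h0
        rw [hXz, add_assoc, this]; push_cast; ring
      · simp only [lab1, h0, decide_false, Bool.false_eq_true, if_false]
        refine ⟨K.macG_mem _ _ _, ?_⟩
        have hJG : (J + 2) * G ≤ 2 ^ n * G := Nat.mul_le_mul_right _ (by omega)
        rw [add_mul _ 1, low] at hX
        rw [add_mul] at hJG
        have := hg _ (gen ht (by omega) (by rw [add_mul _ 1]; omega))
        have e : X % K.m = ((-1 - (o : ℤ)) % K.m).toNat := by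
          have e1 : (X : ℤ) = (-1 - o) + K.m * (((ht : ℤ) * 2 ^ n + J + 1) * c) := by
            rw [hXz, hc]; push_cast; ring
          have e2 : (-1 - (o : ℤ)) % K.m = ((X % K.m : ℕ) : ℤ) := by
            push_cast; rw [e1, Int.add_mul_emod_self_left]
          rw [e2, Int.toNat_natCast]
        rw [e] at this
        exact this

theorem run (P : PA Q) (K : MK Q) (hK : K.Works P) (V B lam n : ℕ) (hV : 0 < V)
    (hα : ∀ l ∈ K.Tt, l.2.1 ≠ 0 → l.2.1.natAbs ∣ V)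
    (hB : ∀ l ∈ K.Tt, |l.2.1| * K.m0 + K.m0 ≤ B) (hE : B < 2 ^ lam * K.m)
    (hG : 2 * K.m0 ≤ V * (2 ^ lam * K.m)) (hm0 : 0 < K.m0)
    (hΔ : K.Δ0 ≤ 2 ^ n * (V * (2 ^ lam * K.m))) (b : Bool)
    (hR : P.Runs (K.H0 * K.β * (2 ^ n * (V * (2 ^ lam * K.m)))) b)
    (d1 : S1 K V) (d2 : S2 K V B) (th : ℕ)
    (hth : P.out (P.orb (K.H0 * K.β * (2 ^ n * (V * (2 ^ lam * K.m)))) th).1 = some b) :
    ∀ (k t : ℕ), th ≤ t + k → t < th → ∀ (q : Q) (X : ℕ) (f : S1 K V) (w J : ℕ),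
      P.orb (K.H0 * K.β * (2 ^ n * (V * (2 ^ lam * K.m)))) t = (q, (X : ℚ)) →
      Rep K V lam n f.1 w J q X →
      NHalts (nm K V B hV d2) (st2 P K V B lam d1) n (f, w, J) (!b) := by
  intro k
  induction k with
  | zero => intro t h1 h2; omega
  | succ k ih =>
    intro t h1 h2 q X f w J ho hrep
    obtain ⟨hlT, t', X', ht', ho', hX', hno, hZ⟩ := jump P K hK V lam n hG hΔ b hR t q X ho f w J hrep
    obtain ⟨X1, hX1, hX2⟩ := hR.rng t'
    rw [ho'] at hX2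
    have hXe : X' = X1 := Nat.cast_injective (R := ℚ) hX2
    obtain ⟨ut, z, hz, hut, hJ2, hX, hst⟩ := step P K V B lam n hV hα hB hE (by omega) d1 d2 f w J
      q X X' _ hrep rfl hlT hX' (by omega)
    have hle : t' ≤ th := by
      by_contra hc
      rw [hno th h2 (by omega)] at hth
      cases hth
    cases hout : P.out (lab1 K f.1 (decide (J = 0)) (decide (J + 1 = 2 ^ n))).1 with
    | some b' =>
      have : b' = b := hR.uniq t' b' (by rw [ho']; exact hout)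
      subst this
      refine ⟨(f, w, J), ReflTransGen.refl, ?_⟩
      simp only
      rw [hst]; unfold fin2; rw [hout]
    | none =>
      obtain ⟨f', w', hf', hrep'⟩ := fin2_rep P K V lam n d1 _ ut _ z X' hout hJ2 hz hX hut (hZ hout)
      have hne : t' ≠ th := by
        rintro rfl
        rw [ho', hout] at hth
        cases hth
      obtain ⟨c, hc1, hc2⟩ := ih t' (by omega) (by omega) _ X' f' w' _ ho' hrep'
      exact ⟨c, ReflTransGen.head ⟨by simp only; rw [hst, hf'], rfl⟩ hc1, hc2⟩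

end Ar

open Ar in
/-- ROW ARI (paper 3d): the numeric machine follows the jumps and negates the answer. -/
theorem arith {Q : Type} [Finite Q] (P : PA Q) (K : MK Q) (hK : K.Works P) :
    ∃ (F1 F2 : Type) (_ : Finite F1) (_ : Finite F2) (A : NM F1 F2) (f0 : F1) (ν1 lam1 : ℕ),
      Nat.card F1 ≤ 2 ^ ν1 ∧ Nat.card F2 ≤ 2 ^ ν1 ∧ ∀ lam, lam1 ≤ lam →
      ∃ (st2 : F2 → ℕ → (F1 × ℕ) ⊕ Bool) (c0 k n0 : ℕ),
        (∀ f w f' w', st2 f w = Sum.inl (f', w') → w' < 2 ^ lam) ∧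
        ∀ n, n0 ≤ n → 2 ^ (lam + ν1 + n + 3) ≤ (2 * k + 1) * 2 ^ (n + c0) ∧
          ∀ b, P.Runs ((2 * k + 1) * 2 ^ (n + c0)) b → NHalts A st2 n (f0, 0, 0) (!b) := by
  have := Fintype.ofFinite Q
  have hmem := K.macG_mem P.q0 0 0
  have hm0 : 0 < K.m0 := by
    have h1 := K.γ_lt _ hmem
    have h2 := abs_nonneg (K.macG P.q0 0 0).2.2.2
    omega
  obtain ⟨A0, hA0, hA⟩ : ∃ A0 : ℕ, 0 < A0 ∧ ∀ l ∈ K.Tt, l.2.1 ≠ 0 → l.2.1.natAbs ∣ A0 := by
    refine ⟨∏ l ∈ K.Tt, max 1 l.2.1.natAbs, Finset.prod_pos fun l _ => by omega, fun l hl h => ?_⟩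
    have : l.2.1.natAbs = max 1 l.2.1.natAbs := by
      have := Int.natAbs_pos.2 h; omega
    rw [this]
    exact Finset.dvd_prod_of_mem (fun l : Lab Q => max 1 l.2.1.natAbs) hl
  obtain ⟨B, hBd⟩ : ∃ B : ℕ, B = A0 * K.m0 + K.m0 := ⟨_, rfl⟩
  have hB : ∀ l ∈ K.Tt, |l.2.1| * K.m0 + K.m0 ≤ B := by
    intro l hl
    have h1 : l.2.1.natAbs ≤ A0 := by
      by_cases h : l.2.1 = 0
      · simp [h]
      · exact Nat.le_of_dvd hA0 (hA l hl h)
    have h2 : l.2.1.natAbs * K.m0 + K.m0 ≤ B := by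
      have := Nat.mul_le_mul_right K.m0 h1; omega
    rw [← Int.natCast_natAbs]; exact_mod_cast h2
  have hB2 : 2 * K.m0 ≤ B := by
    have := Nat.mul_le_mul_right K.m0 hA0; omega
  obtain ⟨cE, hcE⟩ : ∃ c : ℕ, c = Fintype.card Q * ((K.H0 * K.β + 1) * (2 * K.m0)) +
    K.Tt.card * ((2 * B + 1) * ((K.H0 * K.β + 1) * K.β)) + 1 := ⟨_, rfl⟩
  obtain ⟨V, hVd⟩ : ∃ V : ℕ, V = A0 * (32 * cE) := ⟨_, rfl⟩
  have hV32 : 32 * cE ≤ V := by rw [hVd]; exact Nat.le_mul_of_pos_left _ hA0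
  have hV : 0 < V := by omega
  have hα : ∀ l ∈ K.Tt, l.2.1 ≠ 0 → l.2.1.natAbs ∣ V := fun l hl h =>
    hVd ▸ Dvd.dvd.mul_right (hA l hl h) _
  obtain ⟨ν1, hν1, hν2⟩ := two_pow_between (K.Z.card * (K.β * V) + cE) (by omega)
  have hβ := K.β_pos
  have d2 : S2 K V B := ⟨Sum.inr (K.macG P.q0 0 0, 0, 0, 0), by simp [S2, hmem, hβ]⟩
  let f0 : S1 K V := ⟨Sum.inr (P.q0, 0, false, 0), by simp [S1, hm0]⟩
  refine ⟨S1 K V, S2 K V B, inferInstance, inferInstance, nm K V B hV d2, f0, ν1, B, ?_, ?_,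
    fun lam hlam => ?_⟩
  · rw [Nat.card_eq_fintype_card, Fintype.card_coe, card_S1]; omega
  · rw [Nat.card_eq_fintype_card, Fintype.card_coe]
    have := card_S2 K V B; omega
  have hE : B < 2 ^ lam * K.m :=
    lt_of_lt_of_le (lt_of_le_of_lt hlam Nat.lt_two_pow_self) (Nat.le_mul_of_pos_right _ K.m_pos)
  have hGE : 2 ^ lam * K.m ≤ V * (2 ^ lam * K.m) := Nat.le_mul_of_pos_left _ hV
  have hN1 : K.H0 * K.β * (V * (2 ^ lam * K.m)) ≠ 0 :=
    (Nat.mul_pos (Nat.mul_pos K.H0_pos hβ) (by omega)).ne'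
  obtain ⟨c0, k', ⟨k, hk⟩, hN⟩ := Nat.exists_eq_two_pow_mul_odd hN1
  refine ⟨st2 P K V B lam f0, c0, k, K.Δ0, fun f w f' w' h => st2_bd _ _ _ _ _ _ _ _ _ _ h,
    fun n hn => ?_⟩
  have hNe : (2 * k + 1) * 2 ^ (n + c0) = K.H0 * K.β * (2 ^ n * (V * (2 ^ lam * K.m))) := by
    rw [← hk, pow_add, show K.H0 * K.β * (2 ^ n * (V * (2 ^ lam * K.m))) =
      2 ^ n * (K.H0 * K.β * (V * (2 ^ lam * K.m))) by ring, hN]; ring
  rw [hNe]
  constructor
  · have h1 : 32 * K.Z.card * (K.β * V) ≤ K.H0 * K.m * (K.β * V) :=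
      Nat.mul_le_mul_right _ K.Z_card
    have h2 : V ≤ K.H0 * K.m * (K.β * V) := by
      rw [← mul_assoc]
      exact Nat.le_mul_of_pos_left _ (Nat.mul_pos (Nat.mul_pos K.H0_pos K.m_pos) hβ)
    have h3 : 8 * 2 ^ ν1 ≤ K.H0 * K.m * (K.β * V) := by rw [mul_assoc] at h1; omega
    calc 2 ^ (lam + ν1 + n + 3) = 2 ^ lam * 2 ^ n * (8 * 2 ^ ν1) := by ring
      _ ≤ 2 ^ lam * 2 ^ n * (K.H0 * K.m * (K.β * V)) := Nat.mul_le_mul_left _ h3
      _ = _ := by ring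
  · intro b hR
    obtain ⟨th, hth0, hth⟩ := hR.halt
    have hΔ : K.Δ0 ≤ 2 ^ n * (V * (2 ^ lam * K.m)) :=
      le_trans (le_trans hn Nat.lt_two_pow_self.le) (Nat.le_mul_of_pos_right _ (by omega))
    exact run P K hK V B lam n hV hα hB hE (by omega) hm0 hΔ b hR f0 d2 th hth th 0 (by omega)
      hth0 P.q0 0 f0 0 0 (by simp [PA.orb]) ⟨by positivity, by positivity, rfl, by simp⟩

end Pool.Agent.MP_47ff19_lc.H6P
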