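import Pool.Agent.MP_47ff19_lc.H6P.Defs

/-! Definitions and pure integer lemmas for row ARI. -/

namespace Pool.Agent.MP_47ff19_lc.H6P

open Relation

namespace Ar

/-- core division lemma -/
theorem core (β V E : ℕ) (hβ : 0 < β) (T ε : ℤ) (X' : ℕ)
    (h : (β : ℤ) * X' = T * E + ε) (h0 : 0 ≤ ε) (hV : 0 < V)
    (h1 : T % (β * V) * E + ε < β * V * E) :
    ∃ u z : ℕ, (u : ℤ) = T / (β * V) ∧ (z : ℤ) = (T % (β * V) * E + ε) / β ∧ z < V * E ∧
      X' = u * (V * E) + z := by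
  have hβ' : (0 : ℤ) < β := by exact_mod_cast hβ
  have hV' : (0 : ℤ) < V := by exact_mod_cast hV
  have hd : (0 : ℤ) < β * V := mul_pos hβ' hV'
  have hE : (0 : ℤ) ≤ E := by positivity
  have hr0 : 0 ≤ T % (β * V) := Int.emod_nonneg _ hd.ne'
  have hT : T = β * V * (T / (β * V)) + T % (β * V) := (Int.mul_ediv_add_emod _ _).symm
  set u := T / (β * V) with hu
  set r := T % (β * V) with hr
  have e1 : r * E + ε = β * (X' - u * (V * E)) := by
    rw [mul_sub, h]; nth_rewrite 1 [hT]; ring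
  have e2 : (r * E + ε) / β = X' - u * (V * E) := by
    rw [e1]; exact Int.mul_ediv_cancel_left _ hβ'.ne'
  have z0 : 0 ≤ (X' : ℤ) - u * (V * E) := by
    have : 0 ≤ r * E + ε := by positivity
    rw [e1] at this
    exact nonneg_of_mul_nonneg_right this hβ' |> fun h => by nlinarith
  have z1 : (X' : ℤ) - u * (V * E) < V * E := by
    rw [e1] at h1
    have : (β : ℤ) * (X' - u * (V * E)) < β * (V * E) := by linarith
    exact lt_of_mul_lt_mul_left this hβ'.le
  have u0 : 0 ≤ u := by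
    by_contra hneg
    have : u ≤ -1 := by omega
    have hG : (0 : ℤ) ≤ V * E := by positivity
    have hX : (0 : ℤ) ≤ X' := by positivity
    nlinarith
  refine ⟨u.toNat, ((X' : ℤ) - u * (V * E)).toNat, Int.toNat_of_nonneg u0, ?_, ?_, ?_⟩
  · rw [Int.toNat_of_nonneg z0, e2]
  · zify; rw [Int.toNat_of_nonneg z0]; exact z1
  · zify; rw [Int.toNat_of_nonneg z0, Int.toNat_of_nonneg u0]; ring

/-- the shift `j` -/
def sh (α γ : ℤ) : ℤ := if α = 0 then 0 else if 0 < α then γ / α else γ / α - 1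

theorem sh_bd (α γ : ℤ) (m0 : ℕ) (h : |γ| < m0) : -(m0 : ℤ) ≤ sh α γ ∧ sh α γ < m0 := by
  have h1 : (γ / α).natAbs ≤ γ.natAbs := Int.natAbs_ediv_le_natAbs _ _
  have h2 : (γ.natAbs : ℤ) < m0 := by rwa [Int.natCast_natAbs]
  unfold sh
  split_ifs <;> omega

theorem sh_pos (α γ : ℤ) (h : 0 < α) : 0 ≤ γ - α * sh α γ ∧ γ - α * sh α γ < α := by
  have e : sh α γ = γ / α := by unfold sh; rw [if_neg h.ne', if_pos h]
  have := Int.mul_ediv_add_emod γ α
  have h1 := Int.emod_nonneg γ h.ne'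
  have h2 := Int.emod_lt_of_pos γ h
  rw [e]; constructor <;> linarith

theorem sh_neg (α γ : ℤ) (h : α < 0) : α ≤ γ - α * sh α γ ∧ γ - α * sh α γ < 0 := by
  have e : sh α γ = γ / α - 1 := by unfold sh; rw [if_neg h.ne, if_neg (by omega)]
  have := Int.mul_ediv_add_emod γ α
  have h1 := Int.emod_nonneg γ h.ne
  have h2 : γ % α < -α := by
    have := Int.emod_lt_abs γ h.ne
    rwa [abs_of_neg h] at this
  rw [e, mul_sub]; constructor <;> linarith

/-- quotient range -/
theorem quot_rng (T d U base s : ℤ) (hd : 0 < d) (hU : 0 < U) (h0 : base * (d * U) ≤ T)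
    (h1 : T < (base + s) * (d * U)) : base ≤ T / d / U ∧ T / d / U < base + s := by
  constructor
  · rw [Int.le_ediv_iff_mul_le hU, Int.le_ediv_iff_mul_le hd]; linarith
  · rw [Int.ediv_lt_iff_lt_mul hU, Int.ediv_lt_iff_lt_mul hd]; linarith

theorem two_pow_between (x : ℕ) (hx : 0 < x) : ∃ ν, x ≤ 2 ^ ν ∧ 2 ^ ν ≤ 2 * x := by
  refine ⟨Nat.log 2 x + 1, (Nat.lt_pow_succ_log_self (by norm_num) x).le, ?_⟩
  rw [pow_succ]
  have := Nat.pow_log_le_self 2 hx.ne'
  omega

open Classical in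
/-- projection to a finite set with a default -/
noncomputable def toS {α : Type} (S : Finset α) (d : S) (x : α) : S :=
  if h : x ∈ S then ⟨x, h⟩ else d

theorem toS_val {α : Type} {S : Finset α} (d : S) {x : α} (h : x ∈ S) : (toS S d x).1 = x := by
  unfold toS; rw [dif_pos h]

end Ar

end Pool.Agent.MP_47ff19_lc.H6P
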