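import Pool.Agent.MP_47ff19_lc.H6P.ArithA

/-! The numeric machine of row ARI and its one-step lemma. -/

namespace Pool.Agent.MP_47ff19_lc.H6P

open Relation

namespace Ar

variable {Q : Type} [Fintype Q]

abbrev Lab (Q : Type) := Q × ℤ × ℤ × ℤ
abbrev Raw1 (Q : Type) := ((Q × ℕ × ℕ) × ℕ × ℕ) ⊕ (Q × ℕ × Bool × ℕ)
abbrev Raw2 (Q : Type) := (Σ _ : Q × ℕ × ℕ, ℕ × ℕ) ⊕ (Lab Q × ℤ × ℕ × ℕ)

def S1 (K : MK Q) (V : ℕ) : Finset (Raw1 Q) :=
  (K.Z ×ˢ Finset.range K.β ×ˢ Finset.range V).disjSum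
    (Finset.univ ×ˢ Finset.range (K.H0 * K.β + 1) ×ˢ Finset.univ ×ˢ Finset.range K.m0)

def mac (K : MK Q) (σ : Q × ℕ × ℕ) : Lab Q := K.macG σ.1 σ.2.1 σ.2.2

noncomputable def S2 (K : MK Q) (V B : ℕ) : Finset (Raw2 Q) :=
  (K.Z.sigma fun σ => Finset.range (mac K σ).2.1.natAbs ×ˢ
      Finset.range (K.β * V / (mac K σ).2.1.natAbs)).disjSum
    (K.Tt ×ˢ Finset.Icc (-(B : ℤ)) B ×ˢ Finset.range (K.H0 * K.β + 1) ×ˢ Finset.range K.β)

theorem card_S1 (K : MK Q) (V : ℕ) :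
    (S1 K V).card = K.Z.card * (K.β * V) + Fintype.card Q * ((K.H0 * K.β + 1) * (2 * K.m0)) := by
  simp [S1, Finset.card_disjSum, Finset.card_product]

omit [Fintype Q] in
theorem card_S2 (K : MK Q) (V B : ℕ) :
    (S2 K V B).card ≤ K.Z.card * (K.β * V) +
      K.Tt.card * ((2 * B + 1) * ((K.H0 * K.β + 1) * K.β)) := by
  unfold S2
  rw [Finset.card_disjSum, Finset.card_sigma]
  apply Nat.add_le_add
  · rw [← smul_eq_mul]
    apply Finset.sum_le_card_nsmul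
    intro σ _
    rw [Finset.card_product, Finset.card_range, Finset.card_range]
    exact Nat.mul_div_le _ _
  · simp only [Finset.card_product, Finset.card_range, Int.card_Icc]
    have : ((B : ℤ) + 1 - -(B : ℤ)).toNat = 2 * B + 1 := by omega
    rw [this]

/-- the label, the fine cell, the side and the small signed part in the loose case -/
def lab1 (K : MK Q) : Raw1 Q → Bool → Bool → Lab Q
  | Sum.inl x, _, _ => mac K x.1
  | Sum.inr (q, ht, false, o), z0, _ =>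
      if z0 then K.macS q ht o else K.macG q (ht / K.β) (o % K.m)
  | Sum.inr (q, ht, true, o), _, z1 =>
      if z1 then K.macS q (ht + 1) (-1 - o)
      else K.macG q (ht / K.β) ((-1 - (o : ℤ)) % K.m).toNat

def cell1 (K : MK Q) : Raw1 Q → ℕ
  | Sum.inl x => x.1.2.1 * K.β + x.2.1
  | Sum.inr x => x.2.1

def eta (l : Lab Q) : Raw1 Q → ℤ
  | Sum.inl _ => l.2.2.2
  | Sum.inr (_, _, false, o) => l.2.1 * o + l.2.2.2
  | Sum.inr (_, _, true, o) => l.2.2.2 - l.2.1 * (1 + o)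

def b0 (V : ℕ) (l : Lab Q) : Raw1 Q → ℤ
  | Sum.inl x => if l.2.1 = 0 then (if l.2.2.2 < 0 then -1 else 0)
      else l.2.1 * x.2.2 + (if l.2.1 < 0 then l.2.1 else 0)
  | Sum.inr (q, ht, false, o) => if eta l (Sum.inr (q, ht, false, o)) < 0 then -1 else 0
  | Sum.inr (q, ht, true, o) =>
      l.2.1 * V + (if eta l (Sum.inr (q, ht, true, o)) < 0 then -1 else 0)

def base (K : MK Q) (σ : Q × ℕ × ℕ) : ℤ :=
  (mac K σ).2.1 * σ.2.1 + (mac K σ).2.2.1 * K.H0 + (if (mac K σ).2.1 < 0 then (mac K σ).2.1 else 0)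

def out2 (K : MK Q) (V : ℕ) (l : Lab Q) (x : Raw1 Q) (ut r : ℤ) : Raw2 Q :=
  match x with
  | Sum.inl y => if l.2.1 = 0 then Sum.inr (l, eta l x, ut.toNat, (r / V).toNat)
      else Sum.inl ⟨y.1, ((ut - base K y.1).toNat, (r / l.2.1.natAbs).toNat)⟩
  | Sum.inr _ => Sum.inr (l, eta l x, ut.toNat, (r / V).toNat)

noncomputable def nm (K : MK Q) (V B : ℕ) (hV : 0 < V) (d2 : S2 K V B) :
    NM (S1 K V) (S2 K V B) where
  par f z0 z1 := ((lab1 K f.1 z0 z1).2.1 * V, b0 V (lab1 K f.1 z0 z1) f.1,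
    ((lab1 K f.1 z0 z1).2.1 * cell1 K f.1 + (lab1 K f.1 z0 z1).2.2.1 * (K.H0 * K.β)) * V,
    K.β * V)
  pos _ _ _ := mul_pos (by exact_mod_cast K.β_pos) (by exact_mod_cast hV)
  outp f z0 z1 ut r := toS _ d2 (out2 K V (lab1 K f.1 z0 z1) f.1 ut r)

/-- re-encoding of the target -/
noncomputable def fin2 (P : PA Q) (K : MK Q) (V lam : ℕ) (d1 : S1 K V) (q : Q) (ut z : ℕ) :
    (S1 K V × ℕ) ⊕ Bool :=
  match P.out q with
  | some b => Sum.inr (!b)
  | none =>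
    if z < K.m0 then Sum.inl (toS _ d1 (Sum.inr (q, ut, false, z)), 0)
    else if V * (2 ^ lam * K.m) ≤ z + K.m0 then
      Sum.inl (toS _ d1 (Sum.inr (q, ut, true, V * (2 ^ lam * K.m) - 1 - z)), 0)
    else
      Sum.inl (toS _ d1 (Sum.inl ((q, ut / K.β, z % K.m), ut % K.β,
        (z + sh (mac K (q, ut / K.β, z % K.m)).2.1 (mac K (q, ut / K.β, z % K.m)).2.2.2).toNat /
          (2 ^ lam * K.m))),
        (z + sh (mac K (q, ut / K.β, z % K.m)).2.1 (mac K (q, ut / K.β, z % K.m)).2.2.2).toNat %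
          (2 ^ lam * K.m) / K.m)

/-- the low part `ε` in the tight case -/
def epsG (K : MK Q) (E : ℕ) (σ : Q × ℕ × ℕ) (w : ℕ) : ℤ :=
  (mac K σ).2.1 * (w * K.m + ((σ.2.2 : ℤ) + sh (mac K σ).2.1 (mac K σ).2.2.2) % K.m) +
    ((mac K σ).2.2.2 - (mac K σ).2.1 * sh (mac K σ).2.1 (mac K σ).2.2.2) -
    (if (mac K σ).2.1 < 0 then (mac K σ).2.1 * E else 0)

noncomputable def st2 (P : PA Q) (K : MK Q) (V B lam : ℕ) (d1 : S1 K V) (f : S2 K V B) (w : ℕ) :
    (S1 K V × ℕ) ⊕ Bool :=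
  match f.1 with
  | Sum.inl ⟨σ, e, ρ⟩ => fin2 P K V lam d1 (mac K σ).1 (base K σ + e).toNat
      ((((ρ : ℤ) * (mac K σ).2.1.natAbs) * (2 ^ lam * K.m : ℕ) + epsG K (2 ^ lam * K.m) σ w) /
        K.β).toNat
  | Sum.inr (l, η, ut, ρ) => fin2 P K V lam d1 l.1 ut
      ((((ρ : ℤ) * V + (if η < 0 then (V : ℤ) - 1 else 0)) * (2 ^ lam * K.m : ℕ) +
        (η + (if η < 0 then ((2 ^ lam * K.m : ℕ) : ℤ) else 0))) / K.β).toNat

theorem fin2_bd (P : PA Q) (K : MK Q) (V lam : ℕ) (d1 : S1 K V) (q : Q) (ut z : ℕ) (f' w')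
    (h : fin2 P K V lam d1 q ut z = Sum.inl (f', w')) : w' < 2 ^ lam := by
  unfold fin2 at h
  split at h
  · cases h
  · split_ifs at h
    · cases h; positivity
    · cases h; positivity
    · cases h
      rw [Nat.div_lt_iff_lt_mul K.m_pos]
      exact Nat.mod_lt _ (Nat.mul_pos (by positivity) K.m_pos)

theorem st2_bd (P : PA Q) (K : MK Q) (V B lam : ℕ) (d1 : S1 K V) (f : S2 K V B) (w f' w')
    (h : st2 P K V B lam d1 f w = Sum.inl (f', w')) : w' < 2 ^ lam := by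
  unfold st2 at h
  split at h <;> exact fin2_bd _ _ _ _ _ _ _ _ _ _ h

/-- the code `(f, w, J)` represents the configuration `(q, X)` -/
def Rep (K : MK Q) (V lam n : ℕ) (f : Raw1 Q) (w J : ℕ) (q : Q) (X : ℕ) : Prop :=
  J < 2 ^ n ∧ w < 2 ^ lam ∧
  match f with
  | Sum.inl (σ, i, v) => σ.1 = q ∧ ∃ z : ℕ, K.m0 ≤ z ∧ z + K.m0 ≤ V * (2 ^ lam * K.m) ∧
      X = ((σ.2.1 * K.β + i) * 2 ^ n + J) * (V * (2 ^ lam * K.m)) + z ∧ z % K.m = σ.2.2 ∧
      (z : ℤ) + sh (mac K σ).2.1 (mac K σ).2.2.2 = v * (2 ^ lam * K.m : ℕ) +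
        (w * K.m + ((σ.2.2 : ℤ) + sh (mac K σ).2.1 (mac K σ).2.2.2) % K.m)
  | Sum.inr (q', ht, false, o) => q' = q ∧ X = (ht * 2 ^ n + J) * (V * (2 ^ lam * K.m)) + o
  | Sum.inr (q', ht, true, o) => q' = q ∧
      X + (1 + o) = (ht * 2 ^ n + J + 1) * (V * (2 ^ lam * K.m))

/-- stage 2, second half: the target is re-encoded -/
theorem fin2_rep (P : PA Q) (K : MK Q) (V lam n : ℕ) (d1 : S1 K V) (q : Q) (ut J z X : ℕ)
    (hq : P.out q = none) (hJ : J < 2 ^ n) (hz : z < V * (2 ^ lam * K.m))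
    (hX : X = (ut * 2 ^ n + J) * (V * (2 ^ lam * K.m)) + z) (hut : ut ≤ K.H0 * K.β)
    (hZ : ∀ h' : ℕ, Gen (K.β * (2 ^ n * (V * (2 ^ lam * K.m)))) K.m0 h' X →
      (q, h', X % K.m) ∈ K.Z) :
    ∃ f' w', fin2 P K V lam d1 q ut z = Sum.inl (f', w') ∧ Rep K V lam n f'.1 w' J q X := by
  have hE : 0 < 2 ^ lam * K.m := Nat.mul_pos (by positivity) K.m_pos
  unfold fin2
  rw [hq]
  simp only
  split_ifs with h1 h2
  · refine ⟨_, _, rfl, ?_⟩
    rw [toS_val _ (by simp [S1, h1]; omega)]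
    exact ⟨hJ, by positivity, rfl, hX⟩
  · refine ⟨_, _, rfl, ?_⟩
    rw [toS_val _ (by simp [S1]; omega)]
    refine ⟨hJ, by positivity, rfl, ?_⟩
    rw [hX, add_mul _ 1]; omega
  · set G := V * (2 ^ lam * K.m) with hG
    set σ : Q × ℕ × ℕ := (q, ut / K.β, z % K.m) with hσ
    set j := sh (mac K σ).2.1 (mac K σ).2.2.2 with hj
    have hjb := sh_bd (mac K σ).2.1 (mac K σ).2.2.2 K.m0 (K.γ_lt _ (K.macG_mem _ _ _))
    rw [← hj] at hjb
    have hXm : X % K.m = z % K.m := by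
      rw [hX, hG, ← mul_assoc, ← mul_assoc, Nat.mul_add_mod_self_right]
    have hud : ut / K.β * K.β + ut % K.β = ut := Nat.div_add_mod' _ _
    have hum : ut % K.β < K.β := Nat.mod_lt _ K.β_pos
    have hmem : σ ∈ K.Z := by
      rw [hσ, ← hXm]
      apply hZ
      have a1 : ut / K.β * (K.β * (2 ^ n * G)) + K.m0 ≤ X := by
        have : ut / K.β * K.β * 2 ^ n * G ≤ (ut * 2 ^ n + J) * G := by
          apply Nat.mul_le_mul_right
          have : ut / K.β * K.β * 2 ^ n ≤ ut * 2 ^ n := Nat.mul_le_mul_right _ (by omega)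
          omega
        have e : ut / K.β * (K.β * (2 ^ n * G)) = ut / K.β * K.β * 2 ^ n * G := by ring
        omega
      have a2 : X + K.m0 ≤ (ut / K.β + 1) * (K.β * (2 ^ n * G)) := by
        have : (ut * 2 ^ n + J + 1) * G ≤ (ut / K.β * K.β + K.β) * 2 ^ n * G := by
          apply Nat.mul_le_mul_right
          have : (ut + 1) * 2 ^ n ≤ (ut / K.β * K.β + K.β) * 2 ^ n :=
            Nat.mul_le_mul_right _ (by omega)
          rw [add_mul] at this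
          omega
        have e : (ut / K.β + 1) * (K.β * (2 ^ n * G)) = (ut / K.β * K.β + K.β) * 2 ^ n * G := by
          ring
        rw [add_mul _ 1] at this
        omega
      constructor
      · exact_mod_cast a1
      · exact_mod_cast a2
    have hz0 : (0 : ℤ) ≤ z + j := by omega
    obtain ⟨y, hy⟩ : ∃ y : ℕ, (y : ℤ) = z + j := ⟨_, Int.toNat_of_nonneg hz0⟩
    have hy' : ((z : ℤ) + j).toNat = y := by omega
    have hyG : y < G := by omega
    refine ⟨_, _, rfl, ?_⟩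
    rw [hy', toS_val _ (by
      simp only [S1, Finset.inl_mem_disjSum, Finset.mem_product, Finset.mem_range]
      exact ⟨hmem, hum, by rw [Nat.div_lt_iff_lt_mul hE]; exact hyG⟩)]
    refine ⟨hJ, ?_, rfl, z, by omega, by omega, ?_, rfl, ?_⟩
    · rw [Nat.div_lt_iff_lt_mul K.m_pos]; exact Nat.mod_lt _ hE
    · simp only [hσ]; rw [hud]; exact hX
    · rw [← hj, ← hy]
      have e1 : y / (2 ^ lam * K.m) * (2 ^ lam * K.m) + y % (2 ^ lam * K.m) = y :=
        Nat.div_add_mod' _ _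
      have e2 : y % (2 ^ lam * K.m) / K.m * K.m + y % (2 ^ lam * K.m) % K.m =
          y % (2 ^ lam * K.m) := Nat.div_add_mod' _ _
      have e3 : y % (2 ^ lam * K.m) % K.m = y % K.m := Nat.mod_mod_of_dvd _ (Dvd.intro_left _ rfl)
      have e4 : ((σ.2.2 : ℤ) + j) % K.m = ((y % K.m : ℕ) : ℤ) := by
        simp only [hσ]; push_cast; rw [hy, Int.emod_add_emod]
      rw [e4]
      have : y = y / (2 ^ lam * K.m) * (2 ^ lam * K.m) +
          (y % (2 ^ lam * K.m) / K.m * K.m + y % K.m) := by omega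
      exact_mod_cast this

end Ar

end Pool.Agent.MP_47ff19_lc.H6P
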