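import Pool.Agent.MP_47ff19_lc.H6P.ArithB

/-! One macro step of the numeric machine. -/

namespace Pool.Agent.MP_47ff19_lc.H6P

open Relation

namespace Ar

theorem loose (β V E : ℕ) (hβ : 0 < β) (hV : 0 < V) (T T' η : ℤ) (X' : ℕ)
    (hT : T = V * T' + (if η < 0 then -1 else 0)) (h : (β : ℤ) * X' = V * T' * E + η)
    (hη : |η| < E) :
    ∃ u z : ℕ, (u : ℤ) = T / (β * V) ∧
      ((((T % (β * V) / V).toNat : ℤ) * V + (if η < 0 then (V : ℤ) - 1 else 0)) * E +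
        (η + (if η < 0 then (E : ℤ) else 0))) / β = z ∧ z < V * E ∧ X' = u * (V * E) + z ∧
      (T % (β * V) / V).toNat < β := by
  have hβ' : (0 : ℤ) < β := by exact_mod_cast hβ
  have hV' : (0 : ℤ) < V := by exact_mod_cast hV
  have hd : (0 : ℤ) < β * V := mul_pos hβ' hV'
  have hr0 : 0 ≤ T % (β * V) := Int.emod_nonneg _ hd.ne'
  have hr1 : T % (β * V) < β * V := Int.emod_lt_of_pos _ hd
  have hη' := abs_lt.1 hη
  have hmod : T % (β * V) % V = if η < 0 then (V : ℤ) - 1 else 0 := by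
    rw [Int.emod_emod_of_dvd _ (Dvd.intro_left _ rfl), hT]
    split_ifs
    · have : (V : ℤ) * T' + -1 = (V - 1) + V * (T' - 1) := by ring
      rw [this, Int.add_mul_emod_self_left, Int.emod_eq_of_lt (by omega) (by omega)]
    · simp
  have hq0 : 0 ≤ T % (β * V) / V := Int.ediv_nonneg hr0 hV'.le
  have hdec : T % (β * V) / V * V + T % (β * V) % V = T % (β * V) := by
    have := Int.mul_ediv_add_emod (T % (β * V)) V; linarith
  obtain ⟨u, z, hu, hz, hz1, hX⟩ := core β V E hβ T (η + (if η < 0 then (E : ℤ) else 0)) X'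
    (by rw [h, hT]; split_ifs <;> ring) (by split_ifs <;> omega) hV
    (by
      have : η + (if η < 0 then (E : ℤ) else 0) < E := by split_ifs <;> omega
      have hE : (0 : ℤ) ≤ E := by positivity
      nlinarith)
  refine ⟨u, z, hu, ?_, hz1, hX, ?_⟩
  · rw [Int.toNat_of_nonneg hq0, ← hmod, hdec, hz]
  · have : T % (β * V) / V < β := by rw [Int.ediv_lt_iff_lt_mul hV']; exact hr1
    omega

theorem tight (β V E : ℕ) (hβ : 0 < β) (hV : 0 < V) (α T ε : ℤ) (X' : ℕ) (hα : α ≠ 0)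
    (hs : α.natAbs ∣ V) (hT : (α.natAbs : ℤ) ∣ T) (h : (β : ℤ) * X' = T * E + ε) (h0 : 0 ≤ ε)
    (h1 : ε < α.natAbs * E) :
    ∃ u z : ℕ, (u : ℤ) = T / (β * V) ∧
      ((((T % (β * V) / α.natAbs).toNat : ℤ) * α.natAbs) * E + ε) / β = z ∧ z < V * E ∧
      X' = u * (V * E) + z ∧ (T % (β * V) / α.natAbs).toNat < β * V / α.natAbs := by
  have hβ' : (0 : ℤ) < β := by exact_mod_cast hβ
  have hV' : (0 : ℤ) < V := by exact_mod_cast hV
  have hd : (0 : ℤ) < β * V := mul_pos hβ' hV'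
  have hr0 : 0 ≤ T % (β * V) := Int.emod_nonneg _ hd.ne'
  have hr1 : T % (β * V) < β * V := Int.emod_lt_of_pos _ hd
  obtain ⟨s, hs'⟩ : ∃ s : ℕ, s = α.natAbs := ⟨_, rfl⟩
  rw [← hs'] at hs hT h1 ⊢
  have s0 : 0 < s := by rw [hs']; exact Int.natAbs_pos.2 hα
  have s0' : (0 : ℤ) < s := by exact_mod_cast s0
  obtain ⟨W, hW⟩ := hs
  have hdv : (s : ℤ) ∣ β * V := by rw [hW]; push_cast; exact Dvd.intro (β * W) (by ring)
  have hr : (s : ℤ) ∣ T % (β * V) := by
    rw [Int.emod_def]; exact dvd_sub hT (Dvd.dvd.mul_right hdv _)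
  obtain ⟨ρ, hρ⟩ := hr
  have hρ' : T % (β * V) / s = ρ := by rw [hρ]; exact Int.mul_ediv_cancel_left _ s0'.ne'
  have hρ0 : 0 ≤ ρ := by rw [← hρ']; exact Int.ediv_nonneg hr0 s0'.le
  have hρ1 : ρ < β * W := by
    have : (s : ℤ) * ρ < s * (β * W) := by
      rw [← hρ]; rw [hW] at hr1 ⊢; push_cast at hr1 ⊢; linarith
    exact lt_of_mul_lt_mul_left this s0'.le
  obtain ⟨u, z, hu, hz, hz1, hX⟩ := core β V E hβ T ε X' h h0 hV
    (by
      have hE : (0 : ℤ) ≤ E := by positivity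
      have e : (β : ℤ) * V * E = s * (β * W) * E := by rw [hW]; push_cast; ring
      have : (s : ℤ) * (ρ + 1) * E ≤ s * (β * W) * E :=
        mul_le_mul_of_nonneg_right (mul_le_mul_of_nonneg_left (by omega) s0'.le) hE
      rw [hρ, e]; linarith)
  refine ⟨u, z, hu, ?_, hz1, hX, ?_⟩
  · rw [hρ', Int.toNat_of_nonneg hρ0, hz, hρ, mul_comm ρ]
  · rw [hρ']
    have : β * V / s = β * W := by
      rw [hW, show β * (s * W) = s * (β * W) by ring]; exact Nat.mul_div_cancel_left _ s0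
    rw [this]; zify; rw [Int.toNat_of_nonneg hρ0]; exact hρ1

theorem split_u (u n : ℕ) (t : ℤ) (h : (u : ℤ) = t) :
    t / 2 ^ n = (u / 2 ^ n : ℕ) ∧ (t % 2 ^ n).toNat = u % 2 ^ n := by
  subst h
  constructor
  · push_cast; rfl
  · have : (u : ℤ) % 2 ^ n = ((u % 2 ^ n : ℕ) : ℤ) := by push_cast; rfl
    rw [this, Int.toNat_natCast]

theorem ut_le (H U G u z X : ℕ) (hU : 0 < U) (hG : 2 ≤ G) (hX : X = u * G + z)
    (h : X ≤ H * (U * G) + 1) : u / U ≤ H := by
  rw [← Nat.lt_succ_iff, Nat.div_lt_iff_lt_mul hU]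
  by_contra hc
  have h1 : (H + 1) * U * G ≤ u * G := Nat.mul_le_mul_right _ (by simpa using hc)
  have h2 : 1 * G ≤ U * G := Nat.mul_le_mul_right _ hU
  have e : (H + 1) * U * G = H * (U * G) + U * G := by ring
  omega

theorem tight_data (α a γ j y T : ℤ) (β V E U H0 h i J v X z0 X' : ℕ) (hα : α ≠ 0)
    (g1 : 0 < α → 0 ≤ γ - α * j ∧ γ - α * j < α) (g2 : α < 0 → α ≤ γ - α * j ∧ γ - α * j < 0)
    (y0 : 0 ≤ y) (y1 : y < E) (hX : X = ((h * β + i) * U + J) * (V * E) + z0)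
    (hz : (z0 : ℤ) + j = v * E + y) (hi : i < β) (hJ : J < U) (hv : v < V)
    (hX' : (β : ℤ) * X' = α * X + a * ((H0 * β * (U * (V * E)) : ℕ) : ℤ) + γ)
    (hT : T = α * V * J + (α * ((h * β + i : ℕ) : ℤ) + a * (H0 * β)) * V * U +
      (α * v + if α < 0 then α else 0)) (hs : α.natAbs ∣ V) :
    (β : ℤ) * X' = T * E + (α * y + (γ - α * j) - if α < 0 then α * E else 0) ∧
    0 ≤ (α * y + (γ - α * j) - if α < 0 then α * E else 0) ∧
    (α * y + (γ - α * j) - if α < 0 then α * E else 0) < α.natAbs * E ∧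
    (α.natAbs : ℤ) ∣ T ∧
    (α * h + a * H0 + if α < 0 then α else 0) * (β * V * U) ≤ T ∧
    T < ((α * h + a * H0 + if α < 0 then α else 0) + α.natAbs) * (β * V * U) := by
  obtain ⟨Ω, hΩ⟩ : ∃ Ω : ℕ, Ω = (i * U + J) * V + v := ⟨_, rfl⟩
  have hΩ1 : Ω + 1 ≤ β * V * U := by
    have a1 : (i + 1) * U ≤ β * U := Nat.mul_le_mul_right _ hi
    have a2 : (i * U + J + 1) * V ≤ β * U * V :=
      Nat.mul_le_mul_right _ (by rw [add_mul] at a1; omega)
    have e : β * V * U = β * U * V := by ring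
    rw [add_mul _ 1] at a2
    omega
  have hΩ1' : (Ω : ℤ) + 1 ≤ β * V * U := by exact_mod_cast hΩ1
  have hΩ0 : (0 : ℤ) ≤ Ω := by positivity
  have hT' : T = (α * h + a * H0) * (β * V * U) + α * Ω + if α < 0 then α else 0 := by
    rw [hT, hΩ]; push_cast; ring
  have hz' : (z0 : ℤ) = v * E + y - j := by linarith
  have hs' : (α.natAbs : ℤ) ∣ V := by exact_mod_cast hs
  have ha : (α.natAbs : ℤ) ∣ α := Int.natAbs_dvd.2 dvd_rfl
  refine ⟨?_, ?_, ?_, ?_, ?_, ?_⟩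
  · rw [hX', hT, hX]; push_cast; rw [hz']; split_ifs <;> ring
  · split_ifs with h1
    · have := g2 h1; nlinarith
    · have := g1 (by omega); have : 0 ≤ α * y := mul_nonneg (by omega) y0; linarith
  · split_ifs with h1
    · have := g2 h1
      rw [Int.natCast_natAbs, abs_of_neg h1]; nlinarith
    · have := g1 (by omega)
      rw [Int.natCast_natAbs, abs_of_nonneg (by omega)]; nlinarith
  · rw [hT']
    refine dvd_add (dvd_add ?_ (Dvd.dvd.mul_right ha _)) (by split_ifs; exacts [ha, dvd_zero _])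
    exact Dvd.dvd.mul_left (Dvd.dvd.mul_right (Dvd.dvd.mul_left hs' _) _) _
  · rw [hT']
    split_ifs with h1
    · nlinarith
    · have : 0 ≤ α * Ω := mul_nonneg (by omega) hΩ0
      linarith
  · rw [hT']
    split_ifs with h1
    · rw [Int.natCast_natAbs, abs_of_neg h1]; nlinarith
    · rw [Int.natCast_natAbs, abs_of_nonneg (by omega)]
      have : 0 < α := by omega
      nlinarith

variable {Q : Type} [Fintype Q]

theorem step (P : PA Q) (K : MK Q) (V B lam n : ℕ) (hV : 0 < V)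
    (hα : ∀ l ∈ K.Tt, l.2.1 ≠ 0 → l.2.1.natAbs ∣ V)
    (hB : ∀ l ∈ K.Tt, |l.2.1| * K.m0 + K.m0 ≤ B) (hE : B < 2 ^ lam * K.m)
    (hG : 2 ≤ V * (2 ^ lam * K.m))
    (d1 : S1 K V) (d2 : S2 K V B) (f : S1 K V) (w J : ℕ) (q : Q) (X X' : ℕ) (l : Lab Q)
    (hrep : Rep K V lam n f.1 w J q X)
    (hl : l = lab1 K f.1 (decide (J = 0)) (decide (J + 1 = 2 ^ n))) (hlT : l ∈ K.Tt)
    (hX' : (K.β : ℤ) * X' = l.2.1 * X +
      l.2.2.1 * ((K.H0 * K.β * (2 ^ n * (V * (2 ^ lam * K.m))) : ℕ) : ℤ) + l.2.2.2)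
    (hle : X' ≤ K.H0 * K.β * (2 ^ n * (V * (2 ^ lam * K.m))) + 1) :
    ∃ ut z : ℕ, z < V * (2 ^ lam * K.m) ∧ ut ≤ K.H0 * K.β ∧
      (nm K V B hV d2).J2 n f J < 2 ^ n ∧
      X' = (ut * 2 ^ n + (nm K V B hV d2).J2 n f J) * (V * (2 ^ lam * K.m)) + z ∧
      st2 P K V B lam d1 ((nm K V B hV d2).f2 n f J) w = fin2 P K V lam d1 l.1 ut z := by
  obtain ⟨E, hEd⟩ : ∃ E : ℕ, E = 2 ^ lam * K.m := ⟨_, rfl⟩
  have hU : 0 < 2 ^ n := by positivity
  have hTd : (nm K V B hV d2).T n f J = l.2.1 * V * J +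
      (l.2.1 * cell1 K f.1 + l.2.2.1 * (K.H0 * K.β)) * V * 2 ^ n + b0 V l f.1 := by
    rw [hl]; rfl
  have hdd : (nm K V B hV d2).d n f J = K.β * V := rfl
  have hf2 : (nm K V B hV d2).f2 n f J = toS _ d2 (out2 K V l f.1
      ((nm K V B hV d2).T n f J / (K.β * V) / 2 ^ n) ((nm K V B hV d2).T n f J % (K.β * V))) := by
    rw [hl]; rfl
  have hJ2 : (nm K V B hV d2).J2 n f J = ((nm K V B hV d2).T n f J / (K.β * V) % 2 ^ n).toNat :=
    rfl
  generalize (nm K V B hV d2).T n f J = T at hTd hf2 hJ2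
  rw [hf2, hJ2]
  have hγ := abs_lt.1 (K.γ_lt l hlT)
  have hBl := hB l hlT
  have hm0 : (0 : ℤ) ≤ |l.2.1| * K.m0 := by positivity
  -- the loose cases
  have key : ∀ T' : ℤ, out2 K V l f.1 (T / (K.β * V) / 2 ^ n) (T % (K.β * V)) =
        Sum.inr (l, eta l f.1, (T / (K.β * V) / 2 ^ n).toNat, (T % (K.β * V) / V).toNat) →
      T = V * T' + (if eta l f.1 < 0 then -1 else 0) →
      (K.β : ℤ) * X' = V * T' * E + eta l f.1 → |eta l f.1| ≤ B →
      ∃ ut z : ℕ, z < V * (2 ^ lam * K.m) ∧ ut ≤ K.H0 * K.β ∧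
        (T / (K.β * V) % 2 ^ n).toNat < 2 ^ n ∧
        X' = (ut * 2 ^ n + (T / (K.β * V) % 2 ^ n).toNat) * (V * (2 ^ lam * K.m)) + z ∧
        st2 P K V B lam d1 (toS _ d2 (out2 K V l f.1 (T / (K.β * V) / 2 ^ n) (T % (K.β * V)))) w =
          fin2 P K V lam d1 l.1 ut z := by
    intro T' ho h1 h2 h3
    obtain ⟨u, z, hu, hz, hz1, hX, hρ⟩ := loose K.β V E K.β_pos hV T T' _ X' h1 h2
      (by rw [hEd]; exact lt_of_le_of_lt h3 (by exact_mod_cast hE))
    obtain ⟨s1, s2⟩ := split_u u n _ hu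
    rw [hEd] at hz hz1 hX
    have hut := ut_le _ _ _ _ _ _ hU hG hX hle
    refine ⟨u / 2 ^ n, z, hz1, hut, by rw [s2]; exact Nat.mod_lt _ hU, ?_, ?_⟩
    · rw [s2, Nat.div_add_mod']; exact hX
    · unfold st2
      rw [ho, toS_val _ (by
        simp only [S2, Finset.inr_mem_disjSum, Finset.mem_product, Finset.mem_range,
          Finset.mem_Icc]
        rw [s1, Int.toNat_natCast]
        exact ⟨hlT, abs_le.1 h3, by omega, hρ⟩)]
      simp only
      rw [hz, s1, Int.toNat_natCast, Int.toNat_natCast]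
  obtain ⟨fv, hf⟩ := f
  obtain ⟨hJ, hw, hrep⟩ := hrep
  rw [← hEd] at hX'
  rcases fv with ⟨σ, i, v⟩ | ⟨q', ht, side, o⟩
  · simp only [S1, Finset.inl_mem_disjSum, Finset.mem_product, Finset.mem_range] at hf
    obtain ⟨hσ, hi, hv⟩ := hf
    obtain ⟨-, z0, hz0, hz1, hX, hzm, hzj⟩ := hrep
    have hl' : mac K σ = l := by rw [hl]; rfl
    rw [← hEd] at hX hz1 hzj
    by_cases h0 : l.2.1 = 0
    · apply key (l.2.2.1 * (K.H0 * K.β) * 2 ^ n)
      · simp only [out2, h0, if_true]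
      · rw [hTd]; simp only [b0, eta, h0, if_true, zero_mul, zero_add]; congr 1; ring
      · rw [hX']; simp only [eta, h0]; push_cast; ring
      · simp only [eta]; rw [abs_le]; constructor <;> linarith
    · rw [hl'] at hzj
      have hm : (0 : ℤ) < K.m := by exact_mod_cast K.m_pos
      have l0 := Int.emod_nonneg ((σ.2.2 : ℤ) + sh l.2.1 l.2.2.2) hm.ne'
      have l1 := Int.emod_lt_of_pos ((σ.2.2 : ℤ) + sh l.2.1 l.2.2.2) hm
      have hwE : ((w : ℤ) + 1) * K.m ≤ E := by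
        rw [hEd]; exact_mod_cast Nat.mul_le_mul_right _ hw
      have hw0 : (0 : ℤ) ≤ w * K.m := by positivity
      have heps : epsG K E σ w = l.2.1 * (w * K.m + ((σ.2.2 : ℤ) + sh l.2.1 l.2.2.2) % K.m) +
          (l.2.2.2 - l.2.1 * sh l.2.1 l.2.2.2) - (if l.2.1 < 0 then l.2.1 * E else 0) := by
        unfold epsG; rw [hl']
      have hbase : base K σ = l.2.1 * σ.2.1 + l.2.2.1 * K.H0 + (if l.2.1 < 0 then l.2.1 else 0) := by
        unfold base; rw [hl']
      obtain ⟨t1, t2, t3, t4, t5, t6⟩ := tight_data l.2.1 l.2.2.1 l.2.2.2 (sh l.2.1 l.2.2.2)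
        (w * K.m + ((σ.2.2 : ℤ) + sh l.2.1 l.2.2.2) % K.m) T K.β V E (2 ^ n) K.H0 σ.2.1 i J v X z0
        X' h0 (sh_pos _ _) (sh_neg _ _) (by linarith) (by linarith) hX hzj hi hJ hv hX'
        (by rw [hTd]; simp only [b0, cell1, h0, if_false]; push_cast; ring) (hα l hlT h0)
      rw [← heps] at t1 t2 t3
      rw [← hbase] at t5 t6
      obtain ⟨u, z, hu, hz, hz1', hXu, hρ⟩ := tight K.β V E K.β_pos hV l.2.1 T _ X' h0
        (hα l hlT h0) t4 t1 t2 t3
      obtain ⟨s1, s2⟩ := split_u u n _ hu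
      have hβ' : (0 : ℤ) < K.β := by exact_mod_cast K.β_pos
      have hV' : (0 : ℤ) < V := by exact_mod_cast hV
      obtain ⟨r1, r2⟩ := quot_rng T (K.β * V) (2 ^ n) (base K σ) l.2.1.natAbs (mul_pos hβ' hV')
        (by positivity) (by exact_mod_cast t5) (by exact_mod_cast t6)
      rw [hEd] at hz hz1' hXu
      have hut := ut_le _ _ _ _ _ _ hU hG hXu hle
      refine ⟨u / 2 ^ n, z, hz1', hut, by rw [s2]; exact Nat.mod_lt _ hU, ?_, ?_⟩
      · rw [s2, Nat.div_add_mod']; exact hXu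
      · unfold st2
        simp only [out2, h0, if_false]
        rw [toS_val _ (by
          simp only [S2, Finset.inl_mem_disjSum, Finset.mem_sigma, Finset.mem_product,
            Finset.mem_range, hl']
          exact ⟨hσ, by omega, hρ⟩)]
        simp only [hl']
        rw [hz, Int.toNat_natCast]
        have e : base K σ + ((T / (K.β * V) / 2 ^ n - base K σ).toNat : ℤ) = (u / 2 ^ n : ℕ) := by
          rw [Int.toNat_of_nonneg (by linarith), ← s1]; ring
        rw [e, Int.toNat_natCast]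
  · simp only [S1, Finset.inr_mem_disjSum, Finset.mem_product, Finset.mem_range] at hf
    have ho : (o : ℤ) + 1 ≤ K.m0 := by exact_mod_cast hf.2.2.2
    have ho0 : (0 : ℤ) ≤ o := by positivity
    have ha0 := abs_nonneg l.2.1
    have ha1 := le_abs_self l.2.1
    have ha2 := neg_abs_le l.2.1
    cases side
    · obtain ⟨-, hX⟩ := hrep
      rw [← hEd] at hX
      apply key (l.2.1 * ((ht : ℤ) * 2 ^ n + J) + l.2.2.1 * (K.H0 * K.β) * 2 ^ n)
      · rfl
      · rw [hTd]; simp only [b0, cell1]; ring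
      · rw [hX', hX]; simp only [eta]; push_cast; ring
      · simp only [eta]; rw [abs_le]; constructor <;> nlinarith
    · obtain ⟨-, hX⟩ := hrep
      rw [← hEd] at hX
      have hXz : (X : ℤ) = ((ht : ℤ) * 2 ^ n + J + 1) * (V * E) - (1 + o) := by
        have : ((X + (1 + o) : ℕ) : ℤ) = ((ht * 2 ^ n + J + 1) * (V * E) : ℕ) := by rw [hX]
        push_cast at this; linarith
      apply key (l.2.1 * ((ht : ℤ) * 2 ^ n + J + 1) + l.2.2.1 * (K.H0 * K.β) * 2 ^ n)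
      · rfl
      · rw [hTd]; simp only [b0, cell1]; ring
      · rw [hX', hXz]; simp only [eta]; push_cast; ring
      · simp only [eta]; rw [abs_le]; constructor <;> nlinarith

end Ar

end Pool.Agent.MP_47ff19_lc.H6P
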