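import Pool.Agent.MP_47ff19_lc.H6P.CtlB

namespace Pool.Agent.MP_47ff19_lc.H6P

open Relation

section kit

variable {K G : Type} {T : Table K G} {smax N L : ℕ}

theorem BHalts.pre {c c' : K × List (Option G) × ℕ} {b : Bool}
    (h : ReflTransGen (BStep T smax N) c c') (h' : BHalts T smax N c' b) : BHalts T smax N c b := by
  obtain ⟨μ, σ, r, R, h1, h2⟩ := h'
  exact ⟨μ, σ, r, R, h.trans h1, h2⟩

/-- reading bits into the counter -/
theorem ctl_read (hN : 2 ^ (L + 2) ≤ N) {μ : K} {ν : ℕ} (hs : 2 ^ (ν + 1) ≤ smax)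
    (hT : ∀ v b e top, v.length < ν →
      T μ (reg v) b e top = Sum.inl (μ, reg (b :: v), MOp.keep, ROp.pop))
    {s : List (Option G)} (h2 : s.head? ≠ some none) (l w : List Bool) :
    ∀ v : List Bool, v.length + w.length ≤ ν → 2 ^ (ν + 1) + w.length + l.length ≤ L →
      ReflTransGen (BStep T smax N) (μ, List.replicate (reg v) none ++ s, reg (w ++ l))
        (μ, List.replicate (reg (w.reverse ++ v)) none ++ s, reg l) := by
  induction w with
  | nil => intro v _ _; exact ReflTransGen.refl
  | cons b w ih =>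
    intro v h1 h3
    simp only [List.length_cons] at h1 h3
    have b1 : reg v < 2 ^ (ν + 1) :=
      (reg_lt v).trans_le (Nat.pow_le_pow_right two_pos (by omega))
    have b2 : reg (b :: v) < 2 ^ (ν + 1) :=
      (reg_lt _).trans_le (Nat.pow_le_pow_right two_pos (by simp only [List.length_cons]; omega))
    have e : T.at μ (reg v) s (reg (b :: (w ++ l))) =
        Sum.inl (μ, reg (b :: v), MOp.keep, ROp.pop) := by
      unfold Table.at
      rw [reg_bit, hT _ _ _ _ (by omega)]
    have st := step1 hN e h2 (show reg v < smax by omega)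
      (by simp only [List.length_cons, List.length_append]; omega)
      (by simp only [List.length_cons, List.length_append]; omega)
    simp only [MOp.app, ROp.app, reg_div] at st
    simp only [List.reverse_cons, List.append_assoc, List.singleton_append]
    exact ReflTransGen.head st (ih (b :: v) (by simp only [List.length_cons]; omega) (by omega))

/-- writing the counter into the register -/
theorem ctl_write (hN : 2 ^ (L + 2) ≤ N) {μ : K} {ν : ℕ} (hs : 2 ^ (ν + 1) ≤ smax)
    (hT : ∀ b' v b e top, T μ (reg (b' :: v)) b e top = Sum.inl (μ, reg v, MOp.keep, ROp.push b'))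
    {s : List (Option G)} (h2 : s.head? ≠ some none) (v : List Bool) :
    ∀ l : List Bool, v.length ≤ ν → 2 ^ (ν + 1) + v.length + l.length ≤ L →
      ReflTransGen (BStep T smax N) (μ, List.replicate (reg v) none ++ s, reg l)
        (μ, List.replicate (reg []) none ++ s, reg (v.reverse ++ l)) := by
  induction v with
  | nil => intro l _ _; exact ReflTransGen.refl
  | cons b v ih =>
    intro l h1 h3
    have b2 : reg (b :: v) < 2 ^ (ν + 1) :=
      (reg_lt _).trans_le (Nat.pow_le_pow_right two_pos (by omega))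
    simp only [List.length_cons] at h1 h3
    have b1 : reg v < 2 ^ (ν + 1) :=
      (reg_lt v).trans_le (Nat.pow_le_pow_right two_pos (by omega))
    have e : T.at μ (reg (b :: v)) s (reg l) = Sum.inl (μ, reg v, MOp.keep, ROp.push b) :=
      hT _ _ _ _ _
    have st := step1 (smax := smax) hN e h2 (by omega) (by omega) (by omega)
    simp only [List.reverse_cons, List.append_assoc, List.singleton_append]
    exact ReflTransGen.head st (ih (b :: l) (by omega) (by simp only [List.length_cons]; omega))

theorem pass_length {Sg : Type} (d : Sg → Bool → Sg × Bool) (l : List Bool) :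
    ∀ s, (pass d s l).2.length = l.length := by
  induction l with
  | nil => intro s; rfl
  | cons b l ih => intro s; simp only [pass, List.length_cons, ih]

/-- a pass from the register to the stack -/
theorem ctl_lpass (hN : 2 ^ (L + 2) ≤ N) {μ : K} {Sg : Type} {d : Sg → Bool → Sg × Bool}
    {e : Sg → ℕ} {jj : Bool → G} {lam : ℕ} (he : ∀ s, e s < lam) (hs : lam ≤ smax)
    (hT : ∀ s b top, T μ (e s) b false top =
      Sum.inl (μ, e (d s b).1, MOp.push (jj (d s b).2), ROp.pop)) (J : List Bool) :
    ∀ (s : Sg) (st : List (Option G)), st.head? ≠ some none → lam + J.length ≤ L →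
      ReflTransGen (BStep T smax N) (μ, List.replicate (e s) none ++ st, reg J)
        (μ, List.replicate (e (pass d s J).1) none ++
          ((pass d s J).2.reverse.map (fun b => some (jj b)) ++ st), reg []) := by
  induction J with
  | nil => intro s st _ _; exact ReflTransGen.refl
  | cons b J ih =>
    intro s st h2 h3
    have b1 := he s
    have b2 := he (d s b).1
    have e1 : T.at μ (e s) st (reg (b :: J)) =
        Sum.inl (μ, e (d s b).1, MOp.push (jj (d s b).2), ROp.pop) := by
      unfold Table.at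
      rw [reg_bit, reg_end_cons, hT]
    have s1 := step1 (smax := smax) hN e1 h2 (by omega) (by omega) (by omega)
    simp only [List.length_cons] at h3
    simp only [MOp.app, ROp.app, reg_div] at s1
    simp only [pass, List.reverse_cons, List.map_append, List.map_cons, List.map_nil,
      List.append_assoc, List.singleton_append]
    exact ReflTransGen.head s1 (ih (d s b).1 (some (jj (d s b).2) :: st) (by simp) (by omega))

/-- a pass from the stack to the register -/
theorem ctl_rpass (hN : 2 ^ (L + 2) ≤ N) {μ : K} {Sg : Type} {d : Sg → Bool → Sg × Bool}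
    {e : Sg → ℕ} {jj : Bool → G} {lam : ℕ} (he : ∀ s, e s < lam) (hs : lam ≤ smax)
    (hT : ∀ s b b' en, T μ (e s) b' en (some (jj b)) =
      Sum.inl (μ, e (d s b).1, MOp.pop, ROp.push (d s b).2)) (st : List (Option G))
    (v : List Bool) : ∀ (s : Sg) (l : List Bool), lam + v.length + l.length ≤ L →
      ReflTransGen (BStep T smax N)
        (μ, List.replicate (e s) none ++ (v.map (fun b => some (jj b)) ++ st), reg l)
        (μ, List.replicate (e (pass d s v).1) none ++ st, reg ((pass d s v).2.reverse ++ l)) := by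
  induction v with
  | nil => intro s l _; exact ReflTransGen.refl
  | cons b v ih =>
    intro s l h3
    have b1 := he s
    have b2 := he (d s b).1
    simp only [List.length_cons] at h3
    have e1 : T.at μ (e s) (some (jj b) :: (v.map (fun b => some (jj b)) ++ st)) (reg l) =
        Sum.inl (μ, e (d s b).1, MOp.pop, ROp.push (d s b).2) := hT _ _ _ _
    have s1 := step1 (smax := smax) hN e1 (by simp) (by omega) (by omega) (by omega)
    simp only [pass, List.reverse_cons, List.append_assoc, List.singleton_append]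
    exact ReflTransGen.head s1
      (ih (d s b).1 ((d s b).2 :: l) (by simp only [List.length_cons]; omega))

end kit

/-- modes of the start and of stage 1 -/
inductive M1 where
  | s0 | s1 | s2 | p1 | rd | lp | rp | wr | up
  deriving DecidableEq, Fintype

/-- stack symbols of the start and of stage 1 -/
inductive S1 where
  | z | pk (b : Bool) | jj (b : Bool)
  deriving DecidableEq, Fintype

/-- the table of the start and of stage 1 -/
noncomputable def tab1 {K2 G2 F1 F2 Sg : Type} (kin : K2) (C : CM F1 F2 Sg) (c0 lam ν1 : ℕ)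
    (blk : List Bool) (d1 : List Bool → F1) (c2 : F2 → List Bool) (e : Sg → ℕ) (dS : ℕ → Sg) :
    M1 → ℕ → Bool → Bool → Option (S1 ⊕ G2) →
      ((M1 ⊕ K2) × ℕ × MOp (S1 ⊕ G2) × ROp) ⊕ Bool
  | M1.s0, σ, _, _, _ =>
    if σ < c0 then Sum.inl (Sum.inl M1.s0, σ + 1, MOp.pop, ROp.keep)
    else Sum.inl (Sum.inl M1.s1, 0, MOp.keep, ROp.push true)
  | M1.s1, _, _, _, top =>
    match top with
    | some _ => Sum.inl (Sum.inl M1.s1, 0, MOp.pop, ROp.push false)
    | none => Sum.inl (Sum.inl M1.s2, blk.length, MOp.keep, ROp.keep)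
  | M1.s2, σ, _, _, _ =>
    match σ with
    | 0 => Sum.inl (Sum.inl M1.p1, 0, MOp.keep, ROp.keep)
    | i + 1 => Sum.inl (Sum.inl M1.s2, i, MOp.keep, ROp.push (blk.getD i false))
  | M1.p1, σ, b, _, _ =>
    if σ < lam then Sum.inl (Sum.inl M1.p1, σ + 1, MOp.push (Sum.inl (S1.pk b)), ROp.pop)
    else Sum.inl (Sum.inl M1.rd, reg [], MOp.keep, ROp.keep)
  | M1.rd, σ, b, _, _ =>
    if (unreg σ).length < ν1 then Sum.inl (Sum.inl M1.rd, reg (b :: unreg σ), MOp.keep, ROp.pop)
    else Sum.inl (Sum.inl M1.lp, e (C.init (d1 (unreg σ).reverse)), MOp.keep, ROp.keep)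
  | M1.lp, σ, b, en, _ =>
    match en with
    | false => Sum.inl (Sum.inl M1.lp, e (C.dL (dS σ) b).1,
        MOp.push (Sum.inl (S1.jj (C.dL (dS σ) b).2)), ROp.pop)
    | true => Sum.inl (Sum.inl M1.rp, e (C.mid (dS σ)), MOp.keep, ROp.keep)
  | M1.rp, σ, _, _, top =>
    match top with
    | some (Sum.inl (S1.jj b)) =>
      Sum.inl (Sum.inl M1.rp, e (C.dR (dS σ) b).1, MOp.pop, ROp.push (C.dR (dS σ) b).2)
    | _ => match C.fin (dS σ) with
      | Sum.inl s => Sum.inl (Sum.inl M1.lp, e s, MOp.keep, ROp.keep)
      | Sum.inr f => Sum.inl (Sum.inl M1.wr, reg (c2 f).reverse, MOp.keep, ROp.keep)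
  | M1.wr, σ, _, _, _ =>
    match unreg σ with
    | [] => Sum.inl (Sum.inl M1.up, 0, MOp.keep, ROp.keep)
    | b :: l => Sum.inl (Sum.inl M1.wr, reg l, MOp.keep, ROp.push b)
  | M1.up, _, _, _, top =>
    match top with
    | some (Sum.inl (S1.pk b)) => Sum.inl (Sum.inl M1.up, 0, MOp.pop, ROp.push b)
    | _ => Sum.inl (Sum.inr kin, 0, MOp.keep, ROp.keep)

section run

variable {K2 G2 F1 F2 Sg : Type} {kin : K2} {C : CM F1 F2 Sg} {c0 lam ν1 : ℕ}
  {blk : List Bool} {d1 : List Bool → F1} {c2 : F2 → List Bool} {e : Sg → ℕ} {dS : ℕ → Sg}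
  {T : Table (M1 ⊕ K2) (S1 ⊕ G2)} {smax N L : ℕ}

theorem ctl_start (hN : 2 ^ (L + 2) ≤ N)
    (hT : ∀ μ, T (Sum.inl μ) = tab1 kin C c0 lam ν1 blk d1 c2 e dS μ) (hc : 2 ^ (c0 + 1) ≤ N)
    (h0 : c0 < smax) (h1 : blk.length < smax) {n : ℕ} (hL : n + blk.length ≤ L) :
    ReflTransGen (BStep T smax N) (Sum.inl M1.s0, List.replicate (n + c0) (some (Sum.inl S1.z)), 0)
      (Sum.inl M1.p1, [], reg (blk ++ List.replicate n false)) := by
  have hz : ∀ m : ℕ, (List.replicate m (some (Sum.inl S1.z)) : List (Option (S1 ⊕ G2))).head? ≠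
      some none := fun m => by cases m <;> simp [List.replicate_succ]
  have room : ∀ σ, σ ≤ c0 → (2 * 0 + 1) * 2 ^ σ ≤ N := fun σ h => by
    have : 2 ^ σ ≤ 2 ^ (c0 + 1) := Nat.pow_le_pow_right two_pos (by omega)
    omega
  have a : ∀ i j, i + j = c0 → ReflTransGen (BStep T smax N)
      (Sum.inl M1.s0, List.replicate j none ++ List.replicate (n + i) (some (Sum.inl S1.z)), 0)
      (Sum.inl M1.s1, List.replicate n (some (Sum.inl S1.z)), reg []) := by
    intro i
    induction i with
    | zero =>
      intro j hj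
      refine ReflTransGen.single ⟨j, _, Sum.inl M1.s1, 0, MOp.keep, ROp.push true, rfl, hz _,
        by omega, room _ (by omega), room _ (by omega), ?_, rfl⟩
      unfold Table.at
      rw [hT]; simp only [tab1]; rw [if_neg (by omega)]
    | succ i ih =>
      intro j hj
      refine ReflTransGen.head ⟨j, _, Sum.inl M1.s0, j + 1, MOp.pop, ROp.keep, rfl, hz _,
        by omega, room _ (by omega), room _ (by omega), ?_, rfl⟩ (ih (j + 1) (by omega))
      unfold Table.at
      rw [hT]; simp only [tab1]; rw [if_pos (by omega)]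
  have b : ∀ (m : ℕ) (l : List Bool), m + l.length + blk.length ≤ L →
      ReflTransGen (BStep T smax N)
      (Sum.inl M1.s1, List.replicate m (some (Sum.inl S1.z)), reg l)
      (Sum.inl M1.s2, List.replicate blk.length none ++ [], reg (List.replicate m false ++ l)) := by
    intro m
    induction m with
    | zero =>
      intro l hl
      have e1 : T.at (Sum.inl M1.s1) 0 [] (reg l) =
          Sum.inl (Sum.inl M1.s2, blk.length, MOp.keep, ROp.keep) := by
        unfold Table.at
        rw [hT]; rfl
      exact ReflTransGen.single (step0 hN e1 (by simp) (by omega) (by omega))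
    | succ m ih =>
      intro l hl
      have e1 : T.at (Sum.inl M1.s1) 0 (List.replicate (m + 1) (some (Sum.inl S1.z))) (reg l) =
          Sum.inl (Sum.inl M1.s1, 0, MOp.pop, ROp.push false) := by
        unfold Table.at
        rw [hT]; rfl
      have := ih (false :: l) (by simp only [List.length_cons]; omega)
      rw [List.replicate_succ' (a := false), List.append_assoc]
      exact ReflTransGen.head (step0 hN e1 (hz _) (by omega) (by omega)) this
  have c : ∀ (i : ℕ) (l : List Bool), i ≤ blk.length → i + l.length ≤ L →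
      ReflTransGen (BStep T smax N) (Sum.inl M1.s2, List.replicate i none ++ [], reg l)
        (Sum.inl M1.p1, [], reg (blk.take i ++ l)) := by
    intro i
    induction i with
    | zero =>
      intro l _ hl
      have e1 : T.at (Sum.inl M1.s2) 0 [] (reg l) =
          Sum.inl (Sum.inl M1.p1, 0, MOp.keep, ROp.keep) := by
        unfold Table.at
        rw [hT]; rfl
      exact ReflTransGen.single (step0 hN e1 (by simp) (by omega) (by omega))
    | succ i ih =>
      intro l hi hl
      have e1 : T.at (Sum.inl M1.s2) (i + 1) [] (reg l) =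
          Sum.inl (Sum.inl M1.s2, i, MOp.keep, ROp.push (blk.getD i false)) := by
        unfold Table.at
        rw [hT]; rfl
      have := ih (blk.getD i false :: l) (by omega) (by simp only [List.length_cons]; omega)
      have e2 : blk.take (i + 1) ++ l = blk.take i ++ blk.getD i false :: l := by
        have hi' : i < blk.length := hi
        rw [List.take_add_one, List.append_assoc]
        simp [List.getD, hi']
      rw [e2]
      exact ReflTransGen.head (step1 hN e1 (by simp) (by omega) (by omega) (by omega)) this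
  have r1 := b n [] (by simpa using hL)
  have r2 := c blk.length (List.replicate n false ++ []) le_rfl (by simp; omega)
  rw [List.take_length, List.append_nil (List.replicate n false)] at r2
  rw [List.append_nil (List.replicate n false)] at r1
  exact (a c0 0 rfl).trans (r1.trans r2)

theorem ctl_rounds (hN : 2 ^ (L + 2) ≤ N)
    (hT : ∀ μ, T (Sum.inl μ) = tab1 kin C c0 lam ν1 blk d1 c2 e dS μ)
    (he : ∀ s, e s < lam) (hd : ∀ s, dS (e s) = s) (hs : lam ≤ smax) (h1 : 2 ^ (ν1 + 1) ≤ lam)
    (hc : ∀ f, (c2 f).length = ν1) (w : List Bool) {s : Sg} {J J' : List Bool} {f : F2}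
    (h : C.Rounds s J f J') (hL : lam + J.length ≤ L) :
    J'.length = J.length ∧ ReflTransGen (BStep T smax N)
      (Sum.inl M1.lp, List.replicate (e s) none ++
        (w.map (fun b => some (Sum.inl (S1.pk b))) ++ []), reg J)
      (Sum.inl M1.wr, List.replicate (reg (c2 f).reverse) none ++
        (w.map (fun b => some (Sum.inl (S1.pk b))) ++ []), reg J') := by
  have hh : (w.map (fun b => (some (Sum.inl (S1.pk b)) : Option (S1 ⊕ G2))) ++ []).head? ≠
      some none := head_map_ne _ _ (by simp)
  have one : ∀ (s : Sg) (J : List Bool), lam + J.length ≤ L → ∃ s2, C.fin s2 = (C.round s J).1 ∧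
      (C.round s J).2.length = J.length ∧ ReflTransGen (BStep T smax N)
        (Sum.inl M1.lp, List.replicate (e s) none ++
          (w.map (fun b => some (Sum.inl (S1.pk b))) ++ []), reg J)
        (Sum.inl M1.rp, List.replicate (e s2) none ++
          (w.map (fun b => some (Sum.inl (S1.pk b))) ++ []), reg (C.round s J).2) := by
    intro s J hL
    refine ⟨_, rfl, by simp only [CM.round, List.length_reverse, pass_length], ?_⟩
    have r1 := ctl_lpass (T := T) (smax := smax) hN (μ := Sum.inl M1.lp) (d := C.dL)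
      (jj := fun b => Sum.inl (S1.jj b)) he hs
      (fun s b top => by rw [hT]; simp only [tab1, hd]) J s _ hh hL
    have b1 := he (pass C.dL s J).1
    have b2 := he (C.mid (pass C.dL s J).1)
    have e2 : T.at (Sum.inl M1.lp) (e (pass C.dL s J).1)
        ((pass C.dL s J).2.reverse.map (fun b => some (Sum.inl (S1.jj b))) ++
          (w.map (fun b => some (Sum.inl (S1.pk b))) ++ [])) (reg []) =
        Sum.inl (Sum.inl M1.rp, e (C.mid (pass C.dL s J).1), MOp.keep, ROp.keep) := by
      unfold Table.at
      rw [hT, reg_end_nil]; simp only [tab1, hd]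
    have r2 := step1 (smax := smax) hN e2 (head_map_ne _ _ hh) (by omega)
      (by simp only [List.length_nil]; omega) (by simp only [List.length_nil]; omega)
    have r3 := ctl_rpass (T := T) (smax := smax) hN (μ := Sum.inl M1.rp) (d := C.dR)
      (jj := fun b => Sum.inl (S1.jj b)) he hs
      (fun s b b' en => by rw [hT]; simp only [tab1, hd])
      (w.map (fun b => some (Sum.inl (S1.pk b))) ++ []) (pass C.dL s J).2.reverse
      (C.mid (pass C.dL s J).1) []
      (by simp only [List.length_reverse, pass_length, List.length_nil]; omega)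
    rw [List.append_nil (List.reverse _)] at r3
    exact r1.trans (ReflTransGen.head r2 r3)
  induction h with
  | @done s J f J' h =>
    obtain ⟨s2, h2, h3, h4⟩ := one s J hL
    rw [h] at h2 h3 h4
    refine ⟨h3, h4.tail ?_⟩
    have b1 := he s2
    have b2 : reg (c2 f).reverse < 2 ^ (ν1 + 1) := by
      have := reg_lt (c2 f).reverse
      rwa [List.length_reverse, hc] at this
    have e1 : T.at (Sum.inl M1.rp) (e s2) (w.map (fun b => some (Sum.inl (S1.pk b))) ++ [])
        (reg J') = Sum.inl (Sum.inl M1.wr, reg (c2 f).reverse, MOp.keep, ROp.keep) := by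
      unfold Table.at
      rw [hT]
      cases w <;> simp [tab1, hd, h2]
    dsimp only at h3
    exact step1 hN e1 hh (by omega) (by omega) (by omega)
  | @more s J s1 J1 f J' h _ ih =>
    obtain ⟨s2, h2, h3, h4⟩ := one s J hL
    rw [h] at h2 h3 h4
    dsimp only at h3
    obtain ⟨i1, i2⟩ := ih (by omega)
    refine ⟨i1.trans h3, h4.trans (ReflTransGen.head ?_ i2)⟩
    have b1 := he s2
    have b2 := he s1
    have e1 : T.at (Sum.inl M1.rp) (e s2) (w.map (fun b => some (Sum.inl (S1.pk b))) ++ [])
        (reg J1) = Sum.inl (Sum.inl M1.lp, e s1, MOp.keep, ROp.keep) := by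
      unfold Table.at
      rw [hT]
      cases w <;> simp [tab1, hd, h2]
    exact step1 hN e1 hh (by omega) (by omega) (by omega)

theorem ctl_stage1 (hN : 2 ^ (L + 2) ≤ N)
    (hT : ∀ μ, T (Sum.inl μ) = tab1 kin C c0 lam ν1 blk d1 c2 e dS μ)
    (he : ∀ s, e s < lam) (hd : ∀ s, dS (e s) = s) (hs : lam < smax) (h1 : 2 ^ (ν1 + 1) ≤ lam)
    (hc : ∀ f, (c2 f).length = ν1) {w v J J' : List Bool} {f : F2} (hw : w.length = lam)
    (hv : v.length = ν1) (h : C.Rounds (C.init (d1 v)) J f J') (hL : lam + ν1 + J.length < L) :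
    J'.length = J.length ∧ ReflTransGen (BStep T smax N) (Sum.inl M1.p1, [], reg (w ++ (v ++ J)))
      (Sum.inr kin, [], reg (w ++ (c2 f ++ J'))) := by
  obtain ⟨hJ, r5⟩ := ctl_rounds hN hT he hd hs.le h1 hc w.reverse h (by omega)
  refine ⟨hJ, ?_⟩
  have hh : (w.reverse.map (fun b => (some (Sum.inl (S1.pk b)) : Option (S1 ⊕ G2))) ++ []).head? ≠
      some none := head_map_ne _ _ (by simp)
  have hp : 1 ≤ 2 ^ ν1 := Nat.one_le_two_pow
  have r1 := park (T := T) (smax := smax) hN (μ := Sum.inl M1.p1)
    (pk := fun b => Sum.inl (S1.pk b)) (ν := lam) hs.le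
    (fun j b en top hj => by rw [hT]; simp only [tab1]; rw [if_pos hj]) w (v ++ J) 0 []
    (by omega) (by simp) (by simp only [List.length_append]; omega)
  have e2 : T.at (Sum.inl M1.p1) (0 + w.length)
      (w.reverse.map (fun b => some (Sum.inl (S1.pk b))) ++ []) (reg (v ++ J)) =
      Sum.inl (Sum.inl M1.rd, reg [], MOp.keep, ROp.keep) := by
    unfold Table.at
    rw [hT]; simp only [tab1]; rw [if_neg (by omega)]
  have r2 := step1 (smax := smax) hN e2 hh (by omega) (by simp only [List.length_append]; omega)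
    (by simp only [List.length_append, reg]; omega)
  have r3 := ctl_read (T := T) (smax := smax) hN (μ := Sum.inl M1.rd) (ν := ν1) (by omega)
    (fun v b en top hv => by rw [hT]; simp only [tab1, unreg_reg]; rw [if_pos hv]) hh J v []
    (by simp only [List.length_nil]; omega) (by omega)
  rw [List.append_nil v.reverse] at r3
  have b1 : reg v.reverse < 2 ^ (ν1 + 1) := by
    have := reg_lt v.reverse
    rwa [List.length_reverse, hv] at this
  have b2 := he (C.init (d1 v))
  have e4 : T.at (Sum.inl M1.rd) (reg v.reverse)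
      (w.reverse.map (fun b => some (Sum.inl (S1.pk b))) ++ []) (reg J) =
      Sum.inl (Sum.inl M1.lp, e (C.init (d1 v)), MOp.keep, ROp.keep) := by
    unfold Table.at
    rw [hT]; simp only [tab1, unreg_reg, List.reverse_reverse]
    rw [if_neg (by rw [List.length_reverse]; omega)]
  have r4 := step1 (smax := smax) hN e4 hh (by omega) (by omega) (by omega)
  have r6 := ctl_write (T := T) (smax := smax) hN (μ := Sum.inl M1.wr) (ν := ν1) (by omega)
    (fun b' v b en top => by rw [hT]; simp only [tab1, unreg_reg]) hh (c2 f).reverse J'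
    (by rw [List.length_reverse, hc]) (by rw [List.length_reverse, hc]; omega)
  rw [List.reverse_reverse] at r6
  have e7 : T.at (Sum.inl M1.wr) (reg [])
      (w.reverse.map (fun b => some (Sum.inl (S1.pk b))) ++ []) (reg (c2 f ++ J')) =
      Sum.inl (Sum.inl M1.up, 0, MOp.keep, ROp.keep) := by
    unfold Table.at
    rw [hT]; simp only [tab1, unreg_reg]
  have r7 := step1 (smax := smax) hN e7 hh (by simp only [reg]; omega)
    (by simp only [List.length_append, hc, reg]; omega)
    (by simp only [List.length_append, hc]; omega)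
  have r8 := unpark (T := T) (smax := smax) hN (μ := Sum.inl M1.up)
    (pk := fun b => Sum.inl (S1.pk b)) (by omega) (fun b en b' => by rw [hT]; rfl) w.reverse
    (c2 f ++ J') [] (by simp only [List.length_reverse, List.length_append, hc]; omega)
  rw [List.reverse_reverse] at r8
  have e9 : T.at (Sum.inl M1.up) 0 [] (reg (w ++ (c2 f ++ J'))) =
      Sum.inl (Sum.inr kin, 0, MOp.keep, ROp.keep) := by
    unfold Table.at
    rw [hT]; rfl
  have r9 := step0 (smax := smax) hN e9 (by simp) (by omega)
    (by simp only [List.length_append, hc]; omega)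
  exact r1.trans (ReflTransGen.head r2 (r3.trans (ReflTransGen.head r4 (r5.trans (r6.trans
    (ReflTransGen.head r7 (r8.tail r9)))))))

end run

theorem ctl_code (F : Type) [Finite F] (ν : ℕ) (h : Nat.card F ≤ 2 ^ ν) :
    ∃ c : F → List Bool, Function.Injective c ∧ ∀ f, (c f).length = ν := by
  have := Fintype.ofFinite F
  obtain ⟨e⟩ : Nonempty (F ↪ List.Vector Bool ν) :=
    Function.Embedding.nonempty_of_card_le (by
      rw [card_vector, Fintype.card_bool, ← Nat.card_eq_fintype_card]; exact h)
  exact ⟨fun f => (e f).1, fun a b hab => e.injective (Subtype.ext hab), fun f => (e f).2⟩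

/-- ROW CTL (paper section 2): a table that runs machine C inside the room. -/
theorem ctl : ∃ (K G : Type) (_ : Finite K) (_ : Finite G) (k0 : K) (z : G),
    ∀ (F1 F2 Sg : Type) [Finite F1] [Finite F2] [Finite Sg] (C : CM F1 F2 Sg) (f0 : F1)
      (ν1 lam c0 : ℕ) (st2 : F2 → List Bool → (F1 × List Bool) ⊕ Bool),
      Nat.card F1 ≤ 2 ^ ν1 → Nat.card F2 ≤ 2 ^ ν1 → Nat.card Sg ≤ lam → 2 ^ (ν1 + 1) ≤ lam →
      (∀ f w f' w', w.length = lam → st2 f w = Sum.inl (f', w') → w'.length = lam) →
      ∃ (T : Table K G) (smax : ℕ), ∀ (n N : ℕ) (b : Bool),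
        2 ^ (lam + ν1 + 1) ≤ n → 2 ^ (lam + ν1 + n + 3) ≤ N → 2 ^ (c0 + 1) ≤ N →
        CHalts C st2 (f0, List.replicate lam false, List.replicate n false) b →
        BHalts T smax N (k0, List.replicate (n + c0) (some z), 0) b := by
  obtain ⟨K2, G2, hK2, hG2, kin, hst⟩ := stage2
  refine ⟨M1 ⊕ K2, S1 ⊕ G2, inferInstance, inferInstance, Sum.inl M1.s0, Sum.inl S1.z, ?_⟩
  intro F1 F2 Sg _ _ _ C f0 ν1 lam c0 st2 k1 k2 k3 k4 k5
  obtain ⟨c1, i1, l1⟩ := ctl_code F1 ν1 k1
  obtain ⟨c2, i2, l2⟩ := ctl_code F2 ν1 k2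
  have n1 : Nonempty F1 := ⟨f0⟩
  have nS : Nonempty Sg := ⟨C.init f0⟩
  let e : Sg → ℕ := fun s => (Finite.equivFin Sg s : ℕ)
  have ie : Function.Injective e := fun a b h => (Finite.equivFin Sg).injective (Fin.ext h)
  have he : ∀ s, e s < lam := fun s => (Finite.equivFin Sg s).2.trans_le k3
  have hd1 : ∀ f, Function.invFun c1 (c1 f) = f := Function.leftInverse_invFun i1
  let h : List Bool → List Bool ⊕ Bool := fun u =>
    (Function.partialInv c2 (u.drop lam)).elim (Sum.inr false)
      (fun f => (st2 f (u.take lam)).map (fun p => p.2 ++ c1 p.1) id)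
  have hh : ∀ f w, w.length = lam →
      h (w ++ c2 f) = (st2 f w).map (fun p => p.2 ++ c1 p.1) id := fun f w hw => by
    simp only [h]
    rw [List.drop_left' hw, List.take_left' hw, Function.partialInv_left i2]
    rfl
  obtain ⟨T2, s2, hT2⟩ := hst M1 S1 M1.p1 (lam + ν1) h (fun u u' hu hu' => by
    simp only [h] at hu'
    cases hp : Function.partialInv c2 (u.drop lam) with
    | none => rw [hp] at hu'; cases hu'
    | some f =>
      rw [hp, Option.elim_some] at hu'
      cases hq : st2 f (u.take lam) with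
      | inr b => rw [hq] at hu'; cases hu'
      | inl p =>
        rw [hq] at hu'
        have := k5 f _ p.1 p.2 (by rw [List.length_take]; omega) hq
        cases hu'
        rw [List.length_append, this, l1])
  refine ⟨Sum.elim (tab1 kin C c0 lam ν1 (List.replicate lam false ++ c1 f0) (Function.invFun c1)
    c2 e (Function.invFun e)) T2, s2 + c0 + lam + ν1 + 1, fun n N b hn hN hc hH => ?_⟩
  set T : Table (M1 ⊕ K2) (S1 ⊕ G2) := Sum.elim (tab1 kin C c0 lam ν1
    (List.replicate lam false ++ c1 f0) (Function.invFun c1) c2 e (Function.invFun e)) T2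
  have hN' : 2 ^ (lam + ν1 + n + 1 + 2) ≤ N := hN
  have st1 : ∀ (f : F1) (w J J' : List Bool) (f2 : F2), w.length = lam → J.length = n →
      C.Rounds (C.init f) J f2 J' → J'.length = n ∧
        ReflTransGen (BStep T (s2 + c0 + lam + ν1 + 1) N)
          (Sum.inl M1.p1, [], reg (w ++ c1 f ++ J)) (Sum.inr kin, [], reg (w ++ c2 f2 ++ J')) := by
    intro f w J J' f2 hw hJ hR
    have := ctl_stage1 (T := T) (smax := s2 + c0 + lam + ν1 + 1) hN' (fun _ => rfl) he
      (Function.leftInverse_invFun ie) (by omega) k4 l2 (f := f2) (J := J) (J' := J') hw (l1 f)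
      (by rw [hd1]; exact hR) (by omega)
    rw [List.append_assoc, List.append_assoc]
    exact ⟨this.1.trans hJ, this.2⟩
  have st2' := fun (w J : List Bool) (f2 : F2) (hw : w.length = lam) (hJ : J.length = n) =>
    hT2 T (s2 + c0 + lam + ν1 + 1) N (fun _ => rfl) (by omega) (w ++ c2 f2) J []
      (by rw [List.length_append, hw, l2]) (by rw [hJ]; exact hn) (by rw [hJ]; exact hN) (by simp)
  obtain ⟨c, f2, J', hrun, hR, hb⟩ := hH
  have inv : c.2.1.length = lam ∧ c.2.2.length = n ∧
      ReflTransGen (BStep T (s2 + c0 + lam + ν1 + 1) N)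
        (Sum.inl M1.s0, List.replicate (n + c0) (some (Sum.inl S1.z)), 0)
        (Sum.inl M1.p1, [], reg (c.2.1 ++ c1 c.1 ++ c.2.2)) := by
    clear hR hb
    induction hrun with
    | refl =>
      exact ⟨by simp, by simp, ctl_start (T := T) hN' (fun _ => rfl) hc (by omega)
        (by simp only [List.length_append, List.length_replicate, l1]; omega)
        (by simp only [List.length_append, List.length_replicate, l1]; omega)⟩
    | @tail c c' _ hs ih =>
      obtain ⟨g, hR, hg⟩ := hs
      obtain ⟨a1, a2, a3⟩ := ih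
      obtain ⟨b1, b2⟩ := st1 c.1 c.2.1 c.2.2 c'.2.2 g a1 a2 hR
      refine ⟨k5 _ _ _ _ a1 hg, b1, a3.trans (b2.trans ((st2' _ _ g a1 b1).1 _ ?_))⟩
      rw [hh _ _ a1, hg]
      rfl
  obtain ⟨a1, a2, a3⟩ := inv
  obtain ⟨b1, b2⟩ := st1 c.1 c.2.1 c.2.2 J' f2 a1 a2 hR
  refine BHalts.pre (a3.trans b2) ((st2' _ _ f2 a1 b1).2 b ?_)
  rw [hh _ _ a1, hb]
  rfl

end Pool.Agent.MP_47ff19_lc.H6P
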