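import Pool.Agent.MP_47ff19_lc.H6P.Defs

/-! Stage 2 of the controller: rewrite the lowest block of the register by an arbitrary map. -/

namespace Pool.Agent.MP_47ff19_lc.H6P

open Relation

/-- sentinel code of a bit list (low bit first) -/
def reg : List Bool → ℕ
  | [] => 1
  | b :: l => 2 * reg l + b.toNat

theorem reg_pos (l : List Bool) : 0 < reg l := by
  induction l with
  | nil => simp [reg]
  | cons b l ih => simp only [reg]; omega

theorem reg_lt (l : List Bool) : reg l < 2 ^ (l.length + 1) := by
  induction l with
  | nil => simp [reg]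
  | cons b l ih =>
    simp only [reg, List.length_cons]
    rw [pow_succ]
    cases b <;> simp <;> omega

theorem reg_div (b : Bool) (l : List Bool) : reg (b :: l) / 2 = reg l := by
  cases b <;> simp only [reg, Bool.toNat_false, Bool.toNat_true] <;> omega

theorem reg_bit (b : Bool) (l : List Bool) : decide (reg (b :: l) % 2 = 1) = b := by
  cases b <;> simp [reg]

theorem reg_end_cons (b : Bool) (l : List Bool) : decide (reg (b :: l) / 2 = 0) = false := by
  have := reg_pos l
  rw [reg_div]; simp; omega

theorem reg_end_nil : decide (reg [] / 2 = 0) = true := by simp [reg]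

theorem reg_injective : Function.Injective reg := by
  intro l
  induction l with
  | nil =>
    intro l' h
    cases l' with
    | nil => rfl
    | cons b l' => have := reg_pos l'; simp only [reg] at h; omega
  | cons b l ih =>
    intro l' h
    cases l' with
    | nil => have := reg_pos l; simp only [reg] at h; omega
    | cons b' l' =>
      have h1 : reg l = reg l' := by rw [← reg_div b l, h, reg_div]
      have h2 : b = b' := by rw [← reg_bit b l, h, reg_bit]
      rw [ih h1, h2]

/-- the bit list with a given code -/
noncomputable def unreg : ℕ → List Bool := Function.invFun reg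

theorem unreg_reg (l : List Bool) : unreg (reg l) = l := Function.leftInverse_invFun reg_injective l

theorem reg_room {l : List Bool} {σ L N : ℕ} (h : l.length + σ ≤ L) (hN : 2 ^ (L + 2) ≤ N) :
    (2 * reg l + 1) * 2 ^ σ ≤ N := by
  have h1 := reg_lt l
  have h2 : 2 * reg l + 1 ≤ 2 ^ (l.length + 2) := by rw [pow_succ 2 (l.length + 1)]; omega
  calc (2 * reg l + 1) * 2 ^ σ ≤ 2 ^ (l.length + 2) * 2 ^ σ := Nat.mul_le_mul_right _ h2
    _ = 2 ^ (l.length + 2 + σ) := (pow_add _ _ _).symm
    _ ≤ 2 ^ (L + 2) := Nat.pow_le_pow_right two_pos (by omega)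
    _ ≤ N := hN

section kit

variable {K G : Type} {T : Table K G} {smax N L : ℕ}

/-- one step -/
theorem step1 (hN : 2 ^ (L + 2) ≤ N) {μ μ' : K} {σ σ' : ℕ} {r : List (Option G)} {l : List Bool}
    {mo : MOp G} {ro : ROp} (hT : T.at μ σ r (reg l) = Sum.inl (μ', σ', mo, ro))
    (hr : r.head? ≠ some none) (hs : σ < smax) (h1 : l.length + σ ≤ L) (h2 : l.length + σ' ≤ L) :
    BStep T smax N (μ, List.replicate σ none ++ r, reg l) (μ', mo.app σ' r, ro.app (reg l)) :=
  ⟨σ, r, μ', σ', mo, ro, rfl, hr, hs, reg_room h1 hN, reg_room h2 hN, hT, rfl⟩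

/-- one step from an empty counter -/
theorem step0 (hN : 2 ^ (L + 2) ≤ N) {μ μ' : K} {σ' : ℕ} {r : List (Option G)} {l : List Bool}
    {mo : MOp G} {ro : ROp} (hT : T.at μ 0 r (reg l) = Sum.inl (μ', σ', mo, ro))
    (hr : r.head? ≠ some none) (hs : 0 < smax) (h2 : l.length + σ' ≤ L) :
    BStep T smax N (μ, r, reg l) (μ', mo.app σ' r, ro.app (reg l)) :=
  step1 (σ := 0) hN hT hr hs (by omega) h2

/-- move bits from the register to the stack, counting them -/
theorem park (hN : 2 ^ (L + 2) ≤ N) {μ : K} {pk : Bool → G} {ν : ℕ} (hs : ν ≤ smax)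
    (hT : ∀ j b e top, j < ν → T μ j b e top = Sum.inl (μ, j + 1, MOp.push (pk b), ROp.pop))
    (w : List Bool) : ∀ (l : List Bool) (j : ℕ) (s : List (Option G)), j + w.length ≤ ν →
      s.head? ≠ some none → j + w.length + l.length < L →
      ReflTransGen (BStep T smax N) (μ, List.replicate j none ++ s, reg (w ++ l))
        (μ, List.replicate (j + w.length) none ++ (w.reverse.map (fun b => some (pk b)) ++ s),
          reg l) := by
  induction w with
  | nil => intro l j s _ _ _; exact ReflTransGen.refl
  | cons b w ih =>
    intro l j s h1 h2 h3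
    simp only [List.length_cons] at h1 h3
    have e : T.at μ j s (reg (b :: (w ++ l))) =
        Sum.inl (μ, j + 1, MOp.push (pk b), ROp.pop) := by
      unfold Table.at
      rw [reg_bit, hT _ _ _ _ (by omega)]
    have st := step1 hN e h2 (show j < smax by omega)
      (by simp only [List.length_cons, List.length_append]; omega)
      (by simp only [List.length_cons, List.length_append]; omega)
    have := ih l (j + 1) (some (pk b) :: s) (by omega) (by simp) (by omega)
    simp only [MOp.app, ROp.app, reg_div] at st
    refine (ReflTransGen.head st this).trans ?_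
    have e1 : j + 1 + w.length = j + (b :: w).length := by simp; omega
    rw [e1]
    simp only [List.reverse_cons, List.map_append, List.map_cons, List.map_nil, List.append_assoc,
      List.singleton_append]
    exact ReflTransGen.refl

/-- move bits from the stack back to the register -/
theorem unpark (hN : 2 ^ (L + 2) ≤ N) {μ : K} {pk : Bool → G} (hs : 0 < smax)
    (hT : ∀ b e b', T μ 0 b e (some (pk b')) = Sum.inl (μ, 0, MOp.pop, ROp.push b'))
    (v : List Bool) : ∀ (l : List Bool) (s : List (Option G)), v.length + l.length ≤ L →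
      ReflTransGen (BStep T smax N) (μ, v.map (fun b => some (pk b)) ++ s, reg l)
        (μ, s, reg (v.reverse ++ l)) := by
  induction v with
  | nil => intro l s _; exact ReflTransGen.refl
  | cons b v ih =>
    intro l s h
    simp only [List.length_cons] at h
    have e : T.at μ 0 (some (pk b) :: (v.map (fun b => some (pk b)) ++ s)) (reg l) =
        Sum.inl (μ, 0, MOp.pop, ROp.push b) := hT _ _ _
    have st := step0 hN e (by simp) hs (by omega)
    have := ih (b :: l) s (by simp only [List.length_cons]; omega)
    simp only [List.reverse_cons, List.append_assoc, List.singleton_append]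
    exact ReflTransGen.head st this

end kit

/-- modes of stage 2 -/
inductive M2 where
  | ini | loop | park | unpark (a : Bool) | put (a : Bool) | read | write | re
  | park2 (a : Bool) | unpark2
  deriving DecidableEq, Fintype

/-- stack symbols of stage 2 -/
inductive S2 where
  | bot | fz | pk (b : Bool) | aa (b : Bool)
  deriving DecidableEq, Fintype

/-- the table of stage 2 -/
noncomputable def tab2 {K0 G0 : Type} (kout : K0) (ν : ℕ) (h : List Bool → List Bool ⊕ Bool) :
    M2 → ℕ → Bool → Bool → Option (G0 ⊕ S2) →
      ((K0 ⊕ M2) × ℕ × MOp (G0 ⊕ S2) × ROp) ⊕ Bool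
  | M2.ini, _, _, _, _ => Sum.inl (Sum.inr M2.loop, 0, MOp.push (Sum.inr S2.bot), ROp.keep)
  | M2.loop, σ, _, _, _ =>
    if σ < 2 ^ (ν + 1) then Sum.inl (Sum.inr M2.park, σ, MOp.frz (Sum.inr S2.fz), ROp.keep)
    else Sum.inl (Sum.inr M2.read, 1, MOp.keep, ROp.keep)
  | M2.park, σ, b, _, _ =>
    if σ < ν then Sum.inl (Sum.inr M2.park, σ + 1, MOp.push (Sum.inr (S2.pk b)), ROp.pop)
    else Sum.inl (Sum.inr (M2.unpark b), 0, MOp.keep, ROp.pop)
  | M2.unpark a, _, _, _, top =>
    match top with
    | some (Sum.inr (S2.pk b)) => Sum.inl (Sum.inr (M2.unpark a), 0, MOp.pop, ROp.push b)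
    | _ => Sum.inl (Sum.inr (M2.put a), 0, MOp.pop, ROp.keep)
  | M2.put a, σ, _, _, _ =>
    Sum.inl (Sum.inr M2.loop, σ + 1, MOp.push (Sum.inr (S2.aa a)), ROp.keep)
  | M2.read, σ, b, _, _ =>
    if (unreg σ).length < ν then Sum.inl (Sum.inr M2.read, 2 * σ + b.toNat, MOp.keep, ROp.pop)
    else match h (unreg σ).reverse with
      | Sum.inl w' => Sum.inl (Sum.inr M2.write, reg w'.reverse, MOp.keep, ROp.keep)
      | Sum.inr b' => Sum.inr b'
  | M2.write, σ, _, _, _ =>
    match unreg σ with
    | [] => Sum.inl (Sum.inr M2.re, 0, MOp.keep, ROp.keep)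
    | b :: l => Sum.inl (Sum.inr M2.write, reg l, MOp.keep, ROp.push b)
  | M2.re, _, _, _, top =>
    match top with
    | some (Sum.inr (S2.aa a)) => Sum.inl (Sum.inr (M2.park2 a), 0, MOp.pop, ROp.keep)
    | _ => Sum.inl (Sum.inl kout, 0, MOp.pop, ROp.keep)
  | M2.park2 a, σ, b, _, _ =>
    if σ < ν then Sum.inl (Sum.inr (M2.park2 a), σ + 1, MOp.push (Sum.inr (S2.pk b)), ROp.pop)
    else Sum.inl (Sum.inr M2.unpark2, 0, MOp.keep, ROp.push a)
  | M2.unpark2, _, _, _, top =>
    match top with
    | some (Sum.inr (S2.pk b)) => Sum.inl (Sum.inr M2.unpark2, 0, MOp.pop, ROp.push b)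
    | _ => Sum.inl (Sum.inr M2.re, 0, MOp.keep, ROp.keep)

section run

variable {K0 G0 : Type} {kout : K0} {ν : ℕ} {h : List Bool → List Bool ⊕ Bool}
  {T : Table (K0 ⊕ M2) (G0 ⊕ S2)} {smax N L : ℕ}

theorem head_map_ne {G : Type} (f : Bool → G) (v : List Bool) {s : List (Option G)}
    (hs : s.head? ≠ some none) : (v.map (fun b => some (f b)) ++ s).head? ≠ some none := by
  cases v with
  | nil => simpa using hs
  | cons b v => simp

/-- extraction of the bits below the block -/
theorem s2_extract (hN : 2 ^ (L + 2) ≤ N) (hT : ∀ μ, T (Sum.inr μ) = tab2 kout ν h μ)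
    (hs : 2 ^ (ν + 1) + ν < smax) {w : List Bool} (hw : w.length = ν) (A : List Bool) :
    ∀ (l : List Bool) (i : ℕ) (s : List (Option (G0 ⊕ S2))), i + A.length ≤ 2 ^ (ν + 1) →
      s.head? ≠ some none → i + ν + A.length + l.length < L →
      ReflTransGen (BStep T smax N)
        (Sum.inr M2.loop, List.replicate i none ++ s, reg (w ++ (A ++ l)))
        (Sum.inr M2.loop, List.replicate (i + A.length) none ++
          (A.reverse.map (fun b => some (Sum.inr (S2.aa b))) ++ s), reg (w ++ l)) := by
  induction A with
  | nil => intro l i s _ _ _; exact ReflTransGen.refl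
  | cons a A ih =>
    intro l i s h1 h2 h3
    simp only [List.length_cons] at h1 h3
    have e1 : T.at (Sum.inr M2.loop) i s (reg (w ++ (a :: A ++ l))) =
        Sum.inl (Sum.inr M2.park, i, MOp.frz (Sum.inr S2.fz), ROp.keep) := by
      unfold Table.at
      rw [hT]; simp only [tab2]; rw [if_pos (by omega)]
    have st1 := step1 hN e1 h2 (show i < smax by omega)
      (by simp only [List.length_cons, List.length_append]; omega)
      (by simp only [List.length_cons, List.length_append]; omega)
    have st2 := park (T := T) (smax := smax) hN (μ := Sum.inr M2.park)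
      (pk := fun b => Sum.inr (S2.pk b)) (ν := ν) (by omega)
      (fun j b e top hj => by rw [hT]; simp only [tab2]; rw [if_pos hj]) w (a :: A ++ l) 0
      (some (Sum.inr S2.fz) :: (List.replicate i none ++ s)) (by omega) (by simp)
      (by simp only [List.length_cons, List.length_append]; omega)
    have e3 : T.at (Sum.inr M2.park) (0 + w.length)
        (w.reverse.map (fun b => some (Sum.inr (S2.pk b))) ++
          some (Sum.inr S2.fz) :: (List.replicate i none ++ s)) (reg (a :: (A ++ l))) =
        Sum.inl (Sum.inr (M2.unpark a), 0, MOp.keep, ROp.pop) := by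
      unfold Table.at
      rw [hT, reg_bit]; simp only [tab2]; rw [if_neg (by omega)]
    have st3 := step1 hN e3 (head_map_ne _ _ (by simp)) (show 0 + w.length < smax by omega)
      (by simp only [List.length_cons, List.length_append]; omega)
      (by simp only [List.length_cons, List.length_append]; omega)
    have st4 := unpark (T := T) (smax := smax) hN (μ := Sum.inr (M2.unpark a))
      (pk := fun b => Sum.inr (S2.pk b)) (by omega)
      (fun b e b' => by rw [hT]; rfl) w.reverse (A ++ l)
      (some (Sum.inr S2.fz) :: (List.replicate i none ++ s))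
      (by simp only [List.length_reverse, List.length_append]; omega)
    have e5 : T.at (Sum.inr (M2.unpark a)) 0
        (some (Sum.inr S2.fz) :: (List.replicate i none ++ s)) (reg (w ++ (A ++ l))) =
        Sum.inl (Sum.inr (M2.put a), 0, MOp.pop, ROp.keep) := by
      unfold Table.at
      rw [hT]; rfl
    have st5 := step0 (smax := smax) hN e5 (by simp) (by omega)
      (by simp only [List.length_append]; omega)
    have e6 : T.at (Sum.inr (M2.put a)) i s (reg (w ++ (A ++ l))) =
        Sum.inl (Sum.inr M2.loop, i + 1, MOp.push (Sum.inr (S2.aa a)), ROp.keep) := by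
      unfold Table.at
      rw [hT]; rfl
    have st6 := step1 hN e6 h2 (show i < smax by omega)
      (by simp only [List.length_append]; omega) (by simp only [List.length_append]; omega)
    have st7 := ih l (i + 1) (some (Sum.inr (S2.aa a)) :: s) (by omega) (by simp) (by omega)
    simp only [MOp.app, ROp.app, reg_div, List.replicate_zero, List.nil_append, List.tail_cons,
      List.reverse_reverse] at st1 st2 st3 st4 st5 st6
    have e7 : i + 1 + A.length = i + (a :: A).length := by simp; omega
    rw [e7] at st7
    simp only [List.reverse_cons, List.map_append, List.map_cons, List.map_nil, List.append_assoc,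
      List.singleton_append]
    exact ReflTransGen.head st1 (st2.trans (ReflTransGen.head st3 (st4.trans
      (ReflTransGen.head st5 (ReflTransGen.head st6 st7)))))

/-- reading the block into the counter -/
theorem s2_read (hN : 2 ^ (L + 2) ≤ N) (hT : ∀ μ, T (Sum.inr μ) = tab2 kout ν h μ)
    (hs : 2 ^ (ν + 1) + ν < smax) {s : List (Option (G0 ⊕ S2))} (h2 : s.head? ≠ some none)
    (l w : List Bool) : ∀ v : List Bool, v.length + w.length ≤ ν →
      2 ^ (ν + 1) + w.length + l.length ≤ L →
      ReflTransGen (BStep T smax N)
        (Sum.inr M2.read, List.replicate (reg v) none ++ s, reg (w ++ l))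
        (Sum.inr M2.read, List.replicate (reg (w.reverse ++ v)) none ++ s, reg l) := by
  induction w with
  | nil => intro v _ _; exact ReflTransGen.refl
  | cons b w ih =>
    intro v h1 h3
    simp only [List.length_cons] at h1 h3
    have b1 : reg v < 2 ^ (ν + 1) :=
      (reg_lt v).trans_le (Nat.pow_le_pow_right two_pos (by omega))
    have b2 : reg (b :: v) < 2 ^ (ν + 1) :=
      (reg_lt _).trans_le (Nat.pow_le_pow_right two_pos (by simp only [List.length_cons]; omega))
    have e : T.at (Sum.inr M2.read) (reg v) s (reg (b :: (w ++ l))) =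
        Sum.inl (Sum.inr M2.read, reg (b :: v), MOp.keep, ROp.pop) := by
      unfold Table.at
      rw [hT, reg_bit]; simp only [tab2, unreg_reg]; rw [if_pos (by omega)]; rfl
    have st := step1 hN e h2 (show reg v < smax by omega)
      (by simp only [List.length_cons, List.length_append]; omega)
      (by simp only [List.length_cons, List.length_append]; omega)
    simp only [MOp.app, ROp.app, reg_div] at st
    simp only [List.reverse_cons, List.append_assoc, List.singleton_append]
    exact ReflTransGen.head st (ih (b :: v) (by simp only [List.length_cons]; omega) (by omega))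

/-- writing the counter back -/
theorem s2_write (hN : 2 ^ (L + 2) ≤ N) (hT : ∀ μ, T (Sum.inr μ) = tab2 kout ν h μ)
    (hs : 2 ^ (ν + 1) + ν < smax) {s : List (Option (G0 ⊕ S2))} (h2 : s.head? ≠ some none)
    (v : List Bool) : ∀ l : List Bool, v.length ≤ ν → 2 ^ (ν + 1) + v.length + l.length ≤ L →
      ReflTransGen (BStep T smax N)
        (Sum.inr M2.write, List.replicate (reg v) none ++ s, reg l)
        (Sum.inr M2.re, s, reg (v.reverse ++ l)) := by
  induction v with
  | nil =>
    intro l h1 h3
    have b1 : reg [] < 2 ^ (ν + 1) :=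
      (reg_lt _).trans_le (Nat.pow_le_pow_right two_pos (by simp))
    have e : T.at (Sum.inr M2.write) (reg []) s (reg l) =
        Sum.inl (Sum.inr M2.re, 0, MOp.keep, ROp.keep) := by
      unfold Table.at
      rw [hT]; simp only [tab2, unreg_reg]
    exact ReflTransGen.single (step1 hN e h2 (by omega) (by omega) (by omega))
  | cons b v ih =>
    intro l h1 h3
    have b2 : reg (b :: v) < 2 ^ (ν + 1) :=
      (reg_lt _).trans_le (Nat.pow_le_pow_right two_pos (by omega))
    simp only [List.length_cons] at h1 h3
    have b1 : reg v < 2 ^ (ν + 1) :=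
      (reg_lt v).trans_le (Nat.pow_le_pow_right two_pos (by omega))
    have e : T.at (Sum.inr M2.write) (reg (b :: v)) s (reg l) =
        Sum.inl (Sum.inr M2.write, reg v, MOp.keep, ROp.push b) := by
      unfold Table.at
      rw [hT]; simp only [tab2, unreg_reg]
    have st := step1 (smax := smax) hN e h2 (by omega) (by omega) (by omega)
    simp only [List.reverse_cons, List.append_assoc, List.singleton_append]
    exact ReflTransGen.head st (ih (b :: l) (by omega) (by simp only [List.length_cons]; omega))

/-- putting the extracted bits back below the block -/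
theorem s2_back (hN : 2 ^ (L + 2) ≤ N) (hT : ∀ μ, T (Sum.inr μ) = tab2 kout ν h μ)
    (hs : 2 ^ (ν + 1) + ν < smax) {w : List Bool} (hw : w.length = ν)
    {r : List (Option (G0 ⊕ S2))} (A : List Bool) :
    ∀ l : List Bool, ν + A.length + l.length < L →
      ReflTransGen (BStep T smax N)
        (Sum.inr M2.re, A.map (fun b => some (Sum.inr (S2.aa b))) ++ some (Sum.inr S2.bot) :: r,
          reg (w ++ l))
        (Sum.inl kout, r, reg (w ++ (A.reverse ++ l))) := by
  have hν : ν < smax := lt_of_le_of_lt (Nat.le_add_left _ _) hs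
  induction A with
  | nil =>
    intro l h3
    have e : T.at (Sum.inr M2.re) 0 (some (Sum.inr S2.bot) :: r) (reg (w ++ l)) =
        Sum.inl (Sum.inl kout, 0, MOp.pop, ROp.keep) := by
      unfold Table.at
      rw [hT]; rfl
    exact ReflTransGen.single (step0 hN e (by simp) (by omega)
      (by simp only [List.length_append]; omega))
  | cons a A ih =>
    intro l h3
    simp only [List.length_cons] at h3
    have hh : (A.map (fun b => (some (Sum.inr (S2.aa b)) : Option (G0 ⊕ S2))) ++
        some (Sum.inr S2.bot) :: r).head? ≠ some none := head_map_ne _ _ (by simp)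
    have e1 : T.at (Sum.inr M2.re) 0 (some (Sum.inr (S2.aa a)) ::
        (A.map (fun b => some (Sum.inr (S2.aa b))) ++ some (Sum.inr S2.bot) :: r))
        (reg (w ++ l)) = Sum.inl (Sum.inr (M2.park2 a), 0, MOp.pop, ROp.keep) := by
      unfold Table.at
      rw [hT]; rfl
    have st1 := step0 (smax := smax) hN e1 (by simp) (by omega)
      (by simp only [List.length_append]; omega)
    have st2 := park (T := T) (smax := smax) hN (μ := Sum.inr (M2.park2 a))
      (pk := fun b => Sum.inr (S2.pk b)) (ν := ν) (by omega)
      (fun j b e top hj => by rw [hT]; simp only [tab2]; rw [if_pos hj]) w l 0 _ (by omega) hh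
      (by omega)
    have e3 : T.at (Sum.inr (M2.park2 a)) (0 + w.length)
        (w.reverse.map (fun b => some (Sum.inr (S2.pk b))) ++
          (A.map (fun b => some (Sum.inr (S2.aa b))) ++ some (Sum.inr S2.bot) :: r)) (reg l) =
        Sum.inl (Sum.inr M2.unpark2, 0, MOp.keep, ROp.push a) := by
      unfold Table.at
      rw [hT]; simp only [tab2]; rw [if_neg (by omega)]
    have st3 := step1 hN e3 (head_map_ne _ _ hh) (show 0 + w.length < smax by omega)
      (by omega) (by omega)
    have st4 := unpark (T := T) (smax := smax) hN (μ := Sum.inr M2.unpark2)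
      (pk := fun b => Sum.inr (S2.pk b)) (by omega)
      (fun b e b' => by rw [hT]; rfl) w.reverse (a :: l)
      (A.map (fun b => some (Sum.inr (S2.aa b))) ++ some (Sum.inr S2.bot) :: r)
      (by simp only [List.length_reverse, List.length_cons]; omega)
    have e5 : T.at (Sum.inr M2.unpark2) 0
        (A.map (fun b => some (Sum.inr (S2.aa b))) ++ some (Sum.inr S2.bot) :: r)
        (reg (w ++ a :: l)) = Sum.inl (Sum.inr M2.re, 0, MOp.keep, ROp.keep) := by
      unfold Table.at
      rw [hT]
      cases A <;> rfl
    have st5 := step0 (smax := smax) hN e5 hh (by omega)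
      (by simp only [List.length_append, List.length_cons]; omega)
    have st6 := ih (a :: l) (by simp only [List.length_cons]; omega)
    simp only [MOp.app, ROp.app, List.replicate_zero, List.nil_append, List.tail_cons,
      List.reverse_reverse] at st1 st2 st3 st4 st5
    simp only [List.reverse_cons, List.map_cons, List.append_assoc, List.singleton_append,
      List.cons_append]
    exact ReflTransGen.head st1 (st2.trans (ReflTransGen.head st3 (st4.trans
      (ReflTransGen.head st5 st6))))

end run

/-- Stage 2 as a black box. -/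
theorem stage2 : ∃ (K2 G2 : Type) (_ : Finite K2) (_ : Finite G2) (kin : K2),
    ∀ (K0 G0 : Type) (kout : K0) (ν : ℕ) (h : List Bool → List Bool ⊕ Bool),
      (∀ w w', w.length = ν → h w = Sum.inl w' → w'.length = ν) →
      ∃ (T2 : K2 → ℕ → Bool → Bool → Option (G0 ⊕ G2) →
          ((K0 ⊕ K2) × ℕ × MOp (G0 ⊕ G2) × ROp) ⊕ Bool) (s2 : ℕ),
        ∀ (T : Table (K0 ⊕ K2) (G0 ⊕ G2)) (smax N : ℕ), (∀ μ, T (Sum.inr μ) = T2 μ) → s2 ≤ smax →
          ∀ (w J : List Bool) (r : List (Option (G0 ⊕ G2))), w.length = ν →
            2 ^ (ν + 1) ≤ J.length → 2 ^ (ν + J.length + 3) ≤ N → r.head? ≠ some none →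
            (∀ w', h w = Sum.inl w' → ReflTransGen (BStep T smax N)
              (Sum.inr kin, r, reg (w ++ J)) (Sum.inl kout, r, reg (w' ++ J))) ∧
            (∀ b, h w = Sum.inr b → BHalts T smax N (Sum.inr kin, r, reg (w ++ J)) b) := by
  refine ⟨M2, S2, inferInstance, inferInstance, M2.ini, fun K0 G0 kout ν h hh =>
    ⟨tab2 kout ν h, 2 ^ (ν + 1) + ν + 1, fun T smax N hT hs w J r hw hJ hN hr => ?_⟩⟩
  have hN' : 2 ^ (ν + J.length + 1 + 2) ≤ N := hN
  have hs' : 2 ^ (ν + 1) + ν < smax := hs
  obtain ⟨A, l, rfl, hA⟩ : ∃ A l, J = A ++ l ∧ A.length = 2 ^ (ν + 1) :=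
    ⟨J.take (2 ^ (ν + 1)), J.drop (2 ^ (ν + 1)), (List.take_append_drop _ _).symm,
      by rw [List.length_take]; omega⟩
  rw [List.length_append] at hN'
  have hp : 1 ≤ 2 ^ (ν + 1) := Nat.one_le_two_pow
  have hh2 : (A.reverse.map (fun b => (some (Sum.inr (S2.aa b)) : Option (G0 ⊕ S2))) ++
      some (Sum.inr S2.bot) :: r).head? ≠ some none := head_map_ne _ _ (by simp)
  have e0 : T.at (Sum.inr M2.ini) 0 r (reg (w ++ (A ++ l))) =
      Sum.inl (Sum.inr M2.loop, 0, MOp.push (Sum.inr S2.bot), ROp.keep) := by
    unfold Table.at
    rw [hT]; rfl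
  have st0 := step0 (smax := smax) hN' e0 hr (by omega)
    (by simp only [List.length_append]; omega)
  have st1 := s2_extract hN' hT hs' hw A l 0 (some (Sum.inr S2.bot) :: r) (by omega) (by simp)
    (by omega)
  have e2 : T.at (Sum.inr M2.loop) (0 + A.length)
      (A.reverse.map (fun b => some (Sum.inr (S2.aa b))) ++ some (Sum.inr S2.bot) :: r)
      (reg (w ++ l)) = Sum.inl (Sum.inr M2.read, reg [], MOp.keep, ROp.keep) := by
    unfold Table.at
    rw [hT]; simp only [tab2]; rw [if_neg (by omega)]; rfl
  have st2 := step1 (smax := smax) hN' e2 hh2 (by omega)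
    (by simp only [List.length_append]; omega) (by simp only [List.length_append, reg]; omega)
  have st3 := s2_read hN' hT hs' hh2 l w [] (by simp only [List.length_nil]; omega) (by omega)
  rw [List.append_nil] at st3
  have run := ReflTransGen.head st0 (st1.trans (ReflTransGen.head st2 st3))
  have b1 : reg w.reverse < 2 ^ (ν + 1) := by
    have := reg_lt w.reverse
    rwa [List.length_reverse, hw] at this
  constructor
  · intro w' hw'
    have l' := hh w w' hw hw'
    have b2 : reg w'.reverse < 2 ^ (ν + 1) := by
      have := reg_lt w'.reverse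
      rwa [List.length_reverse, l'] at this
    have e4 : T.at (Sum.inr M2.read) (reg w.reverse)
        (A.reverse.map (fun b => some (Sum.inr (S2.aa b))) ++ some (Sum.inr S2.bot) :: r)
        (reg l) = Sum.inl (Sum.inr M2.write, reg w'.reverse, MOp.keep, ROp.keep) := by
      unfold Table.at
      rw [hT]; simp only [tab2, unreg_reg, List.reverse_reverse, hw']
      rw [if_neg (by rw [List.length_reverse]; omega)]
    have st4 := step1 (smax := smax) hN' e4 hh2 (by omega) (by omega) (by omega)
    have st5 := s2_write hN' hT hs' hh2 w'.reverse l (by rw [List.length_reverse]; omega)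
      (by rw [List.length_reverse]; omega)
    have st6 := s2_back hN' hT hs' l' (r := r) A.reverse l (by rw [List.length_reverse]; omega)
    rw [List.reverse_reverse] at st5 st6
    exact run.trans (ReflTransGen.head st4 (st5.trans st6))
  · intro b hb
    refine ⟨_, _, _, _, run, hh2, by omega, reg_room (by omega) hN', ?_⟩
    unfold Table.at
    rw [hT]; simp only [tab2, unreg_reg, List.reverse_reverse, hb]
    rw [if_neg (by rw [List.length_reverse]; omega)]

end Pool.Agent.MP_47ff19_lc.H6P
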