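import Pool.Agent.MP_47ff19_lc.H6P.Model

/-! Internal definitions for the proof (machines A2, B, C, N; piecewise affine systems). -/

namespace Pool.Agent.MP_47ff19_lc.H6P

open Relation

/-- the unary word of length `N` -/
abbrev un (N : ℕ) : List Unit := List.replicate N ()

theorem tape_un (N p : ℕ) :
    tape (un N) p = if p = 0 then Sym.lft else if p ≤ N then Sym.ltr () else Sym.rgt := by
  unfold tape
  by_cases h0 : p = 0
  · simp [h0]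
  · by_cases h : p ≤ N
    · have : p - 1 < N := by omega
      simp [h0, h, this]
    · have : ¬ p - 1 < N := by omega
      simp [h0, h, this]

/-- `D` answers `b` on `1^N`. -/
def Answers {Q G : Type} (D : TwoPDA Unit Q G) (N : ℕ) (b : Bool) : Prop :=
  D.Accepts (un N) ↔ b = true

/-! ### Machine A2: control, stack, one register -/

inductive Ins (Q G : Type) where
  | dbl : Q → Ins Q G
  | half : Q → Q → Ins Q G
  | inc : Q → Ins Q G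
  | zero : Q → Ins Q G
  | load : Q → Ins Q G
  | push : G → Q → Ins Q G
  | pop : Q → Ins Q G
  | goto : Q → Ins Q G

def Ins.app {Q G : Type} (N : ℕ) : Ins Q G → List G → ℕ → Q × List G × ℕ
  | Ins.dbl q, s, R => (q, s, 2 * R)
  | Ins.half q0 q1, s, R => (if R % 2 = 0 then q0 else q1, s, R / 2)
  | Ins.inc q, s, R => (q, s, R + 1)
  | Ins.zero q, s, _ => (q, s, 0)
  | Ins.load q, s, _ => (q, s, N)
  | Ins.push g q, s, R => (q, g :: s, R)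
  | Ins.pop q, s, R => (q, s.tail, R)
  | Ins.goto q, s, R => (q, s, R)

/-- `δ` sees the state, the top of the stack and whether the register is zero. -/
structure A2 (Q G : Type) where
  start : Q
  out : Q → Option Bool
  δ : Q → Option G → Bool → Ins Q G

def A2.Step {Q G : Type} (P : A2 Q G) (N : ℕ) (c c' : Q × List G × ℕ) : Prop :=
  P.out c.1 = none ∧ c' = (P.δ c.1 c.2.1.head? (decide (c.2.2 = 0))).app N c.2.1 c.2.2 ∧
    c'.2.2 ≤ N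

def A2.Halts {Q G : Type} (P : A2 Q G) (N : ℕ) (b : Bool) : Prop :=
  ∃ c, ReflTransGen (P.Step N) (P.start, [], 0) c ∧ P.out c.1 = some b

/-! ### Machine B: table driven, unary state on top of the stack (`none` is the unit `u`) -/

inductive MOp (G : Type) where
  | keep : MOp G
  | pop : MOp G
  | push : G → MOp G
  | frz : G → MOp G

def MOp.app {G : Type} : MOp G → ℕ → List (Option G) → List (Option G)
  | MOp.keep, σ, r => List.replicate σ none ++ r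
  | MOp.pop, σ, r => List.replicate σ none ++ r.tail
  | MOp.push g, σ, r => List.replicate σ none ++ some g :: r
  | MOp.frz g, σ, r => some g :: (List.replicate σ none ++ r)

inductive ROp where
  | keep : ROp
  | pop : ROp
  | push : Bool → ROp

def ROp.app : ROp → ℕ → ℕ
  | ROp.keep, R => R
  | ROp.pop, R => R / 2
  | ROp.push b, R => 2 * R + b.toNat

abbrev Table (K G : Type) := K → ℕ → Bool → Bool → Option G → (K × ℕ × MOp G × ROp) ⊕ Bool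

/-- what the table says in mode `μ` with stack `u^σ ++ r` and register `R` -/
def Table.at {K G : Type} (T : Table K G) (μ : K) (σ : ℕ) (r : List (Option G)) (R : ℕ) :
    (K × ℕ × MOp G × ROp) ⊕ Bool :=
  T μ σ (decide (R % 2 = 1)) (decide (R / 2 = 0)) r.head?.join

def BStep {K G : Type} (T : Table K G) (smax N : ℕ) (c c' : K × List (Option G) × ℕ) : Prop :=
  ∃ (σ : ℕ) (r : List (Option G)) (μ' : K) (σ' : ℕ) (mo : MOp G) (ro : ROp),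
    c.2.1 = List.replicate σ none ++ r ∧ r.head? ≠ some none ∧ σ < smax ∧
    (2 * c.2.2 + 1) * 2 ^ σ ≤ N ∧ (2 * c.2.2 + 1) * 2 ^ σ' ≤ N ∧
    T.at c.1 σ r c.2.2 = Sum.inl (μ', σ', mo, ro) ∧ c' = (μ', mo.app σ' r, ro.app c.2.2)

def BHalts {K G : Type} (T : Table K G) (smax N : ℕ) (c0 : K × List (Option G) × ℕ) (b : Bool) :
    Prop :=
  ∃ (μ : K) (σ : ℕ) (r : List (Option G)) (R : ℕ),
    ReflTransGen (BStep T smax N) c0 (μ, List.replicate σ none ++ r, R) ∧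
    r.head? ≠ some none ∧ σ < smax ∧ (2 * R + 1) * 2 ^ σ ≤ N ∧ T.at μ σ r R = Sum.inr b

/-! ### Machine C: passes over a bit list (lists are written low bit first) -/

structure CM (F1 F2 Sg : Type) where
  init : F1 → Sg
  dL : Sg → Bool → Sg × Bool
  dR : Sg → Bool → Sg × Bool
  mid : Sg → Sg
  fin : Sg → Sg ⊕ F2

def pass {Sg : Type} (d : Sg → Bool → Sg × Bool) : Sg → List Bool → Sg × List Bool
  | s, [] => (s, [])
  | s, b :: l => ((pass d (d s b).1 l).1, (d s b).2 :: (pass d (d s b).1 l).2)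

def CM.round {F1 F2 Sg : Type} (C : CM F1 F2 Sg) (s : Sg) (J : List Bool) :
    (Sg ⊕ F2) × List Bool :=
  (C.fin (pass C.dR (C.mid (pass C.dL s J).1) (pass C.dL s J).2.reverse).1,
    (pass C.dR (C.mid (pass C.dL s J).1) (pass C.dL s J).2.reverse).2.reverse)

inductive CM.Rounds {F1 F2 Sg : Type} (C : CM F1 F2 Sg) : Sg → List Bool → F2 → List Bool → Prop
  | done {s J f J'} : C.round s J = (Sum.inr f, J') → CM.Rounds C s J f J'
  | more {s J s1 J1 f J'} : C.round s J = (Sum.inl s1, J1) → CM.Rounds C s1 J1 f J' →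
      CM.Rounds C s J f J'

def CStep {F1 F2 Sg : Type} (C : CM F1 F2 Sg) (st2 : F2 → List Bool → (F1 × List Bool) ⊕ Bool)
    (c c' : F1 × List Bool × List Bool) : Prop :=
  ∃ f2, C.Rounds (C.init c.1) c.2.2 f2 c'.2.2 ∧ st2 f2 c.2.1 = Sum.inl (c'.1, c'.2.1)

def CHalts {F1 F2 Sg : Type} (C : CM F1 F2 Sg) (st2 : F2 → List Bool → (F1 × List Bool) ⊕ Bool)
    (c0 : F1 × List Bool × List Bool) (b : Bool) : Prop :=
  ∃ c f2 J', ReflTransGen (CStep C st2) c0 c ∧ C.Rounds (C.init c.1) c.2.2 f2 J' ∧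
    st2 f2 c.2.1 = Sum.inr b

/-- value of a bit list, low bit first -/
def val : List Bool → ℕ
  | [] => 0
  | b :: l => 2 * val l + b.toNat

/-! ### Machine N: the numeric form of C -/

/-- `par f z0 z1 = (a, b0, b1, d)`; `z0 : J = 0`, `z1 : J = 2^n - 1`. -/
structure NM (F1 F2 : Type) where
  par : F1 → Bool → Bool → ℤ × ℤ × ℤ × ℤ
  pos : ∀ f z0 z1, 0 < (par f z0 z1).2.2.2
  outp : F1 → Bool → Bool → ℤ → ℤ → F2

/-- `T = a J + b1 2^n + b0` -/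
def NM.T {F1 F2 : Type} (A : NM F1 F2) (n : ℕ) (f : F1) (J : ℕ) : ℤ :=
  (A.par f (decide (J = 0)) (decide (J + 1 = 2 ^ n))).1 * J +
    (A.par f (decide (J = 0)) (decide (J + 1 = 2 ^ n))).2.2.1 * 2 ^ n +
    (A.par f (decide (J = 0)) (decide (J + 1 = 2 ^ n))).2.1

def NM.d {F1 F2 : Type} (A : NM F1 F2) (n : ℕ) (f : F1) (J : ℕ) : ℤ :=
  (A.par f (decide (J = 0)) (decide (J + 1 = 2 ^ n))).2.2.2

/-- stage 1: with `u = T / d`, the new small field is `outp f z0 z1 (u / 2^n) (T % d)` -/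
def NM.f2 {F1 F2 : Type} (A : NM F1 F2) (n : ℕ) (f : F1) (J : ℕ) : F2 :=
  A.outp f (decide (J = 0)) (decide (J + 1 = 2 ^ n)) (A.T n f J / A.d n f J / 2 ^ n)
    (A.T n f J % A.d n f J)

/-- stage 1: the new big field is `u % 2^n` -/
def NM.J2 {F1 F2 : Type} (A : NM F1 F2) (n : ℕ) (f : F1) (J : ℕ) : ℕ :=
  (A.T n f J / A.d n f J % 2 ^ n).toNat

def NStep {F1 F2 : Type} (A : NM F1 F2) (st2 : F2 → ℕ → (F1 × ℕ) ⊕ Bool) (n : ℕ)
    (c c' : F1 × ℕ × ℕ) : Prop :=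
  st2 (A.f2 n c.1 c.2.2) c.2.1 = Sum.inl (c'.1, c'.2.1) ∧ c'.2.2 = A.J2 n c.1 c.2.2

def NHalts {F1 F2 : Type} (A : NM F1 F2) (st2 : F2 → ℕ → (F1 × ℕ) ⊕ Bool) (n : ℕ)
    (c0 : F1 × ℕ × ℕ) (b : Bool) : Prop :=
  ∃ c, ReflTransGen (NStep A st2 n) c0 c ∧ st2 (A.f2 n c.1 c.2.2) c.2.1 = Sum.inr b

/-! ### Piecewise affine systems -/

abbrev Aff := ℚ × ℚ × ℚ

def ev (τ : Aff) (N X : ℚ) : ℚ := τ.1 * X + τ.2.1 * N + τ.2.2

inductive PB : (ℚ → ℚ → Prop) → Prop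
  | le (τ : Aff) : PB fun N X => 0 ≤ ev τ N X
  | int (τ : Aff) : PB fun N X => ∃ z : ℤ, ev τ N X = z
  | not {P : ℚ → ℚ → Prop} : PB P → PB fun N X => ¬ P N X
  | and {P R : ℚ → ℚ → Prop} : PB P → PB R → PB fun N X => P N X ∧ R N X

/-- measurable predicate on configurations -/
def MP {Q : Type} (S : ℚ → Q × ℚ → Prop) : Prop := ∀ q, PB fun N X => S N (q, X)

/-- measurable function with finite range -/
def Meas {Q β : Type} (f : ℚ → Q × ℚ → β) : Prop :=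
  (∃ s : Finset β, ∀ N c, f N c ∈ s) ∧ ∀ b, MP fun N c => f N c = b

structure PA (Q : Type) where
  q0 : Q
  out : Q → Option Bool
  lab : ℚ → Q × ℚ → Q × Aff
  meas : Meas lab

def PA.φ {Q : Type} (P : PA Q) (N : ℚ) (c : Q × ℚ) : Q × ℚ :=
  ((P.lab N c).1, ev (P.lab N c).2 N c.2)

def PA.orb {Q : Type} (P : PA Q) (N : ℕ) (t : ℕ) : Q × ℚ := (P.φ N)^[t] (P.q0, 0)

structure PA.Runs {Q : Type} (P : PA Q) (N : ℕ) (b : Bool) : Prop where
  rng : ∀ t, ∃ X : ℕ, X ≤ N + 1 ∧ (P.orb N t).2 = X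
  halt : ∃ t, 0 < t ∧ P.out (P.orb N t).1 = some b
  uniq : ∀ t b', P.out (P.orb N t).1 = some b' → b' = b
  norep : ∀ t p, 0 < p → P.out (P.orb N t).1 = none → P.orb N (t + p) ≠ P.orb N t

/-- `X` is generic in the cell `h` of width `Δ` -/
def Gen (Δ m0 : ℕ) (h X : ℤ) : Prop := h * Δ + m0 ≤ X ∧ X + m0 ≤ (h + 1) * Δ

def Tame (P : ℚ → ℚ → Prop) (m H m0 : ℕ) : Prop :=
  (∀ Δ Δ' : ℕ, m ∣ Δ → m ∣ Δ' → ∀ h X X' : ℤ, Gen Δ m0 h X → Gen Δ' m0 h X' →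
      X ≡ X' [ZMOD m] → (P ((H * Δ : ℕ) : ℚ) (X : ℚ) ↔ P ((H * Δ' : ℕ) : ℚ) (X' : ℚ))) ∧
  (∀ h o : ℤ, ∃ Δ0 : ℕ, ∀ Δ Δ' : ℕ, Δ0 ≤ Δ → Δ0 ≤ Δ' → m ∣ Δ → m ∣ Δ' →
      (P ((H * Δ : ℕ) : ℚ) ((h * Δ + o : ℤ) : ℚ) ↔ P ((H * Δ' : ℕ) : ℚ) ((h * Δ' + o : ℤ) : ℚ)))

/-- data produced by the marker construction; a label is `(q', α, a, γ)` -/
structure MK (Q : Type) where
  β : ℕ
  m : ℕ
  H0 : ℕ
  m0 : ℕ
  Δ0 : ℕ
  Tt : Finset (Q × ℤ × ℤ × ℤ)
  Z : Finset (Q × ℕ × ℕ)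
  macG : Q → ℕ → ℕ → Q × ℤ × ℤ × ℤ
  macS : Q → ℕ → ℤ → Q × ℤ × ℤ × ℤ
  β_pos : 0 < β
  m_pos : 0 < m
  H0_pos : 0 < H0
  β_dvd : β ∣ H0
  Z_card : 32 * Z.card ≤ H0 * m
  macG_mem : ∀ q h l, macG q h l ∈ Tt
  macS_mem : ∀ q h o, macS q h o ∈ Tt
  γ_lt : ∀ l ∈ Tt, |l.2.2.2| < m0

/-- the run jumps from time `t` (position `X`) by the label `l`; `Δ` is the fine cell, `N = H0 β Δ` -/
def MK.Jump {Q : Type} (K : MK Q) (P : PA Q) (Δ t X : ℕ) (l : Q × ℤ × ℤ × ℤ) : Prop :=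
  ∃ t' X' : ℕ, t < t' ∧ P.orb (K.H0 * K.β * Δ) t' = (l.1, (X' : ℚ)) ∧
    (K.β : ℤ) * X' = l.2.1 * X + l.2.2.1 * ((K.H0 * K.β * Δ : ℕ) : ℤ) + l.2.2.2 ∧
    (∀ s, t < s → s < t' → P.out (P.orb (K.H0 * K.β * Δ) s).1 = none) ∧
    (P.out l.1 = none → ∀ h' : ℕ, Gen (K.β * Δ) K.m0 h' X' → (l.1, h', X' % K.m) ∈ K.Z)

def MK.Works {Q : Type} (K : MK Q) (P : PA Q) : Prop :=
  ∀ Δ : ℕ, K.Δ0 ≤ Δ → K.m ∣ Δ → ∀ b, P.Runs (K.H0 * K.β * Δ) b →
    ∀ (t : ℕ) (q : Q) (X : ℕ), P.orb (K.H0 * K.β * Δ) t = (q, (X : ℚ)) →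
      (∀ h : ℕ, Gen (K.β * Δ) K.m0 h X → K.Jump P Δ t X (K.macG q h (X % K.m))) ∧
      (∀ (ht : ℕ) (o : ℤ), ht ≤ K.H0 * K.β + 1 → |o| ≤ K.m0 → (X : ℤ) = ht * Δ + o →
        K.Jump P Δ t X (K.macS q ht o))

end Pool.Agent.MP_47ff19_lc.H6P
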