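import Pool.Agent.MP_47ff19_lc.H6P.Defs

namespace Pool.Agent.MP_47ff19_lc.H6P

open Relation

section TransAux

theorem tra_len {Sg : Type} (d : Sg → Bool → Sg × Bool) (J : List Bool) :
    ∀ s, (pass d s J).2.length = J.length := by
  induction J with
  | nil => intro s; simp [pass]
  | cons b l ih => intro s; simp [pass, ih]

theorem tra_val_lt (J : List Bool) : val J < 2 ^ J.length := by
  induction J with
  | nil => simp [val]
  | cons b l ih =>
    simp only [val, List.length_cons, pow_succ]
    cases b <;> simp <;> omega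

theorem tra_val_snoc (l : List Bool) (b : Bool) :
    val (l ++ [b]) = val l + b.toNat * 2 ^ l.length := by
  induction l with
  | nil => simp [val]
  | cons a l ih =>
    simp only [List.cons_append, val, ih, List.length_cons, pow_succ]
    ring

/-- restriction of a transducer to a closed set of states -/
def traRd {S : Type} (P : S → Prop) (d : S → Bool → S × Bool)
    (h : ∀ s b, P s → P (d s b).1) (s : {s // P s}) (b : Bool) : {s // P s} × Bool :=
  (⟨(d s.1 b).1, h _ _ s.2⟩, (d s.1 b).2)

theorem traRd_pass {S : Type} (P : S → Prop) (d : S → Bool → S × Bool)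
    (h : ∀ s b, P s → P (d s b).1) (J : List Bool) :
    ∀ s : {s // P s}, (pass (traRd P d h) s J).1.1 = (pass d s.1 J).1 ∧
      (pass (traRd P d h) s J).2 = (pass d s.1 J).2 := by
  induction J with
  | nil => intro s; simp [pass]
  | cons b l ih =>
    intro s
    have := ih (traRd P d h s b).1
    simp only [pass]
    exact ⟨this.1, by rw [this.2]; rfl⟩

/-- a set of states closed under all the maps of a machine -/
structure TraClosed {F1 F2 S : Type} (C : CM F1 F2 S) (P : S → Prop) : Prop where
  hi : ∀ f, P (C.init f)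
  hL : ∀ s b, P s → P (C.dL s b).1
  hR : ∀ s b, P s → P (C.dR s b).1
  hm : ∀ s, P s → P (C.mid s)
  hf : ∀ s s', P s → C.fin s = Sum.inl s' → P s'

def traFin {F1 F2 S : Type} (C : CM F1 F2 S) (P : S → Prop) (h : TraClosed C P)
    (s : {s // P s}) : {s // P s} ⊕ F2 :=
  match hs : C.fin s.1 with
  | Sum.inl s' => Sum.inl ⟨s', h.hf _ _ s.2 hs⟩
  | Sum.inr f => Sum.inr f

theorem traFin_inl {F1 F2 S : Type} (C : CM F1 F2 S) (P : S → Prop) (h : TraClosed C P)
    (s : {s // P s}) (s' : S) (hs : C.fin s.1 = Sum.inl s') :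
    ∃ h' : P s', traFin C P h s = Sum.inl ⟨s', h'⟩ := by
  refine ⟨h.hf _ _ s.2 hs, ?_⟩
  unfold traFin
  split
  · next t ht =>
    have : t = s' := Sum.inl.inj (ht.symm.trans hs)
    subst this
    rfl
  · next t ht => exact absurd (ht.symm.trans hs) (by simp)

theorem traFin_inr {F1 F2 S : Type} (C : CM F1 F2 S) (P : S → Prop) (h : TraClosed C P)
    (s : {s // P s}) (f : F2) (hs : C.fin s.1 = Sum.inr f) :
    traFin C P h s = Sum.inr f := by
  unfold traFin
  split
  · next t ht => exact absurd (ht.symm.trans hs) (by simp)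
  · next t ht =>
    have : t = f := Sum.inr.inj (ht.symm.trans hs)
    subst this
    rfl

def traRestr {F1 F2 S : Type} (C : CM F1 F2 S) (P : S → Prop) (h : TraClosed C P) :
    CM F1 F2 {s // P s} where
  init f := ⟨C.init f, h.hi f⟩
  dL := traRd P C.dL h.hL
  dR := traRd P C.dR h.hR
  mid s := ⟨C.mid s.1, h.hm _ s.2⟩
  fin := traFin C P h

theorem traRestr_round {F1 F2 S : Type} (C : CM F1 F2 S) (P : S → Prop) (h : TraClosed C P)
    (s : {s // P s}) (J : List Bool) :
    ∃ t : {s // P s}, ((traRestr C P h).round s J).1 = traFin C P h t ∧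
      (C.round s.1 J).1 = C.fin t.1 ∧ ((traRestr C P h).round s J).2 = (C.round s.1 J).2 := by
  have h1 := traRd_pass P C.dL h.hL J s
  have h2 := traRd_pass P C.dR h.hR (pass (traRd P C.dL h.hL) s J).2.reverse
    ⟨C.mid (pass (traRd P C.dL h.hL) s J).1.1, h.hm _ (pass (traRd P C.dL h.hL) s J).1.2⟩
  refine ⟨_, rfl, ?_, ?_⟩
  · show C.fin _ = C.fin _
    congr 1
    rw [← h1.1, ← h1.2]
    exact h2.1.symm
  · show List.reverse _ = List.reverse _
    congr 1
    rw [← h1.1, ← h1.2]
    exact h2.2

theorem traRestr_rounds {F1 F2 S : Type} (C : CM F1 F2 S) (P : S → Prop) (h : TraClosed C P)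
    {s : S} {J : List Bool} {f : F2} {J' : List Bool} (hr : C.Rounds s J f J') :
    ∀ hs : P s, (traRestr C P h).Rounds ⟨s, hs⟩ J f J' := by
  induction hr with
  | @done s J f J' e =>
    intro hs
    obtain ⟨t, e1, e2, e3⟩ := traRestr_round C P h ⟨s, hs⟩ J
    simp only [e] at e2 e3
    refine CM.Rounds.done (Prod.ext ?_ e3)
    rw [e1]
    exact traFin_inr C P h t f e2.symm
  | @more s J s1 J1 f J' e _ ih =>
    intro hs
    obtain ⟨t, e1, e2, e3⟩ := traRestr_round C P h ⟨s, hs⟩ J
    simp only [e] at e2 e3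
    obtain ⟨h', e4⟩ := traFin_inl C P h t s1 e2.symm
    exact CM.Rounds.more (s1 := ⟨s1, h'⟩) (J1 := J1) (Prod.ext (e1.trans e4) e3) (ih h')

/-- states: small field and flags, phase, two integers -/
abbrev TraS (F1 : Type) : Type := (F1 × Bool × Bool) × Option Bool × ℤ × ℤ

variable {F1 F2 : Type}

def traPar (A : NM F1 F2) (p : F1 × Bool × Bool) : ℤ × ℤ × ℤ × ℤ := A.par p.1 p.2.1 p.2.2

theorem traPar_pos (A : NM F1 F2) (p : F1 × Bool × Bool) : 0 < (traPar A p).2.2.2 := A.pos _ _ _

def traL (A : NM F1 F2) : TraS F1 → Bool → TraS F1 × Bool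
  | (p, none, x, y), b => (((p.1, p.2.1 && !b, p.2.2 && b), none, x, y), b)
  | (p, some false, x, y), b =>
      ((p, some false, ((traPar A p).1 * b.toNat + x) / 2, y),
        decide (((traPar A p).1 * b.toNat + x) % 2 = 1))
  | (p, some true, x, y), b => ((p, some true, x, y), b)

def traR (A : NM F1 F2) : TraS F1 → Bool → TraS F1 × Bool
  | (p, none, x, y), b => ((p, none, x, y), b)
  | (p, some false, x, y), b => ((p, some false, x, y), b)
  | (p, some true, x, y), b =>
      ((p, some true, x, if (traPar A p).2.2.2 ≤ 2 * y + b.toNat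
          then 2 * y + b.toNat - (traPar A p).2.2.2 else 2 * y + b.toNat),
        decide ((traPar A p).2.2.2 ≤ 2 * y + b.toNat))

def traM (A : NM F1 F2) : TraS F1 → TraS F1
  | (p, none, x, y) => (p, none, x, y)
  | (p, some false, x, _) =>
      (p, some true, (x + (traPar A p).2.2.1) / (traPar A p).2.2.2,
        (x + (traPar A p).2.2.1) % (traPar A p).2.2.2)
  | (p, some true, x, y) => (p, some true, x, y)

def traF (A : NM F1 F2) : TraS F1 → TraS F1 ⊕ F2
  | (p, none, _, _) => Sum.inl (p, some false, (traPar A p).2.1, 0)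
  | (p, some false, x, y) => Sum.inl (p, some false, x, y)
  | (p, some true, x, y) => Sum.inr (A.outp p.1 p.2.1 p.2.2 x y)

def traC (A : NM F1 F2) : CM F1 F2 (TraS F1) where
  init f := ((f, true, true), none, 0, 0)
  dL := traL A
  dR := traR A
  mid := traM A
  fin := traF A

def traP (A : NM F1 F2) : TraS F1 → Prop
  | (_, none, x, y) => x = 0 ∧ y = 0
  | (p, some false, x, y) => |x| ≤ |(traPar A p).1| + |(traPar A p).2.1| ∧ y = 0
  | (p, some true, x, y) =>
      |x| ≤ |(traPar A p).1| + |(traPar A p).2.1| + |(traPar A p).2.2.1| ∧ 0 ≤ y ∧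
        y < (traPar A p).2.2.2

theorem tra_closed (A : NM F1 F2) : TraClosed (traC A) (traP A) where
  hi f := ⟨rfl, rfl⟩
  hL := by
    rintro ⟨p, _ | _ | _, x, y⟩ b h
    · exact h
    · refine ⟨?_, h.2⟩
      have h1 := h.1
      show |((traPar A p).1 * b.toNat + x) / 2| ≤ _
      have h2 := abs_nonneg (traPar A p).2.1
      have h3 := le_abs_self (traPar A p).1
      have h4 := neg_abs_le (traPar A p).1
      rw [abs_le] at h1 ⊢
      cases b <;> simp <;> omega
    · exact h
  hR := by
    rintro ⟨p, _ | _ | _, x, y⟩ b h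
    · exact h
    · exact h
    · obtain ⟨h1, h2, h3⟩ := h
      refine ⟨h1, ?_, ?_⟩
      · split_ifs <;> omega
      · split_ifs
        · cases b <;> simp <;> omega
        · omega
  hm := by
    rintro ⟨p, _ | _ | _, x, y⟩ h
    · exact h
    · have hp := traPar_pos A p
      refine ⟨?_, Int.emod_nonneg _ hp.ne', Int.emod_lt_of_pos _ hp⟩
      have h1 := h.1
      have h2 := Int.abs_ediv_le_abs (x + (traPar A p).2.2.1) (traPar A p).2.2.2
      have h3 := abs_add_le x (traPar A p).2.2.1
      omega
    · exact h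
  hf := by
    rintro ⟨p, _ | _ | _, x, y⟩ s' h e
    · obtain rfl := Sum.inl.inj e
      refine ⟨?_, rfl⟩
      have := abs_nonneg (traPar A p).1
      omega
    · obtain rfl := Sum.inl.inj e
      exact h
    · exact absurd e (by simp [traC, traF])

theorem tra_finite [Finite F1] (A : NM F1 F2) : Finite {s // traP A s} := by
  let B : F1 × Bool × Bool → ℤ := fun p =>
    |(traPar A p).1| + |(traPar A p).2.1| + |(traPar A p).2.2.1| + (traPar A p).2.2.2
  have hfin : (⋃ p : F1 × Bool × Bool, ({p} : Set (F1 × Bool × Bool)) ×ˢ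
      ((Set.univ : Set (Option Bool)) ×ˢ (Set.Icc (-B p) (B p) ×ˢ Set.Icc (-B p) (B p)))).Finite :=
    Set.finite_iUnion fun p => (Set.finite_singleton p).prod
      (Set.finite_univ.prod ((Set.finite_Icc _ _).prod (Set.finite_Icc _ _)))
  refine (hfin.subset ?_ : {s | traP A s}.Finite).to_subtype
  rintro ⟨p, o, x, y⟩ h
  refine Set.mem_iUnion.2 ⟨p, rfl, trivial, ?_⟩
  have h0 := traPar_pos A p
  have h1 := abs_nonneg (traPar A p).1
  have h2 := abs_nonneg (traPar A p).2.1
  have h3 := abs_nonneg (traPar A p).2.2.1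
  show (-B p ≤ x ∧ x ≤ B p) ∧ (-B p ≤ y ∧ y ≤ B p)
  simp only [B]
  rcases o with _ | _ | _
  · obtain ⟨rfl, rfl⟩ := h
    omega
  · obtain ⟨h4, rfl⟩ := h
    rw [abs_le] at h4
    omega
  · obtain ⟨h4, h5, h6⟩ := h
    rw [abs_le] at h4
    omega

theorem tra_test (A : NM F1 F2) (f : F1) (x y : ℤ) (J : List Bool) :
    ∀ z0 z1 : Bool, pass (traL A) ((f, z0, z1), none, x, y) J =
      (((f, z0 && decide (val J = 0), z1 && decide (val J + 1 = 2 ^ J.length)), none, x, y), J) := by
  induction J with
  | nil => intro z0 z1; simp [pass, val]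
  | cons b l ih =>
    intro z0 z1
    simp only [pass, traL, ih, val, List.length_cons, pow_succ]
    have e0 : (!b && decide (val l = 0)) = decide (2 * val l + b.toNat = 0) := by
      cases b <;> simp
    have e1 : (b && decide (val l + 1 = 2 ^ l.length)) =
        decide (2 * val l + b.toNat + 1 = 2 ^ l.length * 2) := by
      generalize 2 ^ l.length = w
      cases b <;> simp <;> omega
    rw [Bool.and_assoc, Bool.and_assoc, e0, e1]
    congr

theorem tra_id (A : NM F1 F2) (p : F1 × Bool × Bool) (x y : ℤ) (J : List Bool) :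
    pass (traR A) (p, none, x, y) J = ((p, none, x, y), J) := by
  induction J with
  | nil => simp [pass]
  | cons b l ih => simp only [pass, traR, ih]

theorem tra_mul (A : NM F1 F2) (p : F1 × Bool × Bool) (y : ℤ) (J : List Bool) :
    ∀ x : ℤ, ∃ (c : ℤ) (J1 : List Bool),
      pass (traL A) (p, some false, x, y) J = ((p, some false, c, y), J1) ∧
      (traPar A p).1 * val J + x = val J1 + c * 2 ^ J.length := by
  induction J with
  | nil => intro x; exact ⟨x, [], rfl, by simp [val]⟩
  | cons b l ih =>
    intro x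
    obtain ⟨c, J1, e1, e2⟩ := ih (((traPar A p).1 * b.toNat + x) / 2)
    refine ⟨c, decide (((traPar A p).1 * b.toNat + x) % 2 = 1) :: J1, ?_, ?_⟩
    · simp only [pass, traL, e1]
    · have e3 : (traPar A p).1 * b.toNat + x = 2 * (((traPar A p).1 * b.toNat + x) / 2) +
          ((decide (((traPar A p).1 * b.toNat + x) % 2 = 1)).toNat : ℤ) := by
        generalize (traPar A p).1 * b.toNat + x = t
        by_cases ht : t % 2 = 1 <;> simp [ht] <;> omega
      simp only [val, List.length_cons, pow_succ]
      push_cast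
      linear_combination 2 * e2 + e3

theorem tra_div (A : NM F1 F2) (p : F1 × Bool × Bool) (x : ℤ) (L : List Bool) :
    ∀ y : ℤ, 0 ≤ y → y < (traPar A p).2.2.2 → ∃ (r : ℤ) (L1 : List Bool),
      pass (traR A) (p, some true, x, y) L = ((p, some true, x, r), L1) ∧ 0 ≤ r ∧
      r < (traPar A p).2.2.2 ∧ L1.length = L.length ∧
      y * 2 ^ L.length + val L.reverse = (traPar A p).2.2.2 * val L1.reverse + r := by
  induction L with
  | nil => intro y h0 h1; exact ⟨y, [], rfl, h0, h1, rfl, by simp [val]⟩
  | cons b l ih =>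
    intro y h0 h1
    obtain ⟨r, L1, e1, e2, e3, e4, e5⟩ := ih (if (traPar A p).2.2.2 ≤ 2 * y + b.toNat
          then 2 * y + b.toNat - (traPar A p).2.2.2 else 2 * y + b.toNat)
      (by split_ifs <;> omega)
      (by
        split_ifs
        · cases b <;> simp <;> omega
        · omega)
    refine ⟨r, decide ((traPar A p).2.2.2 ≤ 2 * y + b.toNat) :: L1, ?_, e2, e3, by simp [e4], ?_⟩
    · simp only [pass, traR, e1]
    · simp only [List.reverse_cons, tra_val_snoc, List.length_cons, pow_succ,
        List.length_reverse, e4]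
      push_cast
      by_cases hd : (traPar A p).2.2.2 ≤ 2 * y + b.toNat
      · simp only [hd, if_true, decide_true, Bool.toNat_true] at e5 ⊢
        push_cast
        linear_combination e5
      · simp only [hd, if_false, decide_false, Bool.toNat_false] at e5 ⊢
        push_cast
        linear_combination e5

theorem tra_main (A : NM F1 F2) (f : F1) (J : List Bool) :
    ∃ J' : List Bool, (traC A).Rounds ((traC A).init f) J (A.f2 J.length f (val J)) J' ∧
      J'.length = J.length ∧ val J' = A.J2 J.length f (val J) := by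
  set p : F1 × Bool × Bool :=
    (f, decide (val J = 0), decide (val J + 1 = 2 ^ J.length)) with hp
  have r1 : (traC A).round ((traC A).init f) J =
      (Sum.inl (p, some false, (traPar A p).2.1, 0), J) := by
    simp only [CM.round, traC, tra_test, traM, tra_id, traF, List.reverse_reverse, Bool.true_and,
      hp]
  have hd := traPar_pos A p
  obtain ⟨c, J1, e1, e2⟩ := tra_mul A p 0 J (traPar A p).2.1
  have l1 : J1.length = J.length := by
    have := tra_len (traL A) J (p, some false, (traPar A p).2.1, 0)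
    rwa [e1] at this
  obtain ⟨r, L1, e3, r0, rd, l2, e4⟩ := tra_div A p ((c + (traPar A p).2.2.1) / (traPar A p).2.2.2)
    J1.reverse ((c + (traPar A p).2.2.1) % (traPar A p).2.2.2)
    (Int.emod_nonneg _ hd.ne') (Int.emod_lt_of_pos _ hd)
  rw [List.length_reverse, l1] at l2
  rw [List.length_reverse, l1, List.reverse_reverse] at e4
  have r2 : (traC A).round (p, some false, (traPar A p).2.1, 0) J =
      (Sum.inr (A.outp p.1 p.2.1 p.2.2 ((c + (traPar A p).2.2.1) / (traPar A p).2.2.2) r),
        L1.reverse) := by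
    simp only [CM.round, traC, e1, traM, e3, traF]
  have hT : A.T J.length f (val J) = r + (traPar A p).2.2.2 *
      (val L1.reverse + 2 ^ J.length * ((c + (traPar A p).2.2.1) / (traPar A p).2.2.2)) := by
    have e5 := Int.emod_add_mul_ediv (c + (traPar A p).2.2.1) (traPar A p).2.2.2
    show (traPar A p).1 * val J + (traPar A p).2.2.1 * 2 ^ J.length + (traPar A p).2.1 = _
    linear_combination e2 + e4 - 2 ^ J.length * e5
  have hdd : A.d J.length f (val J) = (traPar A p).2.2.2 := rfl
  have hq : A.T J.length f (val J) / A.d J.length f (val J) =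
      val L1.reverse + 2 ^ J.length * ((c + (traPar A p).2.2.1) / (traPar A p).2.2.2) := by
    rw [hT, hdd, Int.add_mul_ediv_left _ _ hd.ne', Int.ediv_eq_zero_of_lt r0 rd, zero_add]
  have hr : A.T J.length f (val J) % A.d J.length f (val J) = r := by
    rw [hT, hdd, Int.add_mul_emod_self_left, Int.emod_eq_of_lt r0 rd]
  have hv0 : (0 : ℤ) ≤ val L1.reverse := Int.natCast_nonneg _
  have hv1 : (val L1.reverse : ℤ) < 2 ^ J.length := by
    have := tra_val_lt L1.reverse
    rw [List.length_reverse, l2] at this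
    exact_mod_cast this
  have h2 : (2 : ℤ) ^ J.length ≠ 0 := by positivity
  refine ⟨L1.reverse, CM.Rounds.more r1 (CM.Rounds.done ?_), by simp [l2], ?_⟩
  · rw [r2, NM.f2, hq, hr, Int.add_mul_ediv_left _ _ h2, Int.ediv_eq_zero_of_lt hv0 hv1, zero_add]
  · rw [NM.J2, hq, Int.add_mul_emod_self_left, Int.emod_eq_of_lt hv0 hv1, Int.toNat_natCast]

end TransAux

/-- ROW TRA: two rounds of passes (test, then multiply and divide) compute stage 1 of machine N. -/
theorem trans (F1 F2 : Type) [Finite F1] (A : NM F1 F2) :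
    ∃ (Sg : Type) (_ : Finite Sg) (C : CM F1 F2 Sg), ∀ (f : F1) (J : List Bool),
      ∃ J' : List Bool, C.Rounds (C.init f) J (A.f2 J.length f (val J)) J' ∧
        J'.length = J.length ∧ val J' = A.J2 J.length f (val J) := by
  refine ⟨_, tra_finite A, traRestr (traC A) (traP A) (tra_closed A), fun f J => ?_⟩
  obtain ⟨J', h1, h2, h3⟩ := tra_main A f J
  exact ⟨J', traRestr_rounds (traC A) (traP A) (tra_closed A) h1 _, h2, h3⟩

end Pool.Agent.MP_47ff19_lc.H6P
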