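import Pool.Agent.MP_47ff19_lc.H6P.Defs

namespace Pool.Agent.MP_47ff19_lc.H6P

open Relation

open Classical in
/-- the displacement that an instruction really causes -/
noncomputable def hEff (s : Sym Unit) (d : SignType) : SignType :=
  if (s = Sym.lft ∧ d = -1) ∨ (s = Sym.rgt ∧ d = 1) then 0 else d

/-- a move by `-d` stays on the tape -/
def hCan (s : Sym Unit) (d : SignType) : Prop :=
  ¬ (s = Sym.lft ∧ d = 1) ∧ ¬ (s = Sym.rgt ∧ d = -1)

theorem h_lft (N p : ℕ) : tape (un N) p = Sym.lft ↔ p = 0 := by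
  rw [tape_un]
  split_ifs with h1 h2 <;> simp [h1]

theorem h_rgt (N p : ℕ) : tape (un N) p = Sym.rgt ↔ N < p := by
  rw [tape_un]
  split_ifs with h1 h2
  · simp [h1]
  · simp; omega
  · simp; omega

theorem h_mv0 (N x : ℕ) : mv N x 0 = x := rfl
theorem h_mv1 (N x : ℕ) : mv N x 1 = min (x + 1) (N + 1) := rfl
theorem h_mv2 (N x : ℕ) : mv N x (-1) = x - 1 := rfl

theorem h_cases (d : SignType) : d = 0 ∨ d = -1 ∨ d = 1 := by
  cases d
  · exact Or.inl rfl
  · exact Or.inr (Or.inl rfl)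
  · exact Or.inr (Or.inr rfl)

theorem h_le (N x : ℕ) (d : SignType) (hx : x ≤ N + 1) : mv N x d ≤ N + 1 := by
  rcases h_cases d with rfl | rfl | rfl
  · exact hx
  · rw [h_mv2]; omega
  · rw [h_mv1]; omega

theorem h_e1 (N x : ℕ) (d : SignType) (hx : x ≤ N + 1) :
    mv N x (hEff (tape (un N) x) d) = mv N x d := by
  unfold hEff
  split_ifs with h
  · rw [h_lft, h_rgt] at h
    rcases h with ⟨h, rfl⟩ | ⟨h, rfl⟩
    · rw [h_mv0, h_mv2]; omega
    · rw [h_mv0, h_mv1]; omega
  · rfl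

theorem h_e2 (N x : ℕ) (d : SignType) (hx : x ≤ N + 1) (h : hCan (tape (un N) x) d) :
    mv N (mv N x (-d)) d = x := by
  unfold hCan at h
  rw [h_lft, h_rgt] at h
  rcases h_cases d with rfl | rfl | rfl
  · rfl
  · have : ¬ N < x := fun k => h.2 ⟨k, rfl⟩
    rw [neg_neg, h_mv1, h_mv2]; omega
  · have : ¬ x = 0 := fun k => h.1 ⟨k, rfl⟩
    rw [h_mv1, h_mv2]; omega

theorem h_e3 (N x : ℕ) (d : SignType) (hx : x ≤ N + 1) :
    hCan (tape (un N) (mv N x d)) (hEff (tape (un N) x) d) ∧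
      mv N (mv N x d) (-(hEff (tape (un N) x) d)) = x := by
  unfold hEff hCan
  simp only [h_lft, h_rgt]
  split_ifs with h
  · refine ⟨⟨fun k => absurd k.2 (by decide), fun k => absurd k.2 (by decide)⟩, ?_⟩
    rcases h with ⟨h, rfl⟩ | ⟨h, rfl⟩
    · rw [neg_zero, h_mv0, h_mv2]; omega
    · rw [neg_zero, h_mv0, h_mv1]; omega
  · rcases h_cases d with rfl | rfl | rfl
    · exact ⟨⟨fun k => absurd k.2 (by decide), fun k => absurd k.2 (by decide)⟩, rfl⟩
    · have : ¬ x = 0 := fun k => h (Or.inl ⟨k, rfl⟩)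
      refine ⟨⟨fun k => absurd k.2 (by decide), fun k => ?_⟩, ?_⟩
      · have := k.1
        rw [h_mv2] at this; omega
      · rw [neg_neg, h_mv1, h_mv2]; omega
    · have : ¬ N < x := fun k => h (Or.inr ⟨k, rfl⟩)
      refine ⟨⟨fun k => ?_, fun k => absurd k.2 (by decide)⟩, ?_⟩
      · have := k.1
        rw [h_mv1] at this; omega
      · rw [h_mv1, h_mv2]; omega

abbrev HSt (Q : Type) (n : ℕ) := (Q × Fin (n + 1)) ⊕ (Q × Fin n) ⊕ Bool

open Classical in
/-- Sipser's backward depth-first search -/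
noncomputable def hDfs {Q : Type} {n : ℕ} (M : TwoHead Unit Q) (fin : Q)
    (e : (Q × SignType × SignType) ≃ Fin n) : TwoHead Unit (HSt Q n) where
  start := Sum.inl (fin, 0)
  acc := fun _ => False
  δ := fun st s1 s2 b =>
    match st with
    | Sum.inl (q, i) =>
      if h : i = Fin.last n then
        if q = M.start ∧ s1 = Sym.lft ∧ s2 = Sym.lft then (Sum.inr (Sum.inr true), 0, 0)
        else if q = fin then (Sum.inr (Sum.inr false), 0, 0)
        else (Sum.inl ((M.δ q s1 s2 b).1,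
          (e (q, hEff s1 (M.δ q s1 s2 b).2.1, hEff s2 (M.δ q s1 s2 b).2.2)).succ),
          (M.δ q s1 s2 b).2.1, (M.δ q s1 s2 b).2.2)
      else
        if hCan s1 (e.symm (i.castPred h)).2.1 ∧ hCan s2 (e.symm (i.castPred h)).2.2 then
          (Sum.inr (Sum.inl (q, i.castPred h)), -(e.symm (i.castPred h)).2.1,
            -(e.symm (i.castPred h)).2.2)
        else (Sum.inl (q, (i.castPred h).succ), 0, 0)
    | Sum.inr (Sum.inl (q, j)) =>
      if (e.symm j).1 ≠ fin ∧ (M.δ (e.symm j).1 s1 s2 b).1 = q ∧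
          hEff s1 (M.δ (e.symm j).1 s1 s2 b).2.1 = (e.symm j).2.1 ∧
          hEff s2 (M.δ (e.symm j).1 s1 s2 b).2.2 = (e.symm j).2.2 then
        (Sum.inl ((e.symm j).1, 0), 0, 0)
      else (Sum.inl (q, j.succ), (e.symm j).2.1, (e.symm j).2.2)
    | Sum.inr (Sum.inr c) => (Sum.inr (Sum.inr c), 0, 0)

/-- what `M` does in the configuration `c` -/
def hIns {Q : Type} (M : TwoHead Unit Q) (N : ℕ) (c : Q × ℕ × ℕ) : Q × SignType × SignType :=
  M.δ c.1 (tape (un N) c.2.1) (tape (un N) c.2.2) (decide (c.2.1 = c.2.2))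

theorem h_step {Q : Type} (M : TwoHead Unit Q) (N : ℕ) (c : Q × ℕ × ℕ) :
    M.step (un N) c =
      ((hIns M N c).1, mv N c.2.1 (hIns M N c).2.1, mv N c.2.2 (hIns M N c).2.2) := by
  simp [TwoHead.step, hIns]

/-- `c'` is a child of `c` -/
def hR {Q : Type} (M : TwoHead Unit Q) (fin : Q) (N : ℕ) (c' c : Q × ℕ × ℕ) : Prop :=
  c'.2.1 ≤ N + 1 ∧ c'.2.2 ≤ N + 1 ∧ c'.1 ≠ fin ∧ M.step (un N) c' = c

noncomputable def hLab {Q : Type} (M : TwoHead Unit Q) (N : ℕ) (c : Q × ℕ × ℕ) :
    Q × SignType × SignType :=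
  (c.1, hEff (tape (un N) c.2.1) (hIns M N c).2.1, hEff (tape (un N) c.2.2) (hIns M N c).2.2)

inductive hD {Q : Type} (M : TwoHead Unit Q) (fin : Q) (N : ℕ) : ℕ → Q × ℕ × ℕ → Prop
  | root : hD M fin N 0 (fin, 0, 0)
  | down {k c' c} : hR M fin N c' c → hD M fin N k c → hD M fin N (k + 1) c'

theorem hD.rng {Q : Type} {M : TwoHead Unit Q} {fin : Q} {N k : ℕ} {c : Q × ℕ × ℕ}
    (h : hD M fin N k c) : c.2.1 ≤ N + 1 ∧ c.2.2 ≤ N + 1 := by
  cases h with
  | root => simp
  | down h _ => exact ⟨h.1, h.2.1⟩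

theorem hD.uniq {Q : Type} {M : TwoHead Unit Q} {fin : Q} {N k : ℕ} {c : Q × ℕ × ℕ}
    (h : hD M fin N k c) : ∀ k', hD M fin N k' c → k' = k := by
  induction h with
  | root =>
    intro k' h'
    generalize hc : ((fin, 0, 0) : Q × ℕ × ℕ) = c at h'
    cases h' with
    | root => rfl
    | down h1 _ => exact absurd (by rw [← hc]) h1.2.2.1
  | down h1 _ ih =>
    intro k' h'
    cases h' with
    | root => exact absurd rfl h1.2.2.1
    | down h2 h3 =>
      have e := h2.2.2.2.symm.trans h1.2.2.2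
      rw [e] at h3
      rw [ih _ h3]

theorem hD.toRoot {Q : Type} {M : TwoHead Unit Q} {fin : Q} {N k : ℕ} {c : Q × ℕ × ℕ}
    (h : hD M fin N k c) : ReflTransGen (hR M fin N) c (fin, 0, 0) := by
  induction h with
  | root => exact ReflTransGen.refl
  | down h1 _ ih => exact ReflTransGen.head h1 ih

theorem hD_bound {Q : Type} [Finite Q] (M : TwoHead Unit Q) (fin : Q) (N : ℕ) :
    ∃ B, ∀ k c, hD M fin N k c → k ≤ B := by
  classical
  have := Fintype.ofFinite Q
  let f : Q × ℕ × ℕ → ℕ := fun c => if h : ∃ k, hD M fin N k c then h.choose else 0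
  refine ⟨((Finset.univ : Finset Q) ×ˢ (Finset.range (N + 2) ×ˢ Finset.range (N + 2))).sup f,
    fun k c h => ?_⟩
  have h1 : ∃ k, hD M fin N k c := ⟨k, h⟩
  have h2 : k = f c := by
    simp only [f, dif_pos h1]
    exact h1.choose_spec.uniq k h
  rw [h2]
  apply Finset.le_sup
  have := h.rng
  simp only [Finset.mem_product, Finset.mem_univ, Finset.mem_range, true_and]
  omega

/-- reachability in the search machine -/
def hGo {Q : Type} (M : TwoHead Unit Q) (N : ℕ) (a b : Q × ℕ × ℕ) : Prop :=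
  ∃ t, (M.step (un N))^[t] a = b

theorem hGo.refl {Q : Type} (M : TwoHead Unit Q) (N : ℕ) (a : Q × ℕ × ℕ) : hGo M N a a :=
  ⟨0, rfl⟩

theorem hGo.trans {Q : Type} {M : TwoHead Unit Q} {N : ℕ} {a b c : Q × ℕ × ℕ}
    (h : hGo M N a b) (h' : hGo M N b c) : hGo M N a c := by
  obtain ⟨t, rfl⟩ := h
  obtain ⟨s, rfl⟩ := h'
  exact ⟨s + t, Function.iterate_add_apply _ _ _ _⟩

theorem hGo.one {Q : Type} {M : TwoHead Unit Q} {N : ℕ} {a : Q × ℕ × ℕ} {q : Q}
    {d1 d2 : SignType} (h : hIns M N a = (q, d1, d2)) :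
    hGo M N a (q, mv N a.2.1 d1, mv N a.2.2 d2) :=
  ⟨1, by rw [Function.iterate_one, h_step, h]⟩

section
variable {Q : Type} {n : ℕ} (M : TwoHead Unit Q) (fin : Q)
  (e : (Q × SignType × SignType) ≃ Fin n) (N : ℕ)

theorem h_yes : hGo (hDfs M fin e) N (Sum.inl (M.start, Fin.last n), 0, 0)
    (Sum.inr (Sum.inr true), 0, 0) := by
  have : hIns (hDfs M fin e) N (Sum.inl (M.start, Fin.last n), 0, 0) =
      (Sum.inr (Sum.inr true), 0, 0) := by
    simp [hIns, hDfs, h_lft]
  exact hGo.one this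

theorem h_no (h : fin ≠ M.start) : hGo (hDfs M fin e) N (Sum.inl (fin, Fin.last n), 0, 0)
    (Sum.inr (Sum.inr false), 0, 0) := by
  have : hIns (hDfs M fin e) N (Sum.inl (fin, Fin.last n), 0, 0) =
      (Sum.inr (Sum.inr false), 0, 0) := by
    simp [hIns, hDfs, h]
  exact hGo.one this

theorem h_up (c : Q × ℕ × ℕ) (h1 : c ≠ (M.start, 0, 0)) (h2 : c.1 ≠ fin) :
    hGo (hDfs M fin e) N (Sum.inl (c.1, Fin.last n), c.2)
      (Sum.inl ((M.step (un N) c).1, (e (hLab M N c)).succ), (M.step (un N) c).2) := by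
  obtain ⟨q, x, y⟩ := c
  have h3 : ¬ (q = M.start ∧ tape (un N) x = Sym.lft ∧ tape (un N) y = Sym.lft) := by
    rw [h_lft, h_lft]
    rintro ⟨rfl, rfl, rfl⟩
    exact h1 rfl
  have : hIns (hDfs M fin e) N (Sum.inl (q, Fin.last n), x, y) =
      (Sum.inl ((hIns M N (q, x, y)).1, (e (hLab M N (q, x, y))).succ),
        (hIns M N (q, x, y)).2.1, (hIns M N (q, x, y)).2.2) := by
    simp only [hIns, hDfs, hLab, dif_pos, if_neg h3, if_neg h2]
  rw [h_step]
  exact hGo.one this

theorem h_try (c : Q × ℕ × ℕ) (hx : c.2.1 ≤ N + 1) (hy : c.2.2 ≤ N + 1) (j : Fin n) :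
    (∃ c1, hR M fin N c1 c ∧ e (hLab M N c1) = j ∧ (∀ c2, hR M fin N c2 c →
        e (hLab M N c2) = j → c2 = c1) ∧
      hGo (hDfs M fin e) N (Sum.inl (c.1, j.castSucc), c.2) (Sum.inl (c1.1, 0), c1.2)) ∨
    ((∀ c1, hR M fin N c1 c → e (hLab M N c1) ≠ j) ∧
      hGo (hDfs M fin e) N (Sum.inl (c.1, j.castSucc), c.2) (Sum.inl (c.1, j.succ), c.2)) := by
  obtain ⟨q, x, y⟩ := c
  obtain ⟨⟨q', d1, d2⟩, rfl⟩ := e.surjective j
  have hne : (e (q', d1, d2)).castSucc ≠ Fin.last n := Fin.castSucc_ne_last _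
  have child : ∀ c1, hR M fin N c1 (q, x, y) → e (hLab M N c1) = e (q', d1, d2) →
      (hCan (tape (un N) x) d1 ∧ hCan (tape (un N) y) d2) ∧
        c1 = (q', mv N x (-d1), mv N y (-d2)) := by
    rintro ⟨q1, x1, y1⟩ ⟨a1, a2, _, a4⟩ hl
    have hl := e.injective hl
    rw [h_step] at a4
    simp only [hLab, Prod.mk.injEq] at hl a4
    obtain ⟨rfl, rfl, rfl⟩ := hl
    obtain ⟨_, rfl, rfl⟩ := a4
    have b1 := h_e3 N x1 (hIns M N (q1, x1, y1)).2.1 a1
    have b2 := h_e3 N y1 (hIns M N (q1, x1, y1)).2.2 a2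
    exact ⟨⟨b1.1, b2.1⟩, by rw [b1.2, b2.2]⟩
  by_cases hc : hCan (tape (un N) x) d1 ∧ hCan (tape (un N) y) d2
  · have s1 : hIns (hDfs M fin e) N (Sum.inl (q, (e (q', d1, d2)).castSucc), x, y) =
        (Sum.inr (Sum.inl (q, e (q', d1, d2))), -d1, -d2) := by
      simp only [hIns, hDfs, dif_neg hne]
      rw [if_pos (by simpa using hc)]
      simp
    have g1 := hGo.one s1
    have r1 := h_le N x (-d1) hx
    have r2 := h_le N y (-d2) hy
    have u1 := h_e2 N x d1 hx hc.1
    have u2 := h_e2 N y d2 hy hc.2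
    by_cases hk : q' ≠ fin ∧ (hIns M N (q', mv N x (-d1), mv N y (-d2))).1 = q ∧
        hEff (tape (un N) (mv N x (-d1))) (hIns M N (q', mv N x (-d1), mv N y (-d2))).2.1 = d1 ∧
        hEff (tape (un N) (mv N y (-d2))) (hIns M N (q', mv N x (-d1), mv N y (-d2))).2.2 = d2
    · left
      have s2 : hIns (hDfs M fin e) N
          (Sum.inr (Sum.inl (q, e (q', d1, d2))), mv N x (-d1), mv N y (-d2)) =
          (Sum.inl (q', 0), 0, 0) := by
        simp only [hIns] at hk
        simp only [hIns, hDfs]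
        rw [Equiv.symm_apply_apply, if_pos hk]
      refine ⟨(q', mv N x (-d1), mv N y (-d2)), ⟨r1, r2, hk.1, ?_⟩, ?_,
        fun c2 k1 k2 => (child c2 k1 k2).2, g1.trans (hGo.one s2)⟩
      · rw [h_step, ← h_e1 N _ _ r1, ← h_e1 N (mv N y (-d2)) _ r2, hk.2.1, hk.2.2.1, hk.2.2.2,
          u1, u2]
      · simp only [hLab, hk.2.2.1, hk.2.2.2]
    · right
      have s2 : hIns (hDfs M fin e) N
          (Sum.inr (Sum.inl (q, e (q', d1, d2))), mv N x (-d1), mv N y (-d2)) =
          (Sum.inl (q, (e (q', d1, d2)).succ), d1, d2) := by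
        simp only [hIns] at hk
        simp only [hIns, hDfs]
        rw [Equiv.symm_apply_apply, if_neg hk]
      refine ⟨fun c1 k1 k2 => hk ?_, ?_⟩
      · obtain ⟨_, rfl⟩ := child c1 k1 k2
        have k3 := e.injective k2
        have k4 := k1.2.2.2
        rw [h_step] at k4
        simp only [hLab, Prod.mk.injEq] at k3 k4
        exact ⟨k1.2.2.1, k4.1, k3.2.1, k3.2.2⟩
      · have g2 := hGo.one s2
        simp only [u1, u2] at g2
        exact g1.trans g2
  · right
    have s1 : hIns (hDfs M fin e) N (Sum.inl (q, (e (q', d1, d2)).castSucc), x, y) =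
        (Sum.inl (q, (e (q', d1, d2)).succ), 0, 0) := by
      simp only [hIns, hDfs, dif_neg hne]
      rw [if_neg (by simpa only [Fin.castPred_castSucc, Equiv.symm_apply_apply] using hc)]
      simp
    exact ⟨fun c1 k1 k2 => hc (child c1 k1 k2).1, hGo.one s1⟩

theorem h_tree (B : ℕ) (hB : ∀ k c, hD M fin N k c → k ≤ B) :
    ∀ (m k : ℕ) (c : Q × ℕ × ℕ), B - k = m → hD M fin N k c →
      (hGo (hDfs M fin e) N (Sum.inl (c.1, 0), c.2) (Sum.inr (Sum.inr true), 0, 0) ∧
        ∃ k', hD M fin N k' (M.start, 0, 0)) ∨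
      (hGo (hDfs M fin e) N (Sum.inl (c.1, 0), c.2) (Sum.inl (c.1, Fin.last n), c.2) ∧
        ∀ c1, hR M fin N c1 c → ¬ ReflTransGen (hR M fin N) (M.start, 0, 0) c1) := by
  intro m
  induction m using Nat.strong_induction_on with
  | _ m ih =>
    intro k c hm hc
    have inner : ∀ i : Fin (n + 1),
        (hGo (hDfs M fin e) N (Sum.inl (c.1, 0), c.2) (Sum.inr (Sum.inr true), 0, 0) ∧
          ∃ k', hD M fin N k' (M.start, 0, 0)) ∨
        (hGo (hDfs M fin e) N (Sum.inl (c.1, 0), c.2) (Sum.inl (c.1, i), c.2) ∧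
          ∀ c1, hR M fin N c1 c → (e (hLab M N c1)).val < i.val →
            ¬ ReflTransGen (hR M fin N) (M.start, 0, 0) c1) := by
      intro i
      induction i using Fin.induction with
      | zero => exact Or.inr ⟨hGo.refl _ _ _, fun c1 _ h => absurd h (by simp)⟩
      | succ j ihj =>
        rcases ihj with h | ⟨g, hn⟩
        · exact Or.inl h
        rcases h_try M fin e N c hc.rng.1 hc.rng.2 j with ⟨c1, r1, l1, u1, g1⟩ | ⟨l1, g1⟩
        · have d1 := hD.down r1 hc
          have b1 := hB _ _ d1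
          rcases ih (B - (k + 1)) (by omega) (k + 1) c1 rfl d1 with ⟨g2, h2⟩ | ⟨g2, h2⟩
          · exact Or.inl ⟨g.trans (g1.trans g2), h2⟩
          by_cases hs : c1 = (M.start, 0, 0)
          · subst hs
            exact Or.inl ⟨g.trans (g1.trans (g2.trans (h_yes M fin e N))), _, d1⟩
          · have g3 := h_up M fin e N c1 hs r1.2.2.1
            rw [r1.2.2.2, l1] at g3
            refine Or.inr ⟨g.trans (g1.trans (g2.trans g3)), fun c2 r2 hl => ?_⟩
            by_cases hj : e (hLab M N c2) = j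
            · rw [u1 c2 r2 hj]
              intro hh
              rcases hh.cases_tail with h3 | ⟨c3, h3, h4⟩
              · exact hs h3
              · exact h2 c3 h4 h3
            · refine hn c2 r2 ?_
              have : (e (hLab M N c2)).val ≠ j.val := fun k => hj (Fin.ext k)
              simp only [Fin.val_succ, Fin.val_castSucc] at hl ⊢
              omega
        · refine Or.inr ⟨g.trans g1, fun c2 r2 hl => hn c2 r2 ?_⟩
          have : (e (hLab M N c2)).val ≠ j.val := fun k => l1 c2 r2 (Fin.ext k)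
          simp only [Fin.val_succ, Fin.val_castSucc] at hl ⊢
          omega
    rcases inner (Fin.last n) with h | ⟨g, hn⟩
    · exact Or.inl h
    · exact Or.inr ⟨g, fun c1 r1 => hn c1 r1 (by simp)⟩

theorem h_search [Finite Q] : ∃ b : Bool,
    hGo (hDfs M fin e) N (Sum.inl (fin, 0), 0, 0) (Sum.inr (Sum.inr b), 0, 0) ∧
      (b = true ↔ ∃ k, hD M fin N k (M.start, 0, 0)) := by
  obtain ⟨B, hB⟩ := hD_bound M fin N
  rcases h_tree M fin e N B hB _ 0 (fin, 0, 0) rfl hD.root with ⟨g, h⟩ | ⟨g, h⟩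
  · exact ⟨true, g, by simp [h]⟩
  by_cases hs : fin = M.start
  · refine ⟨true, g.trans ?_, ?_⟩
    · have := h_yes M fin e N
      rw [← hs] at this
      exact this
    · simp only [true_iff]
      exact ⟨0, by rw [← hs]; exact hD.root⟩
  · refine ⟨false, g.trans (h_no M fin e N hs), ?_⟩
    simp only [Bool.false_eq_true, false_iff]
    rintro ⟨k, hk⟩
    rcases hk.toRoot.cases_tail with h3 | ⟨c3, h3, h4⟩
    · exact hs (congrArg Prod.fst h3)
    · exact h c3 h4 h3

end

open Classical in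
/-- after acceptance, sweep both heads to the left and enter the final state -/
noncomputable def hNorm {Q : Type} (M : TwoHead Unit Q) : TwoHead Unit (Q ⊕ Bool) where
  start := Sum.inl M.start
  acc := fun _ => False
  δ := fun st s1 s2 b =>
    match st with
    | Sum.inl q => if M.acc q then (Sum.inr false, 0, 0)
        else (Sum.inl (M.δ q s1 s2 b).1, (M.δ q s1 s2 b).2.1, (M.δ q s1 s2 b).2.2)
    | Sum.inr false => if s1 = Sym.lft ∧ s2 = Sym.lft then (Sum.inr true, 0, 0)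
        else (Sum.inr false, -1, -1)
    | Sum.inr true => (Sum.inr true, 0, 0)

theorem hn_acc {Q : Type} (M : TwoHead Unit Q) (N : ℕ) (q : Q) (x y : ℕ) (h : M.acc q) :
    (hNorm M).step (un N) (Sum.inl q, x, y) = (Sum.inr false, x, y) := by
  rw [h_step]
  simp [hIns, hNorm, h, h_mv0]

theorem hn_run {Q : Type} (M : TwoHead Unit Q) (N : ℕ) (q : Q) (x y : ℕ) (h : ¬ M.acc q) :
    (hNorm M).step (un N) (Sum.inl q, x, y) =
      (Sum.inl (M.step (un N) (q, x, y)).1, (M.step (un N) (q, x, y)).2) := by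
  rw [h_step, h_step]
  simp [hIns, hNorm, h]

theorem hn_sweep {Q : Type} (M : TwoHead Unit Q) (N : ℕ) : ∀ m x y : ℕ, x ≤ m → y ≤ m →
    x ≤ N + 1 → y ≤ N + 1 → ∃ k, hD (hNorm M) (Sum.inr true) N k (Sum.inr false, x, y) := by
  have base : ∃ k, hD (hNorm M) (Sum.inr true) N k (Sum.inr false, 0, 0) := by
    refine ⟨1, hD.down ⟨by simp, by simp, by simp, ?_⟩ hD.root⟩
    rw [h_step]
    simp [hIns, hNorm, h_lft, h_mv0]
  intro m
  induction m with
  | zero =>
    intro x y hx hy _ _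
    obtain rfl : x = 0 := by omega
    obtain rfl : y = 0 := by omega
    exact base
  | succ m ih =>
    intro x y hx hy hx' hy'
    by_cases h0 : x = 0 ∧ y = 0
    · obtain ⟨rfl, rfl⟩ := h0
      exact base
    · obtain ⟨k, hk⟩ := ih (x - 1) (y - 1) (by omega) (by omega) (by omega) (by omega)
      refine ⟨k + 1, hD.down ⟨hx', hy', by simp, ?_⟩ hk⟩
      rw [h_step]
      simp only [hIns, hNorm, h_lft, if_neg h0, h_mv2]

theorem hn_iff {Q : Type} (M : TwoHead Unit Q) (N : ℕ) :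
    (∃ k, hD (hNorm M) (Sum.inr true) N k ((hNorm M).start, 0, 0)) ↔ M.Accepts (un N) := by
  constructor
  · rintro ⟨k, hk⟩
    have key : ∀ k c, hD (hNorm M) (Sum.inr true) N k c → ∀ q, c.1 = Sum.inl q →
        ∃ t, M.acc ((M.step (un N))^[t] (q, c.2)).1 := by
      intro k c h
      induction h with
      | root => intro q hq; simp at hq
      | @down k c' c h1 _ ih =>
        intro q hq
        obtain ⟨q0, x, y⟩ := c'
        simp only at hq
        subst hq
        by_cases ha : M.acc q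
        · exact ⟨0, ha⟩
        · have e := h1.2.2.2
          rw [hn_run M N q x y ha] at e
          subst e
          obtain ⟨t, ht⟩ := ih _ rfl
          exact ⟨t + 1, by rw [Function.iterate_succ_apply]; exact ht⟩
    exact key k _ hk M.start rfl
  · rintro ⟨t, ht⟩
    have key : ∀ (t : ℕ) (q : Q) (x y : ℕ), x ≤ N + 1 → y ≤ N + 1 →
        M.acc ((M.step (un N))^[t] (q, x, y)).1 →
        ∃ k, hD (hNorm M) (Sum.inr true) N k (Sum.inl q, x, y) := by
      intro t
      induction t with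
      | zero =>
        intro q x y hx hy ha
        obtain ⟨k, hk⟩ := hn_sweep M N (N + 1) x y hx hy hx hy
        exact ⟨k + 1, hD.down ⟨hx, hy, by simp, hn_acc M N q x y ha⟩ hk⟩
      | succ t ih =>
        intro q x y hx hy h
        by_cases ha : M.acc q
        · obtain ⟨k, hk⟩ := hn_sweep M N (N + 1) x y hx hy hx hy
          exact ⟨k + 1, hD.down ⟨hx, hy, by simp, hn_acc M N q x y ha⟩ hk⟩
        · rw [Function.iterate_succ_apply] at h
          have r1 : (M.step (un N) (q, x, y)).2.1 ≤ N + 1 := by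
            rw [h_step]; exact h_le N x _ hx
          have r2 : (M.step (un N) (q, x, y)).2.2 ≤ N + 1 := by
            rw [h_step]; exact h_le N y _ hy
          obtain ⟨k, hk⟩ := ih _ _ _ r1 r2 h
          exact ⟨k + 1, hD.down ⟨hx, hy, by simp, hn_run M N q x y ha⟩ hk⟩
    exact key t M.start 0 0 (by omega) (by omega) ht

/-- ROW HLT (paper 3a, Sipser): a halting machine with absorbing halting states. -/
theorem halting (Q : Type) [Finite Q] (M : TwoHead Unit Q) :
    ∃ (Q' : Type) (_ : Finite Q') (M' : TwoHead Unit Q') (out : Q' → Option Bool),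
      (∀ q b s1 s2 e, out q = some b → M'.δ q s1 s2 e = (q, 0, 0)) ∧
      ∀ N : ℕ, ∃ (t : ℕ) (b : Bool), out ((M'.step (un N))^[t] (M'.start, 0, 0)).1 = some b ∧
        ((M'.step (un N))^[t] (M'.start, 0, 0)).2.1 = 0 ∧ (b = true ↔ M.Accepts (un N)) := by
  let e := Finite.equivFin ((Q ⊕ Bool) × SignType × SignType)
  refine ⟨HSt (Q ⊕ Bool) _, inferInstance, hDfs (hNorm M) (Sum.inr true) e,
    Sum.elim (fun _ => none) (Sum.elim (fun _ => none) some), ?_, fun N => ?_⟩
  · rintro (q | q | c) b s1 s2 e' h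
    · simp at h
    · simp at h
    · rfl
  · obtain ⟨b, ⟨t, ht⟩, hb⟩ := h_search (hNorm M) (Sum.inr true) e N
    have ht' : ((hDfs (hNorm M) (Sum.inr true) e).step (un N))^[t]
        ((hDfs (hNorm M) (Sum.inr true) e).start, 0, 0) = (Sum.inr (Sum.inr b), 0, 0) := ht
    exact ⟨t, b, by rw [ht']; rfl, by rw [ht'], hb.trans (hn_iff M N)⟩

end Pool.Agent.MP_47ff19_lc.H6P
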