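import Pool.Agent.MP_47ff19_lc.H6P.Defs

/-! The interpreter: definition and subroutines. -/

namespace Pool.Agent.MP_47ff19_lc.H6P.Itp

open Relation

inductive Ph where
  | a1 | a2 | a3 | a4 | e0 | e5 | e6 | e7 | e8 | e9

abbrev Gm (G : Type) := Option G ⊕ Option Bool
abbrev Inp (K G : Type) := K × Bool × Bool × Option G
abbrev Act (K G : Type) := K × MOp G × ROp

inductive Cx (K G : Type) (W : ℕ) where
  | ini : Cx K G W
  | pk : K → Option G → Cx K G W
  | co : Inp K G → Bool → Cx K G W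
  | lk : Inp K G → Cx K G W
  | sk : Inp K G → Bool → Fin (W + 1) → Cx K G W
  | rd : Fin (W + 1) → Cx K G W
  | dec : Act K G ⊕ Bool → Cx K G W
  | rs : Act K G → Cx K G W
  | bk : Act K G → Bool → Cx K G W
  | fin : Act K G → Cx K G W

structure Par (K G : Type) where
  k0 : K
  z : G
  M : ℕ
  W : ℕ
  ix : Inp K G → ℕ
  dc : ℕ → Act K G ⊕ Bool

open Ph Cx

variable {K G : Type} (p : Par K G)

abbrev St := Ph × Cx K G p.W

def uu : Gm G := Sum.inl none
def vv : Gm G := Sum.inr none
def tmp (d : Bool) : Gm G := Sum.inr (some d)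
def cn (c : ℕ) : Fin (p.W + 1) := Fin.ofNat (p.W + 1) c

def isU : Option (Gm G) → Bool
  | some (Sum.inl none) => true
  | _ => false

def isV : Option (Gm G) → Bool
  | some (Sum.inr none) => true
  | _ => false

def topG : Option (Gm G) → Option G
  | some (Sum.inl (some g)) => some g
  | _ => none

def isT : Option (Gm G) → Option Bool
  | some (Sum.inr (some d)) => some d
  | _ => none

def sym : Cx K G p.W → Gm G
  | ini => Sum.inl (some p.z)
  | lk _ => vv
  | _ => uu

def mainI (a : Act K G) : MOp G → Ins (St p) (Gm G)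
  | MOp.pop => Ins.pop (e5, fin a)
  | MOp.push g => Ins.push (Sum.inl (some g)) (e5, fin a)
  | _ => Ins.goto (e5, fin a)

def act : Cx K G p.W → Option (Gm G) → Ins (St p) (Gm G)
  | pk μ _, t => Ins.goto (e5, pk μ (topG t))
  | co κ d, _ => Ins.push (tmp d) (e5, co κ d)
  | bk a _, t => (isT t).elim (mainI p a a.2.1) fun d => Ins.pop (e5, bk a d)
  | c, _ => Ins.goto (a3, c)

def frzI (a : Act K G) : MOp G → Ins (St p) (Gm G)
  | MOp.frz g => Ins.push (Sum.inl (some g)) (e8, fin a)
  | _ => Ins.goto (e8, fin a)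

def f7 : Cx K G p.W → Option (Gm G) → Bool → Ins (St p) (Gm G)
  | ini, _, _ => Ins.zero (a1, pk p.k0 none)
  | pk μ τ, _, _ => Ins.half (e8, co (μ, false, false, τ) false) (e8, co (μ, true, false, τ) true)
  | co κ _, _, zr => if zr then Ins.goto (e0, lk κ) else Ins.half (a1, co κ false) (a1, co κ true)
  | lk κ, _, _ => Ins.zero (e8, lk κ)
  | sk κ fl x, t, _ =>
      if x.val = 0 then
        (if fl then (if isU t then Ins.pop (e7, sk κ true (cn p (2 * p.M)))
          else Ins.goto (e7, sk κ false (cn p (2 * p.ix κ)))) else Ins.goto (e7, rd (cn p 0)))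
      else Ins.half (e7, sk κ fl (cn p (x.val - 1))) (e7, sk κ fl x)
  | rd x, _, _ => Ins.half (e7, dec (p.dc x.val)) (e7, rd (cn p (x.val + 1)))
  | dec o, _, _ => o.elim (fun a => Ins.goto (e7, rs a)) fun _ => Ins.goto (e7, dec o)
  | rs a, _, _ => Ins.half (e9, rs a) (e8, rs a)
  | bk a d, _, _ => Ins.dbl (e8, bk a d)
  | fin a, _, _ => frzI p a a.2.1

def regI (a : Act K G) : ROp → Ins (St p) (Gm G)
  | ROp.keep => Ins.goto (a1, pk a.1 none)
  | ROp.pop => Ins.half (a1, pk a.1 none) (a1, pk a.1 none)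
  | ROp.push b => Ins.dbl (e9, bk a b)

def f8 : Cx K G p.W → Option (Gm G) → Bool → Ins (St p) (Gm G)
  | co κ d, _, zr => Ins.goto (a1, co (κ.1, κ.2.1, zr, κ.2.2.2) d)
  | lk κ, t, _ => if isV t then Ins.pop (e9, lk κ) else Ins.goto (e7, sk κ true (cn p 0))
  | rs a, _, _ => Ins.push uu (e7, rs a)
  | bk a d, _, _ => if d then Ins.inc (a1, bk a false) else Ins.goto (a1, bk a false)
  | fin a, _, _ => regI p a a.2.2
  | c, _, _ => Ins.goto (e8, c)

def f9 : Cx K G p.W → Ins (St p) (Gm G)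
  | lk κ => Ins.inc (e8, lk κ)
  | rs a => Ins.zero (a1, bk a false)
  | bk a d => if d then Ins.inc (a1, pk a.1 none) else Ins.goto (a1, pk a.1 none)
  | c => Ins.goto (e9, c)

def dl : Ph → Cx K G p.W → Option (Gm G) → Bool → Ins (St p) (Gm G)
  | a1, c, _, _ => Ins.dbl (a2, c)
  | a2, c, _, _ => Ins.inc (a3, c)
  | a3, c, t, _ => if isU t then Ins.pop (a4, c) else act p c t
  | a4, c, _, _ => Ins.dbl (a3, c)
  | e0, c, _, _ => Ins.load (e5, c)
  | e5, c, _, _ => Ins.half (e6, c) (e7, c)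
  | e6, c, _, _ => Ins.push (sym p c) (e5, c)
  | e7, c, t, zr => f7 p c t zr
  | e8, c, t, zr => f8 p c t zr
  | e9, c, _, _ => f9 p c

def outc : Cx K G p.W → Option Bool
  | dec o => o.getRight?
  | _ => none

def outq : Ph → Cx K G p.W → Option Bool
  | e7, c => outc p c
  | _, _ => none

def mach : A2 (St p) (Gm G) where
  start := (e0, ini)
  out := fun q => outq p q.1 q.2
  δ := fun q => dl p q.1 q.2

abbrev Rch (N : ℕ) := ReflTransGen ((mach p).Step N)

variable {p} {N : ℕ}

theorem stp {ph : Ph} {c : Cx K G p.W} {s : List (Gm G)} {R : ℕ} {q' : St p} {s' : List (Gm G)}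
    {R' : ℕ} {x : St p × List (Gm G) × ℕ} (ho : outq p ph c = none)
    (h : (dl p ph c s.head? (decide (R = 0))).app N s R = (q', s', R')) (hN : R' ≤ N)
    (hx : Rch p N (q', s', R') x) : Rch p N ((ph, c), s, R) x :=
  ReflTransGen.head ⟨ho, h.symm, hN⟩ hx

theorem half_app {Q Γ : Type} (q0 q1 : Q) (s : List Γ) (R : ℕ) (d : Bool) :
    (Ins.half q0 q1 : Ins Q Γ).app N s (2 * R + d.toNat) = (if d then q1 else q0, s, R) := by
  cases d
  · simp [Ins.app]
  · have a : (2 * R + 1) % 2 = 1 := by omega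
    have b : (2 * R + 1) / 2 = R := by omega
    simp [Ins.app, a, b]

theorem half0 {Q Γ : Type} (q0 q1 : Q) (s : List Γ) (R : ℕ) :
    (Ins.half q0 q1 : Ins Q Γ).app N s (2 * R) = (q0, s, R) := half_app q0 q1 s R false

theorem half1 {Q Γ : Type} (q0 q1 : Q) (s : List Γ) (R : ℕ) :
    (Ins.half q0 q1 : Ins Q Γ).app N s (2 * R + 1) = (q1, s, R) := half_app q0 q1 s R true

theorem absLoop (c : Cx K G p.W) (s : List (Gm G)) (σ : ℕ) : ∀ x : ℕ, x * 2 ^ σ ≤ N →
    Rch p N ((a3, c), List.replicate σ uu ++ s, x) ((a3, c), s, x * 2 ^ σ) := by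
  induction σ with
  | zero => intro x _; simpa using ReflTransGen.refl
  | succ σ ih =>
    intro x hx
    have e : x * 2 ^ (σ + 1) = 2 * x * 2 ^ σ := by ring
    have h2 : 2 * x ≤ N := le_trans (Nat.le_mul_of_pos_right _ (by positivity)) (e ▸ hx)
    rw [e] at hx ⊢
    exact stp rfl rfl (by omega) (stp rfl rfl h2 (ih _ hx))

theorem absorb (c : Cx K G p.W) (s : List (Gm G)) {σ R : ℕ} (h : (2 * R + 1) * 2 ^ σ ≤ N) :
    Rch p N ((a1, c), List.replicate σ uu ++ s, R) ((a3, c), s, (2 * R + 1) * 2 ^ σ) := by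
  have h2 : 2 * R + 1 ≤ N := le_trans (Nat.le_mul_of_pos_right _ (by positivity)) h
  exact stp rfl rfl (by omega) (stp rfl rfl h2 (absLoop c s σ _ h))

theorem extract (c : Cx K G p.W) {R : ℕ} (σ : ℕ) : ∀ s : List (Gm G), (2 * R + 1) * 2 ^ σ ≤ N →
    Rch p N ((e5, c), s, (2 * R + 1) * 2 ^ σ) ((e7, c), List.replicate σ (sym p c) ++ s, R) := by
  induction σ with
  | zero =>
    intro s h
    rw [pow_zero, mul_one] at h ⊢
    exact stp rfl (half1 _ _ _ _) (by omega) ReflTransGen.refl
  | succ σ ih =>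
    intro s h
    have e : (2 * R + 1) * 2 ^ (σ + 1) = 2 * ((2 * R + 1) * 2 ^ σ) := by ring
    rw [e] at h ⊢
    rw [List.replicate_succ', List.append_assoc]
    exact stp rfl (half0 _ _ _ _) (by omega) (stp rfl rfl (by omega) (ih _ (by omega)))

def back : List Bool → ℕ → ℕ
  | [], x => x
  | d :: l, x => back l (2 * x + d.toNat)

theorem back_snoc (d : Bool) (l : List Bool) : ∀ x, back (l ++ [d]) x = 2 * back l x + d.toNat := by
  induction l with
  | nil => intro x; rfl
  | cons a l ih => intro x; exact ih _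

theorem le_back (l : List Bool) : ∀ x, x ≤ back l x := by
  induction l with
  | nil => intro x; exact le_rfl
  | cons a l ih => intro x; exact le_trans (by omega) (ih _)

theorem room_le {R R' σ : ℕ} (h : (2 * R + 1) * 2 ^ σ ≤ N) (h' : R' ≤ R) :
    (2 * R' + 1) * 2 ^ σ ≤ N := le_trans (Nat.mul_le_mul_right _ (by omega)) h

theorem room_N {R σ : ℕ} (h : (2 * R + 1) * 2 ^ σ ≤ N) : 2 * R + 1 ≤ N :=
  le_trans (Nat.le_mul_of_pos_right _ (by positivity)) h

theorem carryOut (κ : Inp K G) (σ R : ℕ) : ∀ (d : Bool) (s : List (Gm G)), isU s.head? = false →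
    (2 * R + 1) * 2 ^ σ ≤ N → ∃ l : List Bool, back l 0 = 2 * R + d.toNat ∧ l ≠ [] ∧
      Rch p N ((a1, co κ d), List.replicate σ uu ++ s, R)
        ((e0, lk κ), List.replicate σ uu ++ (l.map tmp ++ s), 0) := by
  induction R using Nat.strong_induction_on with
  | _ R ih =>
    intro d s hs h
    have r1 : Rch p N ((a1, co κ d), List.replicate σ uu ++ s, R)
        ((e7, co κ d), List.replicate σ uu ++ (tmp d :: s), R) :=
      (absorb _ s h).trans (stp rfl (by simp only [dl, hs]; rfl) h (extract (co κ d) σ _ h))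
    by_cases c : R = 0
    · subst c
      exact ⟨[d], rfl, by simp, r1.trans (stp rfl rfl (Nat.zero_le _) ReflTransGen.refl)⟩
    · obtain ⟨R1, d1, rfl⟩ : ∃ (R1 : ℕ) (d1 : Bool), R = 2 * R1 + d1.toNat := by
        rcases Nat.even_or_odd' R with ⟨R1, e | e⟩
        · exact ⟨R1, false, e⟩
        · exact ⟨R1, true, e⟩
      obtain ⟨l, hl, -, r2⟩ := ih R1 (by omega) d1 (tmp d :: s) rfl (room_le h (by omega))
      refine ⟨l ++ [d], by rw [back_snoc, hl], by simp, r1.trans (stp (q' := (a1, co κ d1)) (R' := R1)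
        (s' := List.replicate σ uu ++ (tmp d :: s)) rfl ?_
        (by have := room_N h; omega) (by simpa using r2))⟩
      simp only [dl, f7, c, decide_false, Bool.false_eq_true, if_false]
      rw [half_app]
      cases d1 <;> rfl

theorem carryBack (a : Act K G) (σ : ℕ) (s : List (Gm G)) (l : List Bool) : ∀ x : ℕ,
    (2 * back l x + 1) * 2 ^ σ ≤ N →
      Rch p N ((a1, bk a false), List.replicate σ uu ++ (l.map tmp ++ s), x)
        ((a1, bk a false), List.replicate σ uu ++ s, back l x) := by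
  induction l with
  | nil => intro x _; exact ReflTransGen.refl
  | cons d l ih =>
    intro x h
    have h1 := room_le h (le_back (d :: l) x)
    have h2 := room_N (room_le h (le_back l (2 * x + d.toNat)))
    refine (absorb _ _ h1).trans (stp rfl rfl h1 ((extract (bk a d) σ _ h1).trans
      (stp rfl rfl (by omega) (stp (R' := 2 * x + d.toNat) rfl ?_ (by omega) (ih _ h)))))
    cases d <;> rfl

theorem countV (κ : Inp K G) (s : List (Gm G)) (S : ℕ) : ∀ x : ℕ, x + S ≤ N →
    Rch p N ((e8, lk κ), List.replicate S vv ++ s, x) ((e8, lk κ), s, x + S) := by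
  induction S with
  | zero => intro x _; exact ReflTransGen.refl
  | succ S ih =>
    intro x h
    have e : x + (S + 1) = x + 1 + S := by ring
    rw [e]
    exact stp rfl rfl (by omega) (stp rfl rfl (by omega) (ih _ (by omega)))

theorem getS (κ : Inp K G) (s : List (Gm G)) (hs : isV s.head? = false) (k S R : ℕ)
    (hN : N = (2 * k + 1) * 2 ^ S) :
    Rch p N ((e0, lk κ), s, R) ((e7, sk κ true (cn p 0)), s, S) := by
  have h1 : S ≤ N := by
    rw [hN]
    exact le_trans Nat.lt_two_pow_self.le (Nat.le_mul_of_pos_left _ (by omega))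
  have r1 := extract (p := p) (lk κ) (R := k) S s hN.ge
  rw [← hN] at r1
  have r2 := countV (p := p) (N := N) κ s S 0 (by omega)
  rw [zero_add] at r2
  exact stp (R' := N) rfl rfl le_rfl (r1.trans (stp (R' := 0) rfl rfl (Nat.zero_le _) (r2.trans
    (stp (R' := S) rfl (by simp only [dl, f8, hs]; rfl) h1 ReflTransGen.refl))))

end Pool.Agent.MP_47ff19_lc.H6P.Itp
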