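import Pool.Agent.MP_47ff19_lc.H6P.PBc

namespace Pool.Agent.MP_47ff19_lc.H6P

open Relation

/-! ROW MK1 (paper 3c): greedy markers for a self-map, and their measurability. -/

def Sel {α : Type} (φ : α → α) (col : α → ℕ) (g : ℕ) : ℕ → α → Prop
  | 0, _ => False
  | k + 1, x => Sel φ col g k x ∨ (col x = k ∧ ∀ j, 0 < j → j < g → ¬ Sel φ col g k (φ^[j] x))

def Mark {α : Type} (φ : α → α) (col : α → ℕ) (g r : ℕ) (x : α) : Prop :=
  Sel φ col g r x ∧ ∀ j, 0 < j → j < g → ¬ Sel φ col g r (φ^[j] x)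

theorem mk1_mono {α : Type} {φ : α → α} {col : α → ℕ} {g k l : ℕ} (h : k ≤ l) {x : α}
    (hx : Sel φ col g k x) : Sel φ col g l x := by
  induction h with
  | refl => exact hx
  | step _ ih => exact Or.inl ih

theorem mk1_spec {α : Type} {φ : α → α} {col : α → ℕ} {g k : ℕ} {x : α} (hx : Sel φ col g k x) :
    Sel φ col g (col x + 1) x ∧ ∀ j, 0 < j → j < g → ¬ Sel φ col g (col x) (φ^[j] x) := by
  induction k with
  | zero => exact hx.elim
  | succ k ih =>
    rcases hx with h | ⟨rfl, h⟩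
    · exact ih h
    · exact ⟨Or.inr ⟨rfl, h⟩, h⟩

theorem mk1_lt {α : Type} {φ : α → α} {col : α → ℕ} {g r : ℕ} {x : α} {i j : ℕ} (hij : i < j)
    (hj : j < g) (h1 : Mark φ col g r (φ^[i] x)) : ¬ Mark φ col g r (φ^[j] x) := fun h2 =>
  h1.2 (j - i) (by omega) (by omega) (by
    rw [← Function.iterate_add_apply, Nat.sub_add_cancel hij.le]
    exact h2.1)

theorem mark_disj {α : Type} {φ : α → α} {col : α → ℕ} {g r : ℕ} {x : α} {j j' : ℕ}
    (hj : j < g) (hj' : j' < g) (h : Mark φ col g r (φ^[j] x)) (h' : Mark φ col g r (φ^[j'] x)) :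
    j = j' := by
  rcases lt_trichotomy j j' with h1 | h1 | h1
  · exact (mk1_lt h1 hj' h h').elim
  · exact h1
  · exact (mk1_lt h1 hj h' h).elim

theorem mark_hit {α : Type} (φ : α → α) (col : α → ℕ) (g r : ℕ) (hg : 0 < g) (x : α)
    (hcol : ∀ y, col y < r)
    (hne : ∀ t p, t ≤ g * r → 0 < p → p < g → col (φ^[t + p] x) ≠ col (φ^[t] x)) :
    ∃ t, t ≤ g * r ∧ Mark φ col g r (φ^[t] x) := by
  have key : ∀ n t, Sel φ col g r (φ^[t] x) → r ≤ col (φ^[t] x) + n → t + g * n ≤ g * r + g →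
      ∃ t, t ≤ g * r ∧ Mark φ col g r (φ^[t] x) := by
    intro n
    induction n with
    | zero => intro t _ h _; have := hcol (φ^[t] x); omega
    | succ n ih =>
      intro t h2 h3 h6
      rw [Nat.mul_succ] at h6
      by_cases hF : ∀ j, 0 < j → j < g → ¬ Sel φ col g r (φ^[j] (φ^[t] x))
      · exact ⟨t, by omega, h2, hF⟩
      push Not at hF
      obtain ⟨j, j1, j2, j3⟩ := hF
      have h5 : col (φ^[t] x) ≤ col (φ^[j] (φ^[t] x)) := by
        by_contra h
        exact (mk1_spec h2).2 j j1 j2 (mk1_mono (by omega) (mk1_spec j3).1)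
      rw [← Function.iterate_add_apply, Nat.add_comm j t] at j3 h5
      have h4 := hne t j (by omega) j1 j2
      exact ih _ j3 (by omega) (by omega)
  by_cases h : ∀ j, 0 < j → j < g → ¬ Sel φ col g (col x) (φ^[j] x)
  · exact key r 0 (mk1_mono (hcol x) (Or.inr ⟨rfl, h⟩)) (by omega) (by omega)
  · push Not at h
    obtain ⟨j, -, h2, h3⟩ := h
    exact key r j (mk1_mono (hcol x).le h3) (by omega) (by omega)

theorem mk1_next {Q : Type} (P : PA Q) {S : ℚ → Q × ℚ → Prop} (h : MP S) (g : ℕ) :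
    MP fun N c => ∀ j, 0 < j → j < g → ¬ S N ((P.φ N)^[j] c) := fun q =>
  (PB.all (Finset.Ioo 0 g) fun j _ => (MP.iter P h j q).not).congr fun N X => by simp

theorem mk1_sel {Q : Type} (P : PA Q) {col : ℚ → Q × ℚ → ℕ} (h : Meas col) (g k : ℕ) :
    MP fun N c => Sel (P.φ N) (col N) g k c := by
  induction k with
  | zero => exact fun q => PB.const False
  | succ k ih => exact fun q => (ih q).or ((h.2 k q).and (mk1_next P ih g q))

theorem mark_meas {Q : Type} (P : PA Q) {col : ℚ → Q × ℚ → ℕ} (h : Meas col) (g r : ℕ) :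
    MP fun N c => Mark (P.φ N) (col N) g r c := fun q =>
  (mk1_sel P h g r q).and (mk1_next P (mk1_sel P h g r) g q)

end Pool.Agent.MP_47ff19_lc.H6P
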