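import Pool.Agent.MP_47ff19_lc.H6P.PBc

namespace Pool.Agent.MP_47ff19_lc.H6P

open Relation

theorem mk2_forms {Q : Type} (P : PA Q) (g : ℕ) :
    ∃ T : Finset Aff, ∀ N c p, p < g → P.cmp N c p ∈ T := by
  classical
  choose s hs using fun p => (P.meas_cmp p).1
  exact ⟨(Finset.range g).biUnion s, fun N c p hp =>
    Finset.mem_biUnion.2 ⟨p, Finset.mem_range.2 hp, hs p N c⟩⟩

theorem mk2_bound (T : Finset Aff) (δ : Aff → ℚ) (hδ : ∀ τ, 0 < δ τ) :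
    ∃ B : ℕ, 0 < B ∧ ∀ τ ∈ T, 1 ≤ B * δ τ ∧ |τ.2.2| < B * δ τ ∧ |τ.2.2| < B := by
  choose B hB using fun τ : Aff => exists_nat_gt (max ((1 + |τ.2.2|) / δ τ) |τ.2.2|)
  refine ⟨T.sup B + 1, Nat.succ_pos _, fun τ hτ => ?_⟩
  have h1 : (B τ : ℚ) ≤ ((T.sup B + 1 : ℕ) : ℚ) := by
    exact_mod_cast (Finset.le_sup (f := B) hτ).trans (Nat.le_succ _)
  have h2 := (max_lt_iff.1 (hB τ)).1
  have h3 := (max_lt_iff.1 (hB τ)).2
  rw [div_lt_iff₀ (hδ τ)] at h2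
  have h4 := mul_le_mul_of_nonneg_right h1 (hδ τ).le
  have h5 := abs_nonneg τ.2.2
  exact ⟨by linarith, by linarith, by linarith⟩

theorem mk2_col {Q : Type} [Finite Q] (B : ℕ) (hB : 0 < B) :
    ∃ (r : ℕ) (col : ℚ → Q × ℚ → ℕ), Meas col ∧ (∀ N x, col N x < r) ∧
      ∀ (N X X' : ℕ) (q q' : Q), B ≤ N → X ≤ N + 1 → X' ≤ N + 1 →
        col N (q', (X' : ℚ)) = col N (q, (X : ℚ)) →
        q' = q ∧ (∃ z : ℤ, (X' : ℚ) - X = B * z) ∧ |(X' : ℚ) - X| * B ≤ N := by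
  have hB' : (0 : ℚ) < B := by exact_mod_cast hB
  obtain ⟨f1, m1, h1⟩ := Meas.choose (Q := Q) (Finset.range B) 0
    (fun l N c => ∃ z : ℤ, ev (1 / (B : ℚ), 0, -(l : ℚ) / B) N c.2 = z) fun l _ _ => PB.int _
  obtain ⟨f2, m2, h2⟩ := Meas.choose (Q := Q) (Finset.range (B + 1)) 0
    (fun h N c => 0 ≤ ev ((B : ℚ), -(h : ℚ), 0) N c.2 ∧ 0 ≤ ev (-(B : ℚ), (h : ℚ) + 1, 0) N c.2)
    fun l _ _ => PB.and (PB.le _) (PB.le _)
  obtain ⟨e, he⟩ := Countable.exists_injective_nat (Q × ℕ × ℕ)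
  have m3 := Meas.map (Meas.prod (Meas.state (Q := Q)) (Meas.prod m1 m2)) e
  obtain ⟨s, hs⟩ := m3.1
  refine ⟨s.sup id + 1, _, m3, fun N x => Nat.lt_succ_of_le (Finset.le_sup (f := id) (hs N x)),
    fun N X X' q q' hN hX hX' hc => ?_⟩
  have a1 : ∀ (q : Q) (X : ℕ), ∃ z : ℤ, (X : ℚ) - f1 N (q, (X : ℚ)) = B * z := fun q X => by
    obtain ⟨z, hz⟩ := (h1 N (q, (X : ℚ)) ⟨X % B, Finset.mem_range.2 (Nat.mod_lt _ hB),
      ((X / B : ℕ) : ℤ), by
        have e1 : (X : ℚ) = B * ((X / B : ℕ) : ℚ) + ((X % B : ℕ) : ℚ) := by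
          exact_mod_cast (Nat.div_add_mod X B).symm
        simp only [ev, Int.cast_natCast]
        field_simp
        linarith⟩).2
    refine ⟨z, ?_⟩
    simp only [ev] at hz
    field_simp at hz
    linarith
  have a2 : ∀ (q : Q) (X : ℕ), X ≤ N + 1 → (f2 N (q, (X : ℚ)) : ℚ) * N ≤ B * X ∧
      (B : ℚ) * X ≤ (f2 N (q, (X : ℚ)) + 1) * N := fun q X hX => by
    have hN0 : 0 < N := hB.trans_le hN
    have ex : ∃ h ∈ Finset.range (B + 1), h * N ≤ B * X ∧ B * X ≤ (h + 1) * N := by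
      by_cases c : X ≤ N
      · refine ⟨B * X / N, Finset.mem_range.2 (Nat.lt_succ_of_le ?_), Nat.div_mul_le_self _ _, ?_⟩
        · exact Nat.div_le_of_le_mul (by rw [mul_comm N]; exact Nat.mul_le_mul_left _ c)
        · have := Nat.lt_div_mul_add (a := B * X) hN0
          rw [add_mul, one_mul]
          exact this.le
      · have : X = N + 1 := by omega
        subst this
        exact ⟨B, Finset.mem_range.2 (Nat.lt_succ_self _), by nlinarith, by nlinarith⟩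
    obtain ⟨h, hh, u1, u2⟩ := ex
    have u1' : (h : ℚ) * N ≤ B * X := by exact_mod_cast u1
    have u2' : (B : ℚ) * X ≤ (h + 1) * N := by exact_mod_cast u2
    obtain ⟨v1, v2⟩ := (h2 N (q, (X : ℚ)) ⟨h, hh, by simp only [ev]; linarith,
      by simp only [ev]; linarith⟩).2
    simp only [ev] at v1 v2
    exact ⟨by linarith, by linarith⟩
  have hc' := he hc
  simp only [Prod.mk.injEq] at hc'
  obtain ⟨c1, c2, c3⟩ := hc'
  obtain ⟨z, hz⟩ := a1 q X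
  obtain ⟨z', hz'⟩ := a1 q' X'
  obtain ⟨b1, b2⟩ := a2 q X hX
  obtain ⟨b3, b4⟩ := a2 q' X' hX'
  rw [c2] at hz'
  rw [c3] at b3 b4
  refine ⟨c1, ⟨z' - z, by push_cast; linarith⟩, ?_⟩
  rw [← abs_of_pos hB', ← abs_mul, abs_le]
  constructor <;> linarith

theorem mk2_count (T : Finset Aff) (ρ : Aff → ℚ) (c H : ℕ) (hH : 8 * (c * T.card) ≤ H) :
    ∃ E : Finset ℕ, c * E.card ≤ H ∧ ∀ τ ∈ T, ∀ h : ℕ,
      (h : ℚ) ≤ (ρ τ + 1 / ((4 * (c * T.card) + 1 : ℕ) : ℚ)) * H →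
      (ρ τ - 1 / ((4 * (c * T.card) + 1 : ℕ) : ℚ)) * H ≤ h + 1 → h ∈ E := by
  classical
  generalize he : 4 * (c * T.card) + 1 = e
  have e0 : 0 < e := by omega
  have e1 : (0 : ℚ) < e := by exact_mod_cast e0
  refine ⟨T.biUnion fun τ => Finset.Ico ⌊(ρ τ - 1 / (e : ℚ)) * H - 1⌋₊
    (⌊(ρ τ - 1 / (e : ℚ)) * H - 1⌋₊ + (2 * (H / e) + 4)), ?_, fun τ hτ h h1 h2 => ?_⟩
  · have a1 := Finset.card_biUnion_le_card_mul T (fun τ => Finset.Ico
      ⌊(ρ τ - 1 / (e : ℚ)) * H - 1⌋₊ (⌊(ρ τ - 1 / (e : ℚ)) * H - 1⌋₊ + (2 * (H / e) + 4)))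
      (2 * (H / e) + 4) fun τ _ => by simp
    have a2 := Nat.mul_le_mul_left c a1
    have a3 := Nat.div_mul_le_self H e
    rw [← mul_assoc] at a2
    generalize c * T.card = u at *
    generalize H / e = v at *
    subst he
    nlinarith
  · refine Finset.mem_biUnion.2 ⟨τ, hτ, Finset.mem_Ico.2 ⟨Nat.floor_le_of_le (by linarith), ?_⟩⟩
    have a1 := Nat.lt_floor_add_one ((ρ τ - 1 / (e : ℚ)) * H - 1)
    have a2 : (H : ℚ) < ((H / e : ℕ) : ℚ) * e + e := by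
      exact_mod_cast Nat.lt_div_mul_add (a := H) e0
    have a3 : 1 / (e : ℚ) * H < ((H / e : ℕ) : ℚ) + 1 := by
      rw [one_div, inv_mul_lt_iff₀ e1]
      linarith
    have : (h : ℚ) < ((⌊(ρ τ - 1 / (e : ℚ)) * H - 1⌋₊ + (2 * (H / e) + 4) : ℕ) : ℚ) := by
      rw [Nat.cast_add, Nat.cast_add, Nat.cast_mul]
      simp only [Nat.cast_ofNat]
      linarith
    exact_mod_cast this

/-- ROW MK2 (paper 3c): colours and the exceptional set. -/
theorem colours {Q : Type} [Finite Q] (P : PA Q) (g c : ℕ) :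
    ∃ (r N0 H1 : ℕ) (col : ℚ → Q × ℚ → ℕ) (Exc : ℚ → Q × ℚ → Prop),
      Meas col ∧ MP Exc ∧ (∀ N x, col N x < r) ∧
      (∀ N : ℕ, N0 ≤ N → ∀ b, P.Runs N b → ∀ t p, 0 < p → p < g →
        P.out (P.orb N t).1 = none → ¬ Exc N (P.orb N t) →
        col N (P.orb N (t + p)) ≠ col N (P.orb N t)) ∧
      (∀ H : ℕ, H1 ≤ H → ∃ E : Finset ℕ, c * E.card ≤ H ∧
        ∀ (Δ h : ℕ) (q : Q) (X : ℤ), 0 < Δ → (h : ℤ) * Δ ≤ X → X ≤ (h + 1) * Δ →
          Exc ((H * Δ : ℕ) : ℚ) (q, (X : ℚ)) → h ∈ E) := by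
  obtain ⟨T, hT⟩ := mk2_forms P g
  obtain ⟨ε, hε⟩ : ∃ ε : ℚ, ε = 1 / ((4 * (c * T.card) + 1 : ℕ) : ℚ) := ⟨_, rfl⟩
  have ε0 : 0 < ε := by rw [hε]; positivity
  obtain ⟨B, hB, hb⟩ := mk2_bound T
    (fun τ => if τ.1 = 1 then (if τ.2.1 = 0 then 1 else |τ.2.1| / 2) else |1 - τ.1| * ε / 2)
    fun τ => by
      split_ifs with c1 c2
      · exact one_pos
      · exact half_pos (abs_pos.2 c2)
      · exact half_pos (mul_pos (abs_pos.2 (sub_ne_zero.2 (Ne.symm c1))) ε0)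
  obtain ⟨r, col, hm, hr, hcol⟩ := mk2_col (Q := Q) B hB
  refine ⟨r, B, 8 * (c * T.card), col, fun N x => ∃ τ ∈ T,
    0 ≤ ev (1, ε - τ.2.1 / (1 - τ.1), 0) N x.2 ∧ 0 ≤ ev (-1, ε + τ.2.1 / (1 - τ.1), 0) N x.2,
    hm, fun q => PB.ex T fun τ _ => PB.and (PB.le _) (PB.le _), hr,
    fun N hN b hR t p p0 pg ho hE hc => ?_, fun H hH => ?_⟩
  · obtain ⟨X, hX, eX⟩ := hR.rng t
    obtain ⟨X', hX', eX'⟩ := hR.rng (t + p)
    have eo : P.orb N (t + p) = (P.φ N)^[p] (P.orb N t) := by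
      unfold PA.orb
      rw [add_comm, Function.iterate_add_apply]
    have e1 := P.ev_cmp N (P.orb N t) p
    have hτ := hT N (P.orb N t) p pg
    have nr := hR.norep t p p0 ho
    rw [← eo, eX, eX'] at e1
    generalize P.cmp N (P.orb N t) p = τ at e1 hτ
    generalize P.orb N (t + p) = y at *
    generalize P.orb N t = x at *
    obtain ⟨q, u⟩ := x
    obtain ⟨q', u'⟩ := y
    simp only at eX eX'
    subst eX eX'
    obtain ⟨rfl, ⟨z, hz⟩, hd⟩ := hcol N X X' q q' hN hX hX' hc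
    obtain ⟨b1, b2, b3⟩ := hb τ hτ
    have hN' : (B : ℚ) ≤ N := by exact_mod_cast hN
    have hB' : (0 : ℚ) < B := by exact_mod_cast hB
    simp only [ev] at e1
    have key : ∀ δ : ℚ, 1 ≤ B * δ → |τ.2.2| < B * δ → |(τ.1 - 1) * X + τ.2.1 * N| < 2 * (N * δ) := by
      intro δ d1 d2
      have d0 : 0 < δ := by
        by_contra hn
        nlinarith
      have k1 : |(X' : ℚ) - X| ≤ N * δ := by
        have := mul_le_mul_of_nonneg_right hd d0.le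
        have := abs_nonneg ((X' : ℚ) - X)
        nlinarith
      have k2 : B * δ ≤ N * δ := mul_le_mul_of_nonneg_right hN' d0.le
      have k3 : (τ.1 - 1) * X + τ.2.1 * N = ((X' : ℚ) - X) - τ.2.2 := by rw [e1]; ring
      have k4 := abs_sub ((X' : ℚ) - X) τ.2.2
      rw [k3]
      linarith
    have k := key _ b1 b2
    by_cases c1 : τ.1 = 1
    · by_cases c2 : τ.2.1 = 0
      · apply nr
        have k1 : τ.2.2 = B * z := by rw [← hz, e1, c1, c2]; ring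
        rw [k1, abs_mul, abs_of_pos hB', mul_lt_iff_lt_one_right hB'] at b3
        have k2 : z = 0 := Int.abs_lt_one_iff.1 (by exact_mod_cast b3)
        rw [k2, Int.cast_zero, mul_zero, sub_eq_zero] at hz
        rw [hz]
      · simp only [c1, c2, if_true, if_false, sub_self, zero_mul, zero_add] at k
        rw [abs_mul, Nat.abs_cast] at k
        linarith
    · apply hE
      simp only [c1, if_false] at k
      have c3 : 1 - τ.1 ≠ 0 := sub_ne_zero.2 (Ne.symm c1)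
      have k1 : (τ.1 - 1) * X + τ.2.1 * N = (1 - τ.1) * -(X - τ.2.1 / (1 - τ.1) * N) := by
        field_simp
        ring
      have k2 : |1 - τ.1| * |(X : ℚ) - τ.2.1 / (1 - τ.1) * N| < |1 - τ.1| * (ε * N) := by
        rw [k1, abs_mul, abs_neg] at k
        linarith
      have k3 := abs_lt.1 (lt_of_mul_lt_mul_left k2 (abs_nonneg _))
      exact ⟨τ, hτ, by simp only [ev]; linarith [k3.1], by simp only [ev]; linarith [k3.2]⟩
  · obtain ⟨E, hE, hmem⟩ := mk2_count T (fun τ => τ.2.1 / (1 - τ.1)) c H hH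
    refine ⟨E, hE, fun Δ h q X Δ0 h1 h2 ⟨τ, hτ, u1, u2⟩ => ?_⟩
    have Δ1 : (0 : ℚ) < Δ := by exact_mod_cast Δ0
    have h1' : (h : ℚ) * Δ ≤ X := by exact_mod_cast h1
    have h2' : (X : ℚ) ≤ (h + 1) * Δ := by exact_mod_cast h2
    simp only [ev, Nat.cast_mul] at u1 u2
    refine hmem τ hτ h ?_ ?_
    · rw [← hε]
      exact le_of_mul_le_mul_right (by linarith) Δ1
    · rw [← hε]
      exact le_of_mul_le_mul_right (by linarith) Δ1

end Pool.Agent.MP_47ff19_lc.H6P
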