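import Pool.Agent.MP_47ff19_lc.H6P.NF
import Pool.Agent.MP_47ff19_lc.H6P.Mark1
import Pool.Agent.MP_47ff19_lc.H6P.Mark2

namespace Pool.Agent.MP_47ff19_lc.H6P

open Relation

theorem mk3_bind {Q β γ : Type} {f : ℚ → Q × ℚ → β} (h : Meas f) {F : β → ℚ → Q × ℚ → γ}
    (hF : ∀ b, Meas (F b)) : Meas fun N c => F (f N c) N c := by
  classical
  obtain ⟨⟨s, hs⟩, h2⟩ := h
  choose S hS using fun b => (hF b).1
  refine ⟨⟨s.biUnion S, fun N c => Finset.mem_biUnion.2 ⟨_, hs N c, hS _ N c⟩⟩, fun y q => ?_⟩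
  refine (PB.ex s fun b _ => (h2 b q).and ((hF b).2 y q)).congr fun N X => ?_
  constructor
  · rintro ⟨b, -, rfl, e⟩
    exact e
  · exact fun e => ⟨_, hs N _, rfl, e⟩

/-- the label of the first later visit to a measurable set -/
theorem mk3_mac {Q : Type} [Finite Q] (P : PA Q) {S : ℚ → Q × ℚ → Prop} (hS : MP S) (B : ℕ) :
    ∃ mac : ℚ → Q × ℚ → Q × Aff, Meas mac ∧ ∀ N c,
      (∃ p, 0 < p ∧ p ≤ B ∧ S N ((P.φ N)^[p] c)) → ∃ p, 0 < p ∧ S N ((P.φ N)^[p] c) ∧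
        (∀ s, 0 < s → s < p → ¬ S N ((P.φ N)^[s] c)) ∧
        (P.φ N)^[p] c = ((mac N c).1, ev (mac N c).2 N c.2) := by
  classical
  obtain ⟨f, hf, hf2⟩ := Meas.choose (Finset.range (B + 1)) 0
    (fun p N c => 0 < p ∧ S N ((P.φ N)^[p] c) ∧ ∀ s, 0 < s → s < p → ¬ S N ((P.φ N)^[s] c))
    fun p _ q => (PB.const _).and ((MP.iter P hS p q).and (mk1_next P hS p q))
  refine ⟨fun N c => (((P.φ N)^[f N c] c).1, P.cmp N c (f N c)),
    mk3_bind hf (F := fun p N c => (((P.φ N)^[p] c).1, P.cmp N c p))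
      fun p => (Meas.iter P Meas.state p).prod (P.meas_cmp p), fun N c h => ?_⟩
  have hex : ∃ p, 0 < p ∧ S N ((P.φ N)^[p] c) := let ⟨p, a, _, b⟩ := h; ⟨p, a, b⟩
  obtain ⟨p, p1, p2, p3⟩ := h
  obtain ⟨-, a1, a2, a3⟩ := hf2 N c ⟨Nat.find hex, Finset.mem_range.2
    (Nat.lt_succ_of_le ((Nat.find_min' hex ⟨p1, p3⟩).trans p2)), (Nat.find_spec hex).1,
    (Nat.find_spec hex).2, fun s s1 s2 s3 => Nat.find_min hex s2 ⟨s1, s3⟩⟩
  exact ⟨f N c, a1, a2, a3, Prod.ext rfl (P.ev_cmp N c _)⟩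

theorem mk3_num {x : ℚ} {β : ℕ} (h : x.den ∣ β) : ((((β : ℚ) * x).num : ℤ) : ℚ) = β * x := by
  obtain ⟨k, rfl⟩ := h
  have : ((x.den * k : ℕ) : ℚ) * x = ((k * x.num : ℤ) : ℚ) := by
    push_cast
    rw [← Rat.mul_den_eq_num x]
    ring
  rw [this, Rat.num_intCast]

theorem mk3_small {β : Type} {g : ℕ} (s : Finset β) (hg : 0 < g) (Z : ℕ → Finset β)
    (hZ : ∀ j, Z j ⊆ s) (hd : ∀ i < g, ∀ j < g, i ≠ j → Disjoint (Z i) (Z j)) :
    ∃ j < g, g * (Z j).card ≤ s.card := by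
  classical
  obtain ⟨j, hj, hmin⟩ := Finset.exists_min_image (Finset.range g) (fun j => (Z j).card)
    ⟨0, Finset.mem_range.2 hg⟩
  refine ⟨j, Finset.mem_range.1 hj, ?_⟩
  have h1 := Finset.card_nsmul_le_sum _ _ _ hmin
  rw [Finset.card_range, smul_eq_mul, ← Finset.card_biUnion] at h1
  · exact h1.trans (Finset.card_le_card (Finset.biUnion_subset.2 fun i _ => hZ i))
  · exact fun a ha b hb hab => hd a (Finset.mem_range.1 ha) b (Finset.mem_range.1 hb) hab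

theorem mk3_gen {m : ℕ} (hm : 0 < m) (m0 h l : ℕ) (hl : l < m) :
    Gen (m * (2 * m0 + 1)) m0 h ((h * (m * (2 * m0 + 1)) + m * m0 + l : ℕ) : ℤ) := by
  have h1 : m0 ≤ m * m0 := Nat.le_mul_of_pos_left _ hm
  have h2 : m * (2 * m0 + 1) = 2 * (m * m0) + m := by ring
  unfold Gen
  rw [h2]
  generalize m * m0 = a at h1
  push_cast
  have h3 : (m0 : ℤ) ≤ a := by exact_mod_cast h1
  have h4 : (l : ℤ) < m := by exact_mod_cast hl
  constructor <;> nlinarith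

theorem mk3_mod (m m0 h X : ℕ) :
    (X : ℤ) ≡ ((h * (m * (2 * m0 + 1)) + m * m0 + X % m : ℕ) : ℤ) [ZMOD m] := by
  rw [Int.natCast_modEq_iff]
  have : h * (m * (2 * m0 + 1)) + m * m0 + X % m = X % m + m * (h * (2 * m0 + 1) + m0) := by ring
  rw [this, Nat.ModEq, Nat.add_mul_mod_self_left, Nat.mod_mod]

theorem mk3_orb {Q : Type} (P : PA Q) (N t p : ℕ) :
    P.orb N (t + p) = (P.φ N)^[p] (P.orb N t) := by
  rw [PA.orb, PA.orb, Nat.add_comm, Function.iterate_add_apply]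

/-- ROW MK3 (paper 3c): sparse checkpoints and jump tables. -/
theorem markers {Q : Type} [Finite Q] (P : PA Q) : ∃ K : MK Q, K.Works P := by
  classical
  have := Fintype.ofFinite Q
  obtain ⟨g, hg⟩ : ∃ g, g = 64 * (Fintype.card Q + 1) := ⟨_, rfl⟩
  have hg0 : 0 < g := by omega
  obtain ⟨r, N0, H1, col, Exc, c1, c2, c3, c4, c5⟩ := colours P g g
  let Stop : ℕ → ℚ → Q × ℚ → Prop := fun j N c =>
    Mark (P.φ N) (col N) g r ((P.φ N)^[j] c) ∨ Exc N c ∨ P.out c.1 ≠ none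
  have hStop : ∀ j, MP (Stop j) := fun j q =>
    (MP.iter P (mark_meas P c1 g r) j q).or ((c2 q).or (PB.const (P.out q ≠ none)))
  choose mac hmac hm2 using fun j => mk3_mac P (hStop j) (g * r + g)
  choose S0 hS0 using fun j => (hmac j).1
  let S : Finset (Q × Aff) := (Finset.range g).biUnion S0
  have hS : ∀ j < g, ∀ N c, mac j N c ∈ S := fun j hj N c =>
    Finset.mem_biUnion.2 ⟨j, Finset.mem_range.2 hj, hS0 j N c⟩
  obtain ⟨β, hβ0, hβ⟩ : ∃ β : ℕ, 0 < β ∧ ∀ y ∈ S,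
      y.2.1.den ∣ β ∧ y.2.2.1.den ∣ β ∧ y.2.2.2.den ∣ β := by
    refine ⟨∏ y ∈ S, y.2.1.den * y.2.2.1.den * y.2.2.2.den, Finset.prod_pos fun y _ =>
      Nat.mul_pos (Nat.mul_pos y.2.1.pos y.2.2.1.pos) y.2.2.2.pos, fun y hy => ?_⟩
    have := Finset.dvd_prod_of_mem (fun y : Q × Aff => y.2.1.den * y.2.2.1.den * y.2.2.2.den) hy
    exact ⟨((dvd_mul_right _ _).mul_right _).trans this, ((dvd_mul_left _ _).mul_right _).trans this,
      (dvd_mul_left _ _).trans this⟩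
  let cv : Q × Aff → Q × ℤ × ℤ × ℤ := fun y =>
    (y.1, ((β : ℚ) * y.2.1).num, ((β : ℚ) * y.2.2.1).num, ((β : ℚ) * y.2.2.2).num)
  let R : ℕ × Q × Option (Q × Aff) → ℚ → ℚ → Prop := fun i N X =>
    i.2.2.elim (Mark (P.φ N) (col N) g r ((P.φ N)^[i.1] (i.2.1, X)))
      fun y => mac i.1 N (i.2.1, X) = y
  let I : Finset (ℕ × Q × Option (Q × Aff)) :=
    Finset.range g ×ˢ Finset.univ ×ˢ Finset.insertNone S
  obtain ⟨m, H, m1, hm, hH, hT⟩ := nf_fin I (P := R) (by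
    rintro ⟨j, q, _ | y⟩ _
    · exact MP.iter P (mark_meas P c1 g r) j q
    · exact (hmac j).2 y q)
  obtain ⟨m0, a1, a2, a3⟩ : ∃ m0 : ℕ, m1 ≤ m0 ∧ 2 ≤ m0 ∧ ∀ l ∈ S.image cv, |l.2.2.2| < m0 := by
    refine ⟨m1 + 2 + (S.image cv).sup fun l => l.2.2.2.natAbs, by omega, by omega, fun l hl => ?_⟩
    have := Finset.le_sup (f := fun l : Q × ℤ × ℤ × ℤ => l.2.2.2.natAbs) hl
    rw [Int.abs_eq_natAbs]
    exact_mod_cast (by omega)
  obtain ⟨H0, b1, b2, b3, b4⟩ : ∃ H0 : ℕ, H ∣ H0 ∧ β ∣ H0 ∧ H1 ≤ H0 ∧ 0 < H0 :=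
    ⟨H * β * (H1 + 1), (dvd_mul_right _ _).mul_right _, (dvd_mul_left _ _).mul_right _,
      (Nat.le_succ _).trans (Nat.le_mul_of_pos_left _ (Nat.mul_pos hH hβ0)), by positivity⟩
  have hG := hT m H0 m0 dvd_rfl b1 a1 b4
  have hF := hT m (H0 * β) m0 dvd_rfl (b1.mul_right _) a1 (Nat.mul_pos b4 hβ0)
  obtain ⟨E, e1, e2⟩ := c5 H0 b3
  let Ns : ℚ := ((H0 * (m * (2 * m0 + 1)) : ℕ) : ℚ)
  let Xs : ℕ → ℕ → ℚ := fun h l => (((h * (m * (2 * m0 + 1)) + m * m0 + l : ℕ) : ℤ) : ℚ)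
  have hgen : ∀ i ∈ I, ∀ Δ h X : ℕ, m ∣ Δ → Gen (β * Δ) m0 h X →
      (R i ((H0 * β * Δ : ℕ) : ℚ) X ↔ R i Ns (Xs h (X % m))) := fun i hi Δ h X h1 h2 => by
    have := (hG i hi).1 (β * Δ) _ (h1.mul_left _) (dvd_mul_right _ _) h X _ h2
      (mk3_gen hm m0 h _ (Nat.mod_lt X hm)) (mk3_mod m m0 h X)
    rwa [← Nat.mul_assoc, Int.cast_natCast] at this
  let Zs : ℕ → Finset (Q × ℕ × ℕ) := fun j =>
    (Finset.univ ×ˢ Finset.range H0 ×ˢ Finset.range m).filter fun z =>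
      R (j, z.1, none) Ns (Xs z.2.1 z.2.2)
  obtain ⟨j, hj, hZ⟩ := mk3_small (Finset.univ ×ˢ Finset.range H0 ×ˢ Finset.range m) hg0 Zs
    (fun j => Finset.filter_subset _ _) fun i hi j hj hij => Finset.disjoint_left.2 fun z z1 z2 =>
      hij (mark_disj hi hj (Finset.mem_filter.1 z1).2 (Finset.mem_filter.1 z2).2)
  have hI : ∀ q y, y ∈ S → (j, q, some y) ∈ I := fun q y hy => by simp [I, hj, hy]
  have hI0 : ∀ q, (j, q, none) ∈ I := fun q => by simp [I, hj]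
  have hsp : ∀ u : (ℕ × Q × Option (Q × Aff)) × ℤ × ℤ, ∃ D : ℕ, u.1 ∈ I → ∀ Δ Δ' : ℕ, D ≤ Δ →
      D ≤ Δ' → m ∣ Δ → m ∣ Δ' →
      (R u.1 ((H0 * β * Δ : ℕ) : ℚ) ((u.2.1 * Δ + u.2.2 : ℤ) : ℚ) ↔
        R u.1 ((H0 * β * Δ' : ℕ) : ℚ) ((u.2.1 * Δ' + u.2.2 : ℤ) : ℚ)) := fun u => by
    by_cases h : u.1 ∈ I
    · obtain ⟨D, hD⟩ := (hF _ h).2 u.2.1 u.2.2
      exact ⟨D, fun _ => hD⟩
    · exact ⟨0, fun h' => (h h').elim⟩
  choose Df hDf using hsp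
  obtain ⟨D, d1, d2, d3⟩ : ∃ D : ℕ, 0 < D ∧ N0 ≤ D ∧ ∀ u ∈ I ×ˢ
      Finset.Icc (0 : ℤ) (H0 * β + 1 : ℕ) ×ˢ Finset.Icc (-m0 : ℤ) m0, Df u ≤ D :=
    ⟨N0 + 1 + Finset.sup _ Df, by omega, by omega,
      fun u hu => (Finset.le_sup hu).trans (Nat.le_add_left _ _)⟩
  refine ⟨⟨β, m, H0, m0, D, S.image cv, Zs j ∪ Finset.univ ×ˢ E ×ˢ Finset.range m,
    fun q h l => cv (mac j Ns (q, Xs h l)),
    fun q h o => cv (mac j ((H0 * β * (m * D) : ℕ) : ℚ) (q, ((h * (m * D : ℕ) + o : ℤ) : ℚ))),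
    hβ0, hm, b4, b2, ?_, fun q h l => Finset.mem_image_of_mem _ (hS j hj _ _),
    fun q h o => Finset.mem_image_of_mem _ (hS j hj _ _), a3⟩, ?_⟩
  · have h1 := Finset.card_union_le (Zs j) (Finset.univ ×ˢ E ×ˢ Finset.range m)
    simp only [Finset.card_product, Finset.card_univ, Finset.card_range] at h1 hZ
    rw [hg] at hZ e1
    have h2 : 64 * (Zs j).card ≤ H0 * m := by
      refine Nat.le_of_mul_le_mul_left (c := Fintype.card Q + 1) ?_ (Nat.succ_pos _)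
      calc (Fintype.card Q + 1) * (64 * (Zs j).card)
          = 64 * (Fintype.card Q + 1) * (Zs j).card := by ring
        _ ≤ Fintype.card Q * (H0 * m) := hZ
        _ ≤ _ := Nat.mul_le_mul_right _ (Nat.le_succ _)
    have h3 : 64 * (Fintype.card Q * (E.card * m)) ≤ H0 * m :=
      calc 64 * (Fintype.card Q * (E.card * m)) = 64 * Fintype.card Q * E.card * m := by ring
        _ ≤ 64 * (Fintype.card Q + 1) * E.card * m := by gcongr; omega
        _ ≤ _ := Nat.mul_le_mul_right _ e1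
    omega
  intro Δ hΔ hmΔ b hR t q X hX
  dsimp only at hΔ hmΔ hR hX ⊢
  have hN : N0 ≤ H0 * β * Δ :=
    (d2.trans hΔ).trans (Nat.le_mul_of_pos_left _ (Nat.mul_pos b4 hβ0))
  have hΔ0 : 0 < β * Δ := Nat.mul_pos hβ0 (d1.trans_le hΔ)
  have hjump : ∀ l, l = cv (mac j ((H0 * β * Δ : ℕ) : ℚ) (q, X)) →
      ∃ t' X' : ℕ, t < t' ∧ P.orb (H0 * β * Δ) t' = (l.1, (X' : ℚ)) ∧
      (β : ℤ) * X' = l.2.1 * X + l.2.2.1 * ((H0 * β * Δ : ℕ) : ℤ) + l.2.2.2 ∧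
      (∀ s, t < s → s < t' → P.out (P.orb (H0 * β * Δ) s).1 = none) ∧
      (P.out l.1 = none → ∀ h' : ℕ, Gen (β * Δ) m0 h' X' →
        (l.1, h', X' % m) ∈ Zs j ∪ Finset.univ ×ˢ E ×ˢ Finset.range m) := by
    rintro l rfl
    generalize hNd : H0 * β * Δ = N at *
    obtain ⟨p, p1, p2, p3, p4⟩ := hm2 j N (q, X) (by
      rw [← hX]
      by_cases h : ∃ s ≤ g * r, Exc N (P.orb N (t + (j + 1 + s))) ∨
          P.out (P.orb N (t + (j + 1 + s))).1 ≠ none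
      · obtain ⟨s, s1, s2⟩ := h
        exact ⟨j + 1 + s, by omega, by omega, Or.inr (by rwa [← mk3_orb])⟩
      · push Not at h
        obtain ⟨s, s1, s2⟩ := mark_hit (P.φ N) (col N) g r hg0 (P.orb N (t + (j + 1))) (c3 N)
          fun s p s1 s2 s3 => by
            rw [← mk3_orb, ← mk3_orb, ← Nat.add_assoc, Nat.add_assoc t]
            exact c4 N hN b hR _ p s2 s3 (h s s1).2 (h s s1).1
        refine ⟨s + 1, by omega, by omega, Or.inl ?_⟩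
        rw [← mk3_orb] at s2
        rwa [← mk3_orb, ← mk3_orb, show t + (s + 1) + j = t + (j + 1) + s by ring])
    obtain ⟨X', x1, x2⟩ := hR.rng (t + p)
    have ho : P.orb N (t + p) = (P.φ N)^[p] (q, X) := by rw [mk3_orb, hX]
    obtain ⟨u1, u2, u3⟩ := hβ _ (hS j hj N (q, X))
    have h7 : P.orb N (t + p) = ((mac j N (q, X)).1, (X' : ℚ)) :=
      Prod.ext (by rw [ho, p4]) x2
    refine ⟨t + p, X', by omega, h7, ?_, fun s s1 s2 => ?_, fun hout h' hg' => ?_⟩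
    · have h8 : (X' : ℚ) = ev (mac j N (q, X)).2 N X := by rw [← x2, ho, p4]
      have h9 : (((β : ℤ) * X' : ℤ) : ℚ) = (((cv (mac j N (q, X))).2.1 * X +
          (cv (mac j N (q, X))).2.2.1 * (N : ℤ) + (cv (mac j N (q, X))).2.2.2 : ℤ) : ℚ) := by
        simp only [cv, Int.cast_add, Int.cast_mul, Int.cast_natCast, mk3_num u1, mk3_num u2,
          mk3_num u3, h8, ev]
        ring
      exact_mod_cast h9
    · obtain ⟨s, rfl⟩ := Nat.exists_eq_add_of_le s1.le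
      have := p3 s (by omega) (by omega)
      rw [← hX, ← mk3_orb] at this
      by_contra h
      exact this (Or.inr (Or.inr h))
    · rw [← ho, h7] at p2
      rcases p2 with h | h | h
      · refine Finset.mem_union_left _ (Finset.mem_filter.2 ⟨?_, ?_⟩)
        · have h1 : h' * (β * Δ) < H0 * (β * Δ) := by
            have h2 := hg'.1
            have h3 : h' * (β * Δ) + m0 ≤ X' := by exact_mod_cast h2
            rw [← Nat.mul_assoc H0, hNd]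
            omega
          simp [Nat.lt_of_mul_lt_mul_right h1, Nat.mod_lt X' hm]
        · refine (hgen _ (hI0 _) Δ h' X' hmΔ hg').1 ?_
          rw [hNd]
          exact h
      · refine Finset.mem_union_right _ ?_
        have h1 := e2 (β * Δ) h' (mac j N (q, X)).1 X' hΔ0
          (by have := hg'.1; omega) (by have := hg'.2; omega)
          (by rw [← Nat.mul_assoc, hNd, Int.cast_natCast]; exact h)
        simp [h1, Nat.mod_lt X' hm]
      · exact (h hout).elim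
  refine ⟨fun h hh => hjump _ ?_, fun ht o h1 h2 h3 => hjump _ ?_⟩
  · exact congrArg cv ((hgen _ (hI q _ (hS j hj _ _)) Δ h X hmΔ hh).1 rfl)
  · refine congrArg cv ?_
    have h4 := d3 ((j, q, some (mac j ((H0 * β * Δ : ℕ) : ℚ) (q, X))), ht, o) (by
      simp only [Finset.mem_product, Finset.mem_Icc]
      exact ⟨hI q _ (hS j hj _ _), ⟨by positivity, by exact_mod_cast h1⟩, abs_le.1 h2⟩)
    refine (hDf _ (hI q _ (hS j hj _ _)) Δ (m * D) (h4.trans hΔ)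
      (h4.trans (Nat.le_mul_of_pos_left _ hm)) hmΔ (dvd_mul_right _ _)).1 ?_
    dsimp only
    rw [← h3, Int.cast_natCast]
    rfl

end Pool.Agent.MP_47ff19_lc.H6P
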