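import Mathlib

/-! Two-head two-way finite automata and one-head two-way pushdown automata. -/

namespace Pool.Agent.MP_47ff19_lc.H6P

/-- Tape symbols: left end marker, right end marker, letter. -/
inductive Sym (A : Type) where
  | lft : Sym A
  | rgt : Sym A
  | ltr : A → Sym A

/-- The symbol in cell `p` of the tape `⊢ w ⊣` (cells `0, …, |w|+1`). -/
def tape {A : Type} (w : List A) (p : ℕ) : Sym A :=
  if p = 0 then Sym.lft else
    match w[p - 1]? with
    | some a => Sym.ltr a
    | none => Sym.rgt

/-- A head move on cells `0, …, n+1`; a head told to leave the tape stays on the end marker. -/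
def mv (n p : ℕ) : SignType → ℕ
  | SignType.neg => p - 1
  | SignType.zero => p
  | SignType.pos => min (p + 1) (n + 1)

/-- Deterministic two-way finite automaton with two heads; `δ` also sees whether the heads are on the same cell. -/
structure TwoHead (A Q : Type) where
  start : Q
  acc : Q → Prop
  δ : Q → Sym A → Sym A → Bool → Q × SignType × SignType

def TwoHead.step {A Q : Type} (M : TwoHead A Q) (w : List A) (c : Q × ℕ × ℕ) : Q × ℕ × ℕ :=
  ((M.δ c.1 (tape w c.2.1) (tape w c.2.2) (decide (c.2.1 = c.2.2))).1,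
    mv w.length c.2.1 (M.δ c.1 (tape w c.2.1) (tape w c.2.2) (decide (c.2.1 = c.2.2))).2.1,
    mv w.length c.2.2 (M.δ c.1 (tape w c.2.1) (tape w c.2.2) (decide (c.2.1 = c.2.2))).2.2)

def TwoHead.Accepts {A Q : Type} (M : TwoHead A Q) (w : List A) : Prop :=
  ∃ t : ℕ, M.acc ((M.step w)^[t] (M.start, 0, 0)).1

/-- Stack operations. -/
inductive Op (G : Type) where
  | keep : Op G
  | pop : Op G
  | push : G → Op G

def Op.app {G : Type} : Op G → List G → List G
  | Op.keep, s => s
  | Op.pop, s => s.tail
  | Op.push g, s => g :: s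

/-- Deterministic two-way pushdown automaton with one head. -/
structure TwoPDA (A Q G : Type) where
  start : Q
  acc : Q → Prop
  δ : Q → Sym A → Option G → Q × SignType × Op G

def TwoPDA.step {A Q G : Type} (D : TwoPDA A Q G) (w : List A) (c : Q × ℕ × List G) :
    Q × ℕ × List G :=
  ((D.δ c.1 (tape w c.2.1) c.2.2.head?).1,
    mv w.length c.2.1 (D.δ c.1 (tape w c.2.1) c.2.2.head?).2.1,
    (D.δ c.1 (tape w c.2.1) c.2.2.head?).2.2.app c.2.2)

def TwoPDA.Accepts {A Q G : Type} (D : TwoPDA A Q G) (w : List A) : Prop :=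
  ∃ t : ℕ, D.acc ((D.step w)^[t] (D.start, 0, [])).1

end Pool.Agent.MP_47ff19_lc.H6P
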