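import Pool.Agent.MP_47ff19_lc.H6P.Defs

namespace Pool.Agent.MP_47ff19_lc.H6P

open Relation

theorem nf_sign (c e : ℚ) : ∃ D0 : ℕ, ∀ D D' : ℕ, D0 ≤ D → D0 ≤ D' →
    (0 ≤ c * D + e ↔ 0 ≤ c * D' + e) := by
  rcases lt_trichotomy c 0 with hc | hc | hc
  · obtain ⟨D0, h0⟩ := exists_nat_gt (e / (-c))
    have key : ∀ D : ℕ, D0 ≤ D → ¬ 0 ≤ c * D + e := by
      intro D hD
      have h1 : (D0 : ℚ) ≤ D := by exact_mod_cast hD
      rw [div_lt_iff₀ (by linarith)] at h0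
      nlinarith
    exact ⟨D0, fun D D' h h' => iff_of_false (key D h) (key D' h')⟩
  · exact ⟨0, fun D D' _ _ => by simp [hc]⟩
  · obtain ⟨D0, h0⟩ := exists_nat_gt (-e / c)
    have key : ∀ D : ℕ, D0 ≤ D → 0 ≤ c * D + e := by
      intro D hD
      have h1 : (D0 : ℚ) ≤ D := by exact_mod_cast hD
      rw [div_lt_iff₀ hc] at h0
      nlinarith
    exact ⟨D0, fun D D' h h' => iff_of_true (key D h) (key D' h')⟩

theorem nf_den (c : ℚ) (n : ℤ) (h : (c.den : ℤ) ∣ n) : ∃ z : ℤ, c * n = z := by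
  obtain ⟨k, rfl⟩ := h
  refine ⟨c.num * k, ?_⟩
  push_cast
  rw [← mul_assoc, Rat.mul_den_eq_num]

theorem nf_side (y e : ℚ) (z h X : ℤ) (D m0 : ℕ) (he : |e| < m0)
    (hg : Gen D m0 h X) (hy : y = X - z * D + e) :
    (z ≤ h → 0 < y) ∧ (h < z → y < 0) := by
  have a1 : (h : ℚ) * D + m0 ≤ X := by exact_mod_cast hg.1
  have a2 : (X : ℚ) + m0 ≤ (h + 1) * D := by exact_mod_cast hg.2
  have a3 : (0 : ℚ) ≤ D := by positivity
  have a4 := abs_lt.1 he
  constructor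
  · intro hz
    have : (z : ℚ) ≤ h := by exact_mod_cast hz
    nlinarith [a4.1]
  · intro hz
    have : (h : ℚ) + 1 ≤ z := by exact_mod_cast hz
    nlinarith [a4.2]

theorem nf_gen_le {D m0 : ℕ} {h X : ℤ} (hg : Gen D m0 h X) : m0 ≤ D := by
  have h1 := hg.1
  have h2 := hg.2
  have : (m0 : ℤ) ≤ D := by nlinarith [Int.natCast_nonneg m0]
  exact_mod_cast this

theorem nf_and {P R : ℚ → ℚ → Prop} {m H m0 : ℕ} (h1 : Tame P m H m0) (h2 : Tame R m H m0) :
    Tame (fun N X => P N X ∧ R N X) m H m0 := by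
  refine ⟨fun D D' a1 a2 h X X' a3 a4 a5 =>
    and_congr (h1.1 D D' a1 a2 h X X' a3 a4 a5) (h2.1 D D' a1 a2 h X X' a3 a4 a5), fun h o => ?_⟩
  obtain ⟨D0, h0⟩ := h1.2 h o
  obtain ⟨D1, k1⟩ := h2.2 h o
  exact ⟨max D0 D1, fun D D' a1 a2 a3 a4 =>
    and_congr (h0 D D' (le_trans (le_max_left _ _) a1) (le_trans (le_max_left _ _) a2) a3 a4)
      (k1 D D' (le_trans (le_max_right _ _) a1) (le_trans (le_max_right _ _) a2) a3 a4)⟩

/-- ROW NF (paper 3c): normal form of a `PB` predicate. -/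
theorem nf {P : ℚ → ℚ → Prop} (h : PB P) :
    ∃ m H m0 : ℕ, 0 < m ∧ 0 < H ∧ ∀ m' H' m0' : ℕ, m ∣ m' → H ∣ H' → m0 ≤ m0' → 0 < H' →
      Tame P m' H' m0' := by
  induction h with
  | le t =>
    obtain ⟨al, a, ga⟩ := t
    have hS : ∀ (m' H' : ℕ) (h o : ℤ), ∃ D0 : ℕ, ∀ D D' : ℕ, D0 ≤ D → D0 ≤ D' → m' ∣ D → m' ∣ D' →
        (0 ≤ ev (al, a, ga) ((H' * D : ℕ) : ℚ) ((h * D + o : ℤ) : ℚ) ↔
          0 ≤ ev (al, a, ga) ((H' * D' : ℕ) : ℚ) ((h * D' + o : ℤ) : ℚ)) := by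
      intro m' H' h o
      obtain ⟨D0, h0⟩ := nf_sign (al * h + a * H') (al * o + ga)
      refine ⟨D0, fun D D' hD hD' _ _ => ?_⟩
      have := h0 D D' hD hD'
      simp only [ev]
      push_cast
      constructor <;> intro hh
      · have := this.1 (by linarith); linarith
      · have := this.2 (by linarith); linarith
    by_cases ha : al = 0
    · obtain ⟨D0, h0⟩ := nf_sign a ga
      refine ⟨1, 1, D0, one_pos, one_pos, fun m' H' m0' _ _ hm hH => ⟨?_, hS m' H'⟩⟩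
      intro D D' _ _ h X X' h1 h2 _
      have b1 : D0 ≤ H' * D :=
        le_trans hm (le_trans (nf_gen_le h1) (Nat.le_mul_of_pos_left _ hH))
      have b2 : D0 ≤ H' * D' :=
        le_trans hm (le_trans (nf_gen_le h2) (Nat.le_mul_of_pos_left _ hH))
      have := h0 _ _ b1 b2
      simp only [ev, ha, zero_mul, zero_add]
      exact this
    · obtain ⟨m0, h0⟩ := exists_nat_gt |ga / al|
      refine ⟨1, (-(a / al)).den, m0, one_pos, Rat.den_pos _,
        fun m' H' m0' _ hd hm hH => ⟨?_, hS m' H'⟩⟩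
      obtain ⟨z, hz⟩ := nf_den (-(a / al)) (H' : ℤ) (by exact_mod_cast hd)
      have he : |ga / al| < (m0' : ℚ) := lt_of_lt_of_le h0 (by exact_mod_cast hm)
      have key : ∀ (D : ℕ) (X : ℤ),
          ev (al, a, ga) ((H' * D : ℕ) : ℚ) X = al * (X - z * D + ga / al) := by
        intro D X
        rw [← hz]
        simp only [ev]
        push_cast
        field_simp
        ring
      intro D D' _ _ h X X' h1 h2 _
      have s1 := nf_side _ _ z h X D m0' he h1 rfl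
      have s2 := nf_side _ _ z h X' D' m0' he h2 rfl
      simp only [key]
      rcases lt_or_gt_of_ne ha with hn | hp
      · rcases le_or_gt z h with hz' | hz'
        · exact iff_of_false (not_le.2 (mul_neg_of_neg_of_pos hn (s1.1 hz')))
            (not_le.2 (mul_neg_of_neg_of_pos hn (s2.1 hz')))
        · exact iff_of_true (mul_pos_of_neg_of_neg hn (s1.2 hz')).le
            (mul_pos_of_neg_of_neg hn (s2.2 hz')).le
      · rcases le_or_gt z h with hz' | hz'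
        · exact iff_of_true (mul_pos hp (s1.1 hz')).le (mul_pos hp (s2.1 hz')).le
        · exact iff_of_false (not_le.2 (mul_neg_of_pos_of_neg hp (s1.2 hz')))
            (not_le.2 (mul_neg_of_pos_of_neg hp (s2.2 hz')))
  | int t =>
    obtain ⟨al, a, ga⟩ := t
    refine ⟨al.den * a.den, 1, 0, Nat.mul_pos (Rat.den_pos _) (Rat.den_pos _), one_pos,
      fun m' H' m0' hm _ _ _ => ?_⟩
    have d1 : (al.den : ℤ) ∣ (m' : ℤ) := by
      exact_mod_cast (Dvd.intro _ rfl : al.den ∣ al.den * a.den).trans hm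
    have d2 : (a.den : ℤ) ∣ (m' : ℤ) := by
      exact_mod_cast (Dvd.intro_left _ rfl : a.den ∣ al.den * a.den).trans hm
    have key : ∀ (D D' : ℕ) (X X' : ℤ), m' ∣ D → m' ∣ D' → (m' : ℤ) ∣ X - X' →
        (∃ z : ℤ, ev (al, a, ga) ((H' * D' : ℕ) : ℚ) X' = z) →
        ∃ z : ℤ, ev (al, a, ga) ((H' * D : ℕ) : ℚ) X = z := by
      rintro D D' X X' hD hD' hX ⟨z, hz⟩
      obtain ⟨u, hu⟩ := nf_den al (X - X') (d1.trans hX)
      have e1 : (m' : ℤ) ∣ (H' : ℤ) * ((D : ℤ) - D') :=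
        Dvd.dvd.mul_left (dvd_sub (by exact_mod_cast hD) (by exact_mod_cast hD')) _
      obtain ⟨v, hv⟩ := nf_den a _ (d2.trans e1)
      refine ⟨z + u + v, ?_⟩
      simp only [ev] at hz ⊢
      push_cast at hz hu hv ⊢
      linarith
    constructor
    · intro D D' hD hD' h X X' _ _ hX
      exact ⟨key D' D X' X hD' hD hX.dvd, key D D' X X' hD hD' hX.symm.dvd⟩
    · intro h o
      refine ⟨0, fun D D' _ _ hD hD' => ?_⟩
      have e : ∀ D D' : ℕ, m' ∣ D → m' ∣ D' →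
          (m' : ℤ) ∣ ((h : ℤ) * D + o) - ((h : ℤ) * D' + o) := by
        intro D D' hD hD'
        have : ((h : ℤ) * D + o) - ((h : ℤ) * D' + o) = h * ((D : ℤ) - D') := by ring
        rw [this]
        exact Dvd.dvd.mul_left (dvd_sub (by exact_mod_cast hD) (by exact_mod_cast hD')) _
      exact ⟨key D' D _ _ hD' hD (e D' D hD' hD), key D D' _ _ hD hD' (e D D' hD hD')⟩
  | not _ ih =>
    obtain ⟨m, H, m0, hm, hH, h⟩ := ih
    refine ⟨m, H, m0, hm, hH, fun m' H' m0' a b c d => ?_⟩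
    obtain ⟨g, s⟩ := h m' H' m0' a b c d
    refine ⟨fun D D' a1 a2 h X X' a3 a4 a5 => not_congr (g D D' a1 a2 h X X' a3 a4 a5),
      fun h o => ?_⟩
    obtain ⟨D0, h0⟩ := s h o
    exact ⟨D0, fun D D' a1 a2 a3 a4 => not_congr (h0 D D' a1 a2 a3 a4)⟩
  | and _ _ ih1 ih2 =>
    obtain ⟨m, H, m0, hm, hH, h⟩ := ih1
    obtain ⟨n, K, n0, hn, hK, k⟩ := ih2
    refine ⟨m * n, H * K, max m0 n0, Nat.mul_pos hm hn, Nat.mul_pos hH hK,
      fun m' H' m0' a b c d => ?_⟩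
    exact nf_and
      (h m' H' m0' ((Dvd.intro _ rfl).trans a) ((Dvd.intro _ rfl).trans b)
        (le_trans (le_max_left _ _) c) d)
      (k m' H' m0' ((Dvd.intro_left _ rfl).trans a) ((Dvd.intro_left _ rfl).trans b)
        (le_trans (le_max_right _ _) c) d)

/-- finitely many predicates at once -/
theorem nf_fin {ι : Type} (s : Finset ι) {P : ι → ℚ → ℚ → Prop} (h : ∀ i ∈ s, PB (P i)) :
    ∃ m H m0 : ℕ, 0 < m ∧ 0 < H ∧ ∀ m' H' m0' : ℕ, m ∣ m' → H ∣ H' → m0 ≤ m0' → 0 < H' →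
      ∀ i ∈ s, Tame (P i) m' H' m0' := by
  choose m H m0 hm hH k using fun i : s => nf (h i.1 i.2)
  refine ⟨∏ i, m i, ∏ i, H i, ∑ i, m0 i, Finset.prod_pos (fun i _ => hm i),
    Finset.prod_pos (fun i _ => hH i), fun m' H' m0' a b c d i hi => ?_⟩
  exact k ⟨i, hi⟩ m' H' m0' ((Finset.dvd_prod_of_mem _ (Finset.mem_univ _)).trans a)
    ((Finset.dvd_prod_of_mem _ (Finset.mem_univ _)).trans b)
    (le_trans (Finset.single_le_sum (f := m0) (fun _ _ => Nat.zero_le _) (Finset.mem_univ _)) c) d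

end Pool.Agent.MP_47ff19_lc.H6P
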