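import Pool.Agent.MP_47ff19_lc.H6P.Defs

namespace Pool.Agent.MP_47ff19_lc.H6P

open Relation

/-! ROW PBC: closure properties of `PB`, `MP`, `Meas`. -/

theorem PB.congr {P R : ℚ → ℚ → Prop} (h : PB P) (e : ∀ N X, P N X ↔ R N X) : PB R := by
  have : P = R := by funext N X; exact propext (e N X)
  exact this ▸ h

theorem PB.const (p : Prop) : PB fun _ _ => p := by
  have top : PB fun _ _ => True := (PB.le (0, 0, 0)).congr (by simp [ev])
  by_cases h : p
  · exact top.congr (by simp [h])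
  · exact top.not.congr (by simp [h])

theorem PB.or {P R : ℚ → ℚ → Prop} (h : PB P) (h' : PB R) : PB fun N X => P N X ∨ R N X :=
  (h.not.and h'.not).not.congr (by intro N X; tauto)

theorem PB.imp {P R : ℚ → ℚ → Prop} (h : PB P) (h' : PB R) : PB fun N X => P N X → R N X :=
  (h.and h'.not).not.congr (by intro N X; tauto)

theorem PB.all {ι : Type} (s : Finset ι) {P : ι → ℚ → ℚ → Prop} (h : ∀ i ∈ s, PB (P i)) :
    PB fun N X => ∀ i ∈ s, P i N X := by
  classical
  induction s using Finset.induction_on with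
  | empty => exact (PB.const True).congr (by simp)
  | insert a S ha ih =>
    exact ((h a (by simp)).and (ih fun i hi => h i (by simp [hi]))).congr (by intro N X; simp)

theorem PB.ex {ι : Type} (s : Finset ι) {P : ι → ℚ → ℚ → Prop} (h : ∀ i ∈ s, PB (P i)) :
    PB fun N X => ∃ i ∈ s, P i N X :=
  (PB.all s (P := fun i N X => ¬ P i N X) (fun i hi => (h i hi).not)).not.congr
    (by intro N X; simp)

theorem PB.le2 (τ τ' : Aff) : PB fun N X => ev τ N X ≤ ev τ' N X :=
  (PB.le (τ'.1 - τ.1, τ'.2.1 - τ.2.1, τ'.2.2 - τ.2.2)).congr (by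
    intro N X; simp only [ev]; constructor <;> intro h <;> linarith)

theorem PB.lt2 (τ τ' : Aff) : PB fun N X => ev τ N X < ev τ' N X :=
  (PB.le2 τ' τ).not.congr (by intro N X; simp)

theorem PB.eq2 (τ τ' : Aff) : PB fun N X => ev τ N X = ev τ' N X :=
  ((PB.le2 τ τ').and (PB.le2 τ' τ)).congr (by intro N X; exact le_antisymm_iff.symm)

/-- composition of forms: `ev (comp τ' τ) N X = ev τ' N (ev τ N X)` -/
def comp (τ' τ : Aff) : Aff := (τ'.1 * τ.1, τ'.1 * τ.2.1 + τ'.2.1, τ'.1 * τ.2.2 + τ'.2.2)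

theorem ev_comp (τ' τ : Aff) (N X : ℚ) : ev (comp τ' τ) N X = ev τ' N (ev τ N X) := by
  simp only [ev, comp]; ring

theorem PB.subst {P : ℚ → ℚ → Prop} (h : PB P) (τ : Aff) : PB fun N X => P N (ev τ N X) := by
  induction h with
  | le t => exact (PB.le (comp t τ)).congr (by intro N X; rw [ev_comp])
  | int t => exact (PB.int (comp t τ)).congr (by intro N X; rw [ev_comp])
  | not _ ih => exact ih.not
  | and _ _ ih1 ih2 => exact ih1.and ih2

theorem Meas.const {Q β : Type} (b : β) : Meas fun (_ : ℚ) (_ : Q × ℚ) => b :=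
  ⟨⟨{b}, fun _ _ => by simp⟩, fun b' _ => PB.const (b = b')⟩

theorem Meas.state {Q : Type} [Finite Q] : Meas fun (_ : ℚ) (c : Q × ℚ) => c.1 := by
  have := Fintype.ofFinite Q
  exact ⟨⟨Finset.univ, fun _ _ => Finset.mem_univ _⟩, fun b q => PB.const (q = b)⟩

theorem Meas.pred {Q β : Type} {f : ℚ → Q × ℚ → β} (h : Meas f) (p : β → Prop) :
    MP fun N c => p (f N c) := by
  obtain ⟨⟨s, hs⟩, hm⟩ := h
  intro q
  refine (PB.ex s (P := fun b N X => p b ∧ f N (q, X) = b)
    (fun b _ => (PB.const (p b)).and (hm b q))).congr ?_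
  intro N X
  constructor
  · rintro ⟨b, _, hb, e⟩
    rw [e]; exact hb
  · intro hp
    exact ⟨_, hs N (q, X), hp, rfl⟩

theorem Meas.map {Q β γ : Type} {f : ℚ → Q × ℚ → β} (h : Meas f) (g : β → γ) :
    Meas fun N c => g (f N c) := by
  classical
  refine ⟨?_, fun b => h.pred (fun x => g x = b)⟩
  obtain ⟨⟨s, hs⟩, _⟩ := h
  exact ⟨s.image g, fun N c => Finset.mem_image_of_mem g (hs N c)⟩

theorem Meas.prod {Q β γ : Type} {f : ℚ → Q × ℚ → β} {f' : ℚ → Q × ℚ → γ} (h : Meas f)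
    (h' : Meas f') : Meas fun N c => (f N c, f' N c) := by
  obtain ⟨⟨s, hs⟩, hm⟩ := h
  obtain ⟨⟨s', hs'⟩, hm'⟩ := h'
  refine ⟨⟨s ×ˢ s', fun N c => Finset.mem_product.2 ⟨hs N c, hs' N c⟩⟩, fun b q => ?_⟩
  exact ((hm b.1 q).and (hm' b.2 q)).congr (by intro N X; simp [Prod.ext_iff])

open Classical in
theorem Meas.ite {Q β : Type} {S : ℚ → Q × ℚ → Prop} {f f' : ℚ → Q × ℚ → β} (hS : MP S)
    (h : Meas f) (h' : Meas f') : Meas fun N c => if S N c then f N c else f' N c := by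
  obtain ⟨⟨s, hs⟩, hm⟩ := h
  obtain ⟨⟨s', hs'⟩, hm'⟩ := h'
  refine ⟨⟨s ∪ s', fun N c => ?_⟩, fun b q => ?_⟩
  · by_cases hc : S N c
    · simp [hc, hs N c]
    · simp [hc, hs' N c]
  · refine (((hS q).and (hm b q)).or ((hS q).not.and (hm' b q))).congr ?_
    intro N X
    by_cases hc : S N (q, X) <;> simp [hc]

/-- choosing a label: a measurable selector of a finite measurable family -/
theorem Meas.choose {Q β : Type} (s : Finset β) (b0 : β) (g : β → ℚ → Q × ℚ → Prop)
    (hg : ∀ b ∈ s, MP (g b)) :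
    ∃ f : ℚ → Q × ℚ → β, Meas f ∧ ∀ N c, (∃ b ∈ s, g b N c) → f N c ∈ s ∧ g (f N c) N c := by
  classical
  induction s using Finset.induction_on with
  | empty => exact ⟨fun _ _ => b0, Meas.const b0, fun N c h => by simp at h⟩
  | insert a S ha ih =>
    obtain ⟨f, hf, hp⟩ := ih fun b hb => hg b (by simp [hb])
    refine ⟨fun N c => if g a N c then a else f N c,
      Meas.ite (hg a (by simp)) (Meas.const a) hf, fun N c h => ?_⟩
    by_cases hc : g a N c
    · simp [hc]
    · obtain ⟨b, hb, hb'⟩ := h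
      rcases Finset.mem_insert.1 hb with rfl | hb
      · exact absurd hb' hc
      · have := hp N c ⟨b, hb, hb'⟩
        simp only [hc, if_false]
        exact ⟨Finset.mem_insert_of_mem this.1, this.2⟩

theorem MP.step {Q : Type} (P : PA Q) {S : ℚ → Q × ℚ → Prop} (h : MP S) :
    MP fun N c => S N (P.φ N c) := by
  obtain ⟨⟨s, hs⟩, hm⟩ := P.meas
  intro q
  refine (PB.ex s (P := fun l N X => P.lab N (q, X) = l ∧ S N (l.1, ev l.2 N X))
    (fun l _ => (hm l q).and ((h l.1).subst l.2))).congr ?_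
  intro N X
  constructor
  · rintro ⟨l, _, e, hl⟩
    simp only [PA.φ, e]; exact hl
  · intro hp
    exact ⟨_, hs N (q, X), rfl, hp⟩

theorem MP.iter {Q : Type} (P : PA Q) {S : ℚ → Q × ℚ → Prop} (h : MP S) (p : ℕ) :
    MP fun N c => S N ((P.φ N)^[p] c) := by
  induction p with
  | zero => exact h
  | succ p ih => exact MP.step P ih

theorem Meas.iter {Q β : Type} (P : PA Q) {f : ℚ → Q × ℚ → β} (h : Meas f) (p : ℕ) :
    Meas fun N c => f N ((P.φ N)^[p] c) := by
  obtain ⟨⟨s, hs⟩, hm⟩ := h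
  exact ⟨⟨s, fun N c => hs N _⟩, fun b => MP.iter P (hm b) p⟩

/-- the composite form of `p` steps -/
def PA.cmp {Q : Type} (P : PA Q) (N : ℚ) (c : Q × ℚ) : ℕ → Aff
  | 0 => (1, 0, 0)
  | p + 1 => comp (P.lab N ((P.φ N)^[p] c)).2 (PA.cmp P N c p)

theorem PA.ev_cmp {Q : Type} (P : PA Q) (N : ℚ) (c : Q × ℚ) (p : ℕ) :
    ((P.φ N)^[p] c).2 = ev (P.cmp N c p) N c.2 := by
  induction p with
  | zero => simp [PA.cmp, ev]
  | succ p ih =>
    rw [Function.iterate_succ_apply', PA.cmp, ev_comp, ← ih]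
    rfl

theorem PA.meas_cmp {Q : Type} (P : PA Q) (p : ℕ) : Meas fun N c => P.cmp N c p := by
  induction p with
  | zero => exact Meas.const _
  | succ p ih =>
    exact ((Meas.iter P P.meas p).prod ih).map (fun x => comp x.1.2 x.2)

end Pool.Agent.MP_47ff19_lc.H6P
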