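import Pool.Agent.MP_47ff19_lc.H6P.Glue
import Pool.Agent.MP_47ff19_lc.H6P.Halt
import Pool.Agent.MP_47ff19_lc.H6P.Phase
import Pool.Agent.MP_47ff19_lc.H6P.Mark3
import Pool.Agent.MP_47ff19_lc.H6P.Arith

namespace Pool.Agent.MP_47ff19_lc.H6P

open Relation

theorem main : ∃ (Q G : Type) (_ : Finite Q) (_ : Finite G) (D : TwoPDA Unit Q G),
    ∀ (Q' : Type) (_ : Finite Q') (M : TwoHead Unit Q'),
      ∃ w : List Unit, ¬ (M.Accepts w ↔ D.Accepts w) := by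
  obtain ⟨Q, G, hQ, hG, D, hD⟩ := glue
  refine ⟨Q, G, hQ, hG, D, fun Q' hQ' M => ?_⟩
  obtain ⟨Q1, h1, M', out, habs, hM'⟩ := halting Q' M
  obtain ⟨Q2, h2, P, hP⟩ := phase Q1 M' out habs
  obtain ⟨K, hK⟩ := markers P
  obtain ⟨F1, F2, hF1, hF2, A, f0, ν1, lam1, c1, c2, hA⟩ := arith P K hK
  obtain ⟨lam0, hl⟩ := hD F1 F2 A f0 ν1 c1 c2
  obtain ⟨st2, c0, k, n0, hst, hn⟩ := hA (max lam0 lam1) (le_max_right _ _)
  obtain ⟨n, hn0, hans⟩ := hl (max lam0 lam1) (le_max_left _ _) st2 hst c0 n0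
  obtain ⟨hcap, hrun⟩ := hn n hn0
  obtain ⟨t, b, ho, hx, hb⟩ := hM' ((2 * k + 1) * 2 ^ (n + c0))
  have hans' := hans k (!b) hcap (hrun b (hP _ t b ho hx))
  refine ⟨un ((2 * k + 1) * 2 ^ (n + c0)), fun hiff => ?_⟩
  unfold Answers at hans'
  rw [← hiff, ← hb] at hans'
  cases b <;> simp at hans'

end Pool.Agent.MP_47ff19_lc.H6P
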